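import Pool.Agent.R223.RD.Stm

/-!
# RD-AP: approximation by functions with vanishing moments (helper52)
-/

set_option autoImplicit false

open MeasureTheory Set Filter Topology
open scoped ContDiff

namespace Pool.Agent.R223.RD.AP

open Pool.Agent.R223.RD

/-- a smooth function supported in `[1, 2]` of integral one. -/
theorem exists_theta : ∃ θ : ℝ → ℂ, ContDiff ℝ (⊤ : ℕ∞) θ ∧ (∀ x, x ≤ 1 → θ x = 0) ∧
    (∀ x, 2 ≤ x → θ x = 0) ∧ ∫ x, θ x = 1 := by
  let f : ContDiffBump (3 / 2 : ℝ) := ⟨1 / 4, 1 / 2, by norm_num, by norm_num⟩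
  have hs : ∀ x : ℝ, x ∉ Metric.ball (3 / 2 : ℝ) (1 / 2) → f.normed volume x = 0 := by
    intro x hx
    by_contra h
    have h1 : x ∈ Function.support (f.normed (volume : Measure ℝ)) := h
    rw [f.support_normed_eq] at h1
    exact hx h1
  refine ⟨fun x => ((f.normed volume x : ℝ) : ℂ), ?_, ?_, ?_, ?_⟩
  · exact Complex.ofRealCLM.contDiff.comp f.contDiff_normed
  · intro x hx
    have := hs x (by rw [Metric.mem_ball, Real.dist_eq, abs_lt]; intro h; linarith [h.1])
    simp only [this, Complex.ofReal_zero]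
  · intro x hx
    have := hs x (by rw [Metric.mem_ball, Real.dist_eq, abs_lt]; intro h; linarith [h.2])
    simp only [this, Complex.ofReal_zero]
  · rw [integral_complex_ofReal, f.integral_normed]
    simp

/-- norm of a bounded function vanishing outside a disc. -/
theorem norm_bound {p : ℝ} (hp : 2 ≤ p) (f : ℂ → ℂ) (C S : ℝ) (hS : 1 ≤ S)
    (hf : ∀ z, ‖f z‖ ≤ C) (_hC : 0 ≤ C) (h0 : ∀ z, S ≤ Complex.normSq z → f z = 0) :
    eLpNorm f (ENNReal.ofReal p) (volume : Measure ℂ) ≤
      ENNReal.ofReal (Real.pi * Real.sqrt S * C) := by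
  let B : Set ℂ := Metric.closedBall (0 : ℂ) (Real.sqrt S)
  have hB : MeasurableSet B := Metric.isClosed_closedBall.measurableSet
  have hfi : f = B.indicator f := by
    symm
    apply indicator_eq_self.2
    intro z hz
    by_contra hzB
    apply hz
    apply h0
    simp only [B, Metric.mem_closedBall, dist_zero_right, not_le] at hzB
    rw [Complex.normSq_eq_norm_sq]
    have h1 : Real.sqrt S ^ 2 = S := Real.sq_sqrt (by linarith)
    have h2 : 0 ≤ Real.sqrt S := Real.sqrt_nonneg S
    nlinarith
  have hv : volume B = ENNReal.ofReal (Real.pi * S) := by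
    simp only [B]
    rw [Complex.volume_closedBall, ← ENNReal.ofReal_pow (Real.sqrt_nonneg _),
      Real.sq_sqrt (by linarith : (0 : ℝ) ≤ S), ENNReal.ofReal_mul Real.pi_pos.le, mul_comm]
    congr 1
    rw [← NNReal.coe_real_pi, ENNReal.ofReal_coe_nnreal]
  have hpp : (ENNReal.ofReal p).toReal = p := ENNReal.toReal_ofReal (by linarith)
  calc eLpNorm f (ENNReal.ofReal p) (volume : Measure ℂ)
      = eLpNorm (B.indicator f) (ENNReal.ofReal p) (volume : Measure ℂ) := by rw [← hfi]
    _ = eLpNorm f (ENNReal.ofReal p) (volume.restrict B) :=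
        eLpNorm_indicator_eq_eLpNorm_restrict hB
    _ ≤ (volume.restrict B) univ ^ (ENNReal.ofReal p).toReal⁻¹ * ENNReal.ofReal C :=
        eLpNorm_le_of_ae_bound (ae_of_all _ hf)
    _ ≤ ENNReal.ofReal (Real.pi * Real.sqrt S) * ENNReal.ofReal C := by
        gcongr
        rw [Measure.restrict_apply_univ, hv, hpp]
        have hpos : 0 ≤ Real.pi * S := by positivity
        rw [ENNReal.ofReal_rpow_of_nonneg hpos (by positivity)]
        apply ENNReal.ofReal_le_ofReal
        have h1 : 1 ≤ Real.pi * S := by nlinarith [Real.pi_gt_three]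
        calc (Real.pi * S) ^ p⁻¹ ≤ (Real.pi * S) ^ (1 / 2 : ℝ) := by
              apply Real.rpow_le_rpow_of_exponent_le h1
              rw [inv_le_comm₀ (by linarith) (by norm_num)]
              linarith
          _ = Real.sqrt (Real.pi * S) := (Real.sqrt_eq_rpow _).symm
          _ = Real.sqrt Real.pi * Real.sqrt S := Real.sqrt_mul Real.pi_pos.le S
          _ ≤ Real.pi * Real.sqrt S := by
              gcongr
              rw [Real.sqrt_le_left Real.pi_pos.le]
              nlinarith [Real.pi_gt_three]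
    _ = ENNReal.ofReal (Real.pi * Real.sqrt S * C) := by
        rw [ENNReal.ofReal_mul (by positivity : 0 ≤ Real.pi * Real.sqrt S)]

/-- the inductive step. -/
theorem step {p : ℝ} (hp : 2 ≤ p) (n : ℕ) (V1 : ℝ → ℂ) (hV1 : Cc V1) (δ : ℝ) (hδ : 0 < δ) :
    ∃ V : ℝ → ℂ, Cc V ∧ (∀ x, x < 1 → iteratedDeriv (n + 1) V x = iteratedDeriv n V1 x) ∧
    eLpNorm (fun z : ℂ => iteratedDeriv n V1 (Complex.normSq z) -
      iteratedDeriv (n + 1) V (Complex.normSq z))
      (ENNReal.ofReal p) (volume : Measure ℂ) ≤ ENNReal.ofReal δ := by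
  obtain ⟨hs, a, R, ha, haR, hVa, hVR⟩ := hV1
  obtain ⟨θ, hθ, hθ1, hθ2, hθi⟩ := exists_theta
  set I : ℂ := ∫ x, V1 x with hI
  -- bound of the derivative of theta
  have hθn : Continuous (iteratedDeriv n θ) :=
    (hθ.of_le (by exact_mod_cast le_top) : ContDiff ℝ n θ).continuous_iteratedDeriv n le_rfl
  have hθn1 : ∀ x, x < 1 → iteratedDeriv n θ x = 0 := by
    intro x hx
    have h1 : θ =ᶠ[𝓝 x] fun _ => 0 := by
      filter_upwards [Iio_mem_nhds hx] with y hy
      exact hθ1 y (le_of_lt hy)
    rw [h1.iteratedDeriv_eq n]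
    simp
  have hθn2 : ∀ x, 2 < x → iteratedDeriv n θ x = 0 := by
    intro x hx
    have h1 : θ =ᶠ[𝓝 x] fun _ => 0 := by
      filter_upwards [Ioi_mem_nhds hx] with y hy
      exact hθ2 y (le_of_lt hy)
    rw [h1.iteratedDeriv_eq n]
    simp
  obtain ⟨C, hC⟩ : ∃ C : ℝ, ∀ x ∈ Icc (1 : ℝ) 2, ‖iteratedDeriv n θ x‖ ≤ C :=
    isCompact_Icc.exists_bound_of_continuousOn hθn.continuousOn
  have hC0 : 0 ≤ C := (norm_nonneg _).trans (hC 1 ⟨le_rfl, by norm_num⟩)
  have hCall : ∀ x, ‖iteratedDeriv n θ x‖ ≤ C := by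
    intro x
    rcases lt_or_ge x 1 with h | h
    · rw [hθn1 x h, norm_zero]; exact hC0
    · rcases le_or_gt x 2 with h' | h'
      · exact hC x ⟨h, h'⟩
      · rw [hθn2 x h', norm_zero]; exact hC0
  -- choice of epsilon
  obtain ⟨ε, hε0, hε1, hεδ⟩ : ∃ ε : ℝ, 0 < ε ∧ ε < 1 ∧
      Real.pi * Real.sqrt (3 / ε) * (‖I‖ * ε * C) ≤ δ := by
    let K : ℝ := Real.pi * Real.sqrt 3 * (‖I‖ * C) + 1
    have hK : 0 < K := by positivity
    let r : ℝ := min (1 / 2) (δ / K)
    have hr : 0 < r := lt_min (by norm_num) (div_pos hδ hK)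
    refine ⟨r ^ 2, by positivity, ?_, ?_⟩
    · have : r ≤ 1 / 2 := min_le_left _ _
      nlinarith
    · rw [Real.sqrt_div (by norm_num), Real.sqrt_sq hr.le]
      have h1 : Real.pi * (Real.sqrt 3 / r) * (‖I‖ * r ^ 2 * C) =
          (Real.pi * Real.sqrt 3 * (‖I‖ * C)) * r := by
        field_simp
      rw [h1]
      have h2 : r ≤ δ / K := min_le_right _ _
      calc (Real.pi * Real.sqrt 3 * (‖I‖ * C)) * r ≤ K * r := by
            gcongr
            simp only [K]; linarith
        _ ≤ K * (δ / K) := by gcongr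
        _ = δ := by field_simp
  -- the function W and its primitive
  let g : ℝ → ℂ := fun t => (I * ε) * θ (ε * t)
  have hθc : ContDiff ℝ (⊤ : ℕ∞) (fun t : ℝ => θ (ε * t)) := hθ.comp (contDiff_const.mul contDiff_id)
  have hg : ContDiff ℝ (⊤ : ℕ∞) g := contDiff_const.mul hθc
  let W : ℝ → ℂ := V1 - g
  have hW : ContDiff ℝ (⊤ : ℕ∞) W := hs.sub hg
  let V : ℝ → ℂ := fun x => ∫ t in (0 : ℝ)..x, W t
  have hder : deriv V = W := by
    funext x
    exact hW.continuous.deriv_integral W 0 x
  have hdiff : Differentiable ℝ V := by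
    intro x
    exact (intervalIntegral.integral_hasDerivAt_right
      (hW.continuous.intervalIntegrable 0 x)
      (hW.continuous.stronglyMeasurableAtFilter _ _) hW.continuous.continuousAt).differentiableAt
  have hVs : ContDiff ℝ (⊤ : ℕ∞) V := contDiff_infty_iff_deriv.2 ⟨hdiff, by rw [hder]; exact hW⟩
  have hgn : ∀ x, iteratedDeriv n g x = (I * ε) * ((ε : ℂ) ^ n * iteratedDeriv n θ (ε * x)) := by
    intro x
    have h1 : iteratedDeriv n g x = (I * ε) * iteratedDeriv n (fun t : ℝ => θ (ε * t)) x := by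
      exact iteratedDeriv_const_mul (I * ε)
        ((hθc.of_le (by exact_mod_cast le_top)).contDiffAt)
    rw [h1, iteratedDeriv_comp_const_smul (hθ.of_le (by exact_mod_cast le_top)) ε]
    simp [Complex.real_smul]
  have hVn : ∀ x, iteratedDeriv (n + 1) V x = iteratedDeriv n V1 x -
      (I * ε) * ((ε : ℂ) ^ n * iteratedDeriv n θ (ε * x)) := by
    intro x
    rw [iteratedDeriv_succ', hder, ← hgn x]
    exact iteratedDeriv_sub ((hs.of_le (by exact_mod_cast le_top)).contDiffAt)
      ((hg.of_le (by exact_mod_cast le_top)).contDiffAt)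
  have hleft : ∀ x, x ≤ min a 1 → V x = 0 := by
    intro x hx
    have hz : ∀ t ∈ uIcc (0 : ℝ) x, W t = 0 := by
      intro t ht
      have ht2 : t ≤ min a 1 := by
        have := ht.2
        exact this.trans (sup_le (le_min ha.le zero_le_one) hx)
      have h1 : V1 t = 0 := hVa t (ht2.trans (min_le_left _ _))
      have h2 : θ (ε * t) = 0 := by
        apply hθ1
        have h3 : t ≤ 1 := ht2.trans (min_le_right _ _)
        nlinarith
      simp only [W, g, Pi.sub_apply, h1, h2, mul_zero, sub_zero]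
    simp only [V]
    rw [intervalIntegral.integral_congr (g := fun _ => (0 : ℂ)) hz]
    simp
  have hright : ∀ x, max R (2 / ε) ≤ x → V x = 0 := by
    intro x hx
    have hxR : R ≤ x := (le_max_left _ _).trans hx
    have hxe : 2 / ε ≤ x := (le_max_right _ _).trans hx
    have hex : 2 ≤ ε * x := by
      rw [div_le_iff₀ hε0] at hxe; linarith
    have h1 : ∫ t in (0 : ℝ)..x, V1 t = I := by
      apply intervalIntegral.integral_eq_integral_of_support_subset
      intro t ht
      constructor
      · by_contra h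
        exact ht (hVa t (by linarith [not_lt.1 h]))
      · by_contra h
        exact ht (hVR t (by linarith [not_le.1 h]))
    have h2 : ∫ t in (0 : ℝ)..x, g t = I := by
      rw [intervalIntegral.integral_eq_integral_of_support_subset]
      · simp only [g]
        rw [MeasureTheory.integral_const_mul, Measure.integral_comp_mul_left θ ε, hθi,
          abs_of_pos (inv_pos.2 hε0)]
        have hεc : (ε : ℂ) ≠ 0 := by exact_mod_cast hε0.ne'
        simp only [Complex.real_smul, Complex.ofReal_inv, mul_one]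
        field_simp
      · intro t ht
        have ht' : θ (ε * t) ≠ 0 := by
          intro h
          apply ht
          simp only [g, h, mul_zero]
        constructor
        · by_contra h
          apply ht'
          apply hθ1
          nlinarith [not_lt.1 h]
        · by_contra h
          apply ht'
          apply hθ2
          have := not_le.1 h
          nlinarith
    simp only [V, W, Pi.sub_apply]
    rw [intervalIntegral.integral_sub (hs.continuous.intervalIntegrable _ _)
      (hg.continuous.intervalIntegrable _ _), h1, h2, sub_self]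
  refine ⟨V, ⟨hVs, min a 1, max R (2 / ε), lt_min ha zero_lt_one, ?_, hleft, hright⟩, ?_, ?_⟩
  · calc min a 1 ≤ 1 := min_le_right _ _
      _ < 2 / ε := by rw [lt_div_iff₀ hε0]; linarith
      _ ≤ max R (2 / ε) := le_max_right _ _
  · intro x hx
    rw [hVn x, hθn1 (ε * x) (by nlinarith), mul_zero, mul_zero, sub_zero]
  · have hfun : (fun z : ℂ => iteratedDeriv n V1 (Complex.normSq z) -
        iteratedDeriv (n + 1) V (Complex.normSq z)) =
        fun z : ℂ => (I * ε) * ((ε : ℂ) ^ n * iteratedDeriv n θ (ε * Complex.normSq z)) := by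
      funext z
      rw [hVn]; ring
    rw [hfun]
    refine (norm_bound hp _ (‖I‖ * ε * C) (3 / ε) ?_ ?_ (by positivity) ?_).trans
      (ENNReal.ofReal_le_ofReal hεδ)
    · rw [le_div_iff₀ hε0]; linarith
    · intro z
      rw [norm_mul, norm_mul, norm_mul, norm_pow, Complex.norm_real, Real.norm_of_nonneg hε0.le]
      have h1 : ε ^ n ≤ 1 := pow_le_one₀ hε0.le hε1.le
      have h2 := hCall (ε * Complex.normSq z)
      calc ‖I‖ * ε * (ε ^ n * ‖iteratedDeriv n θ (ε * Complex.normSq z)‖)
          ≤ ‖I‖ * ε * (1 * C) := by gcongr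
        _ = ‖I‖ * ε * C := by ring
    · intro z hz
      rw [div_le_iff₀ hε0] at hz
      rw [hθn2 _ (by linarith), mul_zero, mul_zero]

theorem main : S_AP := by
  intro p hp n w hw
  induction n with
  | zero =>
    intro δ hδ
    refine ⟨w, hw, fun x _ => by simp [iteratedDeriv_zero], ?_⟩
    have : (fun z : ℂ => w (Complex.normSq z) - iteratedDeriv 0 w (Complex.normSq z)) =
        fun _ => (0 : ℂ) := by
      funext z; simp [iteratedDeriv_zero]
    rw [this]
    simp
  | succ n ih =>
    intro δ hδ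
    obtain ⟨V1, hc1, h1, hn1⟩ := ih (δ / 2) (by linarith)
    obtain ⟨V, hc, h2, hn2⟩ := step hp n V1 hc1 (δ / 2) (by linarith)
    refine ⟨V, hc, fun x hx => (h2 x hx).trans (h1 x hx), ?_⟩
    have e : (fun z : ℂ => w (Complex.normSq z) - iteratedDeriv (n + 1) V (Complex.normSq z)) =
        (fun z : ℂ => w (Complex.normSq z) - iteratedDeriv n V1 (Complex.normSq z)) +
        (fun z : ℂ => iteratedDeriv n V1 (Complex.normSq z) -
          iteratedDeriv (n + 1) V (Complex.normSq z)) := by
      funext z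
      simp only [Pi.add_apply]
      ring
    have hsq : Continuous (fun z : ℂ => Complex.normSq z) := Complex.continuous_normSq
    have c1 : Continuous (iteratedDeriv n V1) :=
      (hc1.1.of_le (by exact_mod_cast le_top) : ContDiff ℝ n V1).continuous_iteratedDeriv n le_rfl
    have c2 : Continuous (iteratedDeriv (n + 1) V) :=
      (hc.1.of_le (by exact_mod_cast le_top) :
        ContDiff ℝ ((n + 1 : ℕ) : WithTop ℕ∞) V).continuous_iteratedDeriv (n + 1) le_rfl
    have c0 : Continuous w := hw.1.continuous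
    rw [e]
    refine (eLpNorm_add_le ?_ ?_ ?_).trans ?_
    · exact ((c0.comp hsq).sub (c1.comp hsq)).aestronglyMeasurable
    · exact ((c1.comp hsq).sub (c2.comp hsq)).aestronglyMeasurable
    · rw [ENNReal.one_le_ofReal]; linarith
    · calc _ ≤ ENNReal.ofReal (δ / 2) + ENNReal.ofReal (δ / 2) := add_le_add hn1 hn2
        _ = ENNReal.ofReal δ := by
          rw [← ENNReal.ofReal_add (by linarith) (by linarith)]; congr 1; ring

end Pool.Agent.R223.RD.AP
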