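import Pool.Agent.R223.RD.Stm
import Pool.Agent.Y282.RB.K

/-! # Project RD: assembly (helper223) -/

set_option autoImplicit false

open MeasureTheory Set Filter Topology
open scoped SchwartzMap ENNReal

namespace Pool.Agent.R223.RD.Asm

open Pool.Agent.Y282.RB (Tn)
open Pool.Agent.Y282.RB.A2 (HH db dd)

/-- conclusion of `S_P` -/
def PC : Prop := ∀ (m n : ℕ) (p : ℝ) (V : ℝ → ℂ), n ≤ m → 2 ≤ p → Cc V →
  ∃ F : 𝓢(ℂ, ℂ), (∀ z, F z = (z⁻¹) ^ (m - n) * iteratedDeriv n V (Complex.normSq z)) ∧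
    eLpNorm (Tn n F) (ENNReal.ofReal p) (volume : Measure ℂ)
      ≤ ENNReal.ofReal ((1 + Real.sqrt ((n : ℝ) * m)) ^ (1 - 2 / p)) *
        eLpNorm (⇑F) (ENNReal.ofReal p) (volume : Measure ℂ)

lemma meas_T (n : ℕ) (f : 𝓢(ℂ, ℂ)) : AEStronglyMeasurable (Tn n f) (volume : Measure ℂ) := by
  rw [Pool.Agent.Y282.RB.K.Tn_eq]
  exact (Pool.Agent.TH55.PowA.T_cont (Pool.Agent.Y282.RB.K.adm_sy n) _).aestronglyMeasurable

/-- splitting off a small part -/
lemma split (n : ℕ) (hn : 1 ≤ n) (p : ℝ) (hp : 2 ≤ p) (f g : 𝓢(ℂ, ℂ)) :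
    eLpNorm (Tn n f) (ENNReal.ofReal p) (volume : Measure ℂ) ≤
      ENNReal.ofReal (Pool.Agent.TH55.PowA.Cn n * (p - 1)) *
        eLpNorm (f - g : 𝓢(ℂ, ℂ)) (ENNReal.ofReal p) (volume : Measure ℂ) +
      eLpNorm (Tn n g) (ENNReal.ofReal p) (volume : Measure ℂ) := by
  have hP1 : (1 : ℝ≥0∞) ≤ ENNReal.ofReal p := by
    rw [← ENNReal.ofReal_one]
    exact ENNReal.ofReal_le_ofReal (by linarith)
  have e1 : Tn n f = fun z => Tn n (f - g : 𝓢(ℂ, ℂ)) z + Tn n g z := by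
    rw [← Pool.Agent.Y282.RB.K.Tn_add]
    congr 2
    rw [sub_add_cancel]
  rw [e1]
  refine (eLpNorm_add_le (meas_T n _) (meas_T n _) hP1).trans (add_le_add ?_ le_rfl)
  rw [Pool.Agent.Y282.RB.K.Tn_eq]
  exact Pool.Agent.TH55.PowA.main p hp n hn (f - g)

/-- the limit `δ → 0` -/
lemma lim_le (A B C D : ℝ≥0∞) (hC : C ≠ ⊤) (hD : D ≠ ⊤)
    (h : ∀ δ : ℝ, 0 < δ → A ≤ C * ENNReal.ofReal δ + D * (B + ENNReal.ofReal δ)) :
    A ≤ D * B := by
  have h1 : Tendsto (fun k : ℕ => ENNReal.ofReal (1 / ((k : ℝ) + 1))) atTop (𝓝 0) := by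
    have := (tendsto_one_div_add_atTop_nhds_zero_nat (𝕜 := ℝ))
    have h2 := (ENNReal.continuous_ofReal.tendsto 0).comp this
    rw [ENNReal.ofReal_zero] at h2
    exact h2
  have h3 : Tendsto (fun k : ℕ => C * ENNReal.ofReal (1 / ((k : ℝ) + 1)) +
      D * (B + ENNReal.ofReal (1 / ((k : ℝ) + 1)))) atTop (𝓝 (C * 0 + D * (B + 0))) := by
    refine Tendsto.add (ENNReal.Tendsto.const_mul h1 (Or.inr hC)) ?_
    exact ENNReal.Tendsto.const_mul (tendsto_const_nhds.add h1) (Or.inr hD)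
  rw [mul_zero, zero_add, add_zero] at h3
  exact ge_of_tendsto' h3 fun k => h _ (by positivity)

theorem mainNeg (hP : PC) (hAP : S_AP) (hTR : S_TR) (m n : ℕ) (p : ℝ) (hnm : n ≤ m) (hn : 1 ≤ n)
    (hp : 2 ≤ p) : MainNeg m n p := by
  intro f hf
  set K : ℝ := Pool.Agent.TH55.PowA.Cn n * (p - 1) with hK
  have hP1 : (1 : ℝ≥0∞) ≤ ENNReal.ofReal p := by
    rw [← ENNReal.ofReal_one]
    exact ENNReal.ofReal_le_ofReal (by linarith)
  refine lim_le _ _ (ENNReal.ofReal K * 2) _ (ENNReal.mul_ne_top ENNReal.ofReal_ne_top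
    (by norm_num)) ENNReal.ofReal_ne_top fun δ hδ => ?_
  obtain ⟨w, g, hw, hg, hle, hfg⟩ := hTR (m - n) f hf p hp δ hδ
  obtain ⟨V, hV, hV1, hV2⟩ := hAP p hp n w hw δ hδ
  obtain ⟨F, hF, hFle⟩ := hP m n p V hnm hp hV
  have hgF : eLpNorm (g - F : 𝓢(ℂ, ℂ)) (ENNReal.ofReal p) (volume : Measure ℂ)
      ≤ ENNReal.ofReal δ := by
    refine (eLpNorm_mono fun z => ?_).trans hV2
    show ‖g z - F z‖ ≤ _
    rw [hg, hF, ← mul_sub, norm_mul]
    rcases lt_or_ge (Complex.normSq z) 1 with h1 | h1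
    · rw [hV1 _ h1]
      simp
    · have hz : 1 ≤ ‖z‖ := by
        rw [Complex.normSq_eq_norm_sq] at h1
        nlinarith [norm_nonneg z]
      have h2 : ‖(z⁻¹) ^ (m - n)‖ ≤ 1 := by
        rw [norm_pow, norm_inv]
        exact pow_le_one₀ (by positivity) (inv_le_one_of_one_le₀ hz)
      exact mul_le_of_le_one_left (norm_nonneg _) h2
  have hFn : eLpNorm (⇑F) (ENNReal.ofReal p) (volume : Measure ℂ) ≤
      eLpNorm (⇑f) (ENNReal.ofReal p) (volume : Measure ℂ) + ENNReal.ofReal δ := by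
    have e1 : (⇑F : ℂ → ℂ) = fun z => g z + (-(g - F : 𝓢(ℂ, ℂ)) z) := by
      funext z
      show F z = g z + (-(g z - F z))
      ring
    rw [e1]
    refine (eLpNorm_add_le g.continuous.aestronglyMeasurable
      ((g - F).continuous.neg.aestronglyMeasurable) hP1).trans (add_le_add ?_ ?_)
    · exact eLpNorm_mono hle
    · refine (le_of_eq ?_).trans hgF
      exact eLpNorm_neg _ _ _
  calc eLpNorm (Tn n f) (ENNReal.ofReal p) (volume : Measure ℂ)
      ≤ ENNReal.ofReal K * ENNReal.ofReal δ + (ENNReal.ofReal K * ENNReal.ofReal δ +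
          ENNReal.ofReal ((1 + Real.sqrt ((n : ℝ) * m)) ^ (1 - 2 / p)) *
          (eLpNorm (⇑f) (ENNReal.ofReal p) (volume : Measure ℂ) + ENNReal.ofReal δ)) := by
        refine (split n hn p hp f g).trans (add_le_add (by gcongr) ?_)
        refine (split n hn p hp g F).trans (add_le_add (by gcongr) ?_)
        exact hFle.trans (by gcongr)
    _ = _ := by ring

lemma T0 (f : 𝓢(ℂ, ℂ)) (z : ℂ) : Tn 0 f z = f z := by
  have := Pool.Agent.Y282.RB.A2.Tn_db 0 f z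
  simpa using this

theorem mainPos (hN : ∀ (m n : ℕ) (p : ℝ), n ≤ m → 1 ≤ n → 2 ≤ p → MainNeg m n p)
    (hTR : S_TR2) (hSG : S_SG) (m n : ℕ) (p : ℝ) (hmn : m ≤ n) (hn : 1 ≤ n)
    (hp : 2 ≤ p) : MainPos m n p := by
  intro f hf
  refine lim_le _ _ (ENNReal.ofReal (Pool.Agent.TH55.PowA.Cn n * (p - 1))) _
    ENNReal.ofReal_ne_top ENNReal.ofReal_ne_top fun δ hδ => ?_
  obtain ⟨w, g, hw, hg, hle, hfg⟩ := hTR (n - m) f hf p hp δ hδ
  obtain ⟨g', hg', hT⟩ := hSG (n - m) m w g hw hg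
  have hT' : Tn n g = Tn m g' := by
    funext z
    rw [← hT z, Nat.sub_add_cancel hmn]
  have hnn : eLpNorm (⇑g') (ENNReal.ofReal p) (volume : Measure ℂ) ≤
      eLpNorm (⇑g) (ENNReal.ofReal p) (volume : Measure ℂ) := by
    refine eLpNorm_mono fun z => le_of_eq ?_
    rw [hg', hg, norm_mul, norm_mul, norm_pow, norm_pow, RCLike.norm_conj]
  have hb : eLpNorm (Tn m g') (ENNReal.ofReal p) (volume : Measure ℂ) ≤
      ENNReal.ofReal ((1 + Real.sqrt ((n : ℝ) * m)) ^ (1 - 2 / p)) *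
        eLpNorm (⇑g') (ENNReal.ofReal p) (volume : Measure ℂ) := by
    rcases Nat.eq_zero_or_pos m with h0 | h0
    · subst h0
      have e1 : Tn 0 g' = ⇑g' := funext fun z => T0 g' z
      rw [e1]
      simp
    · have h1 := hN n m p hmn h0 hp g' (fun a z ha => by
        rw [hg', hg', map_mul, mul_pow, ← mul_assoc, ← mul_assoc, ← mul_pow]
        have h2 : a * (starRingEnd ℂ) a = 1 := by
          rw [Complex.mul_conj, Complex.normSq_eq_norm_sq, ha]
          norm_num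
        have h3 : Complex.normSq (a * z) = Complex.normSq z := by
          rw [map_mul, Complex.normSq_eq_norm_sq a, ha]
          ring
        rw [h2, h3, one_pow, one_mul])
      have e2 : (m : ℝ) * n = (n : ℝ) * m := mul_comm _ _
      rw [e2] at h1
      exact h1
  refine (split n hn p hp f g).trans (add_le_add (by gcongr) ?_)
  rw [hT']
  refine hb.trans ?_
  gcongr
  refine hnn.trans ((eLpNorm_mono hle).trans le_self_add)

end Pool.Agent.R223.RD.Asm
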