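import Pool.Agent.R223.RD.Stm2
import Pool.Agent.R223.RD.Asm

/-! # Project RD, part 2: assembly (helper223) -/

set_option autoImplicit false

open MeasureTheory Set Filter Topology
open scoped SchwartzMap ENNReal

namespace Pool.Agent.R223.RD.Asm2

open Pool.Agent.Y282.RB (Tn)
open Pool.Agent.R223.RD.Asm

/-- conclusion of `S_PV` -/
def PVC : Prop := ∀ (ι : Type) [Fintype ι] (m n : ι → ℕ) (N p : ℝ)
  (V : ι → ℝ → ℂ), (∀ i, n i ≤ m i) → 0 ≤ N → (∀ i, (n i : ℝ) * m i ≤ N ^ 2) → 2 ≤ p →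
  (∀ i, Cc (V i)) →
  ∃ F : ι → 𝓢(ℂ, ℂ),
    (∀ i z, F i z = (z⁻¹) ^ (m i - n i) * iteratedDeriv (n i) (V i) (Complex.normSq z)) ∧
    eLpNorm (fun z : ℂ => Real.sqrt (∑ i, ‖Tn (n i) (F i) z‖ ^ 2)) (ENNReal.ofReal p)
        (volume : Measure ℂ)
      ≤ ENNReal.ofReal ((1 + N) ^ (1 - 2 / p)) *
        eLpNorm (fun z : ℂ => Real.sqrt (∑ i, ‖F i z‖ ^ 2)) (ENNReal.ofReal p)
          (volume : Measure ℂ)

lemma sq_add {ι : Type} [Fintype ι] (a b : ι → ℝ) (ha : ∀ i, 0 ≤ a i) (hb : ∀ i, 0 ≤ b i) :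
    Real.sqrt (∑ i, (a i + b i) ^ 2) ≤ Real.sqrt (∑ i, a i ^ 2) + ∑ i, b i := by
  have hA : 0 ≤ ∑ i, a i ^ 2 := Finset.sum_nonneg fun i _ => sq_nonneg _
  have hB : 0 ≤ ∑ i, b i := Finset.sum_nonneg fun i _ => hb i
  have h0 : 0 ≤ Real.sqrt (∑ i, a i ^ 2) + ∑ i, b i := by positivity
  rw [Real.sqrt_le_left h0]
  have h1 : ∀ i, a i ≤ Real.sqrt (∑ i, a i ^ 2) := fun i => by
    refine Real.le_sqrt_of_sq_le ?_
    exact Finset.single_le_sum (f := fun i => a i ^ 2) (fun j _ => sq_nonneg _) (Finset.mem_univ i)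
  have h2 : ∑ i, a i * b i ≤ Real.sqrt (∑ i, a i ^ 2) * ∑ i, b i := by
    rw [Finset.mul_sum]
    exact Finset.sum_le_sum fun i _ => mul_le_mul_of_nonneg_right (h1 i) (hb i)
  have h3 : ∑ i, b i ^ 2 ≤ (∑ i, b i) ^ 2 :=
    Finset.sum_sq_le_sq_sum_of_nonneg fun i _ => hb i
  have h4 : ∑ i, (a i + b i) ^ 2 = ∑ i, a i ^ 2 + 2 * ∑ i, a i * b i + ∑ i, b i ^ 2 := by
    rw [Finset.mul_sum, ← Finset.sum_add_distrib, ← Finset.sum_add_distrib]
    exact Finset.sum_congr rfl fun i _ => by ring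
  rw [h4, add_sq, Real.sq_sqrt hA]
  nlinarith

/-- splitting a square function -/
lemma sq_split {ι : Type} [Fintype ι] (p : ℝ) (hp : 2 ≤ p) (u v w : ι → ℂ → ℂ)
    (hu : ∀ i, Continuous (u i)) (hv : ∀ i, Continuous (v i)) (hw : ∀ i, Continuous (w i))
    (h : ∀ i z, ‖u i z‖ ≤ ‖v i z‖ + ‖w i z‖) :
    eLpNorm (fun z : ℂ => Real.sqrt (∑ i, ‖u i z‖ ^ 2)) (ENNReal.ofReal p) (volume : Measure ℂ) ≤
      eLpNorm (fun z : ℂ => Real.sqrt (∑ i, ‖v i z‖ ^ 2)) (ENNReal.ofReal p) (volume : Measure ℂ) +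
      ∑ i, eLpNorm (w i) (ENNReal.ofReal p) (volume : Measure ℂ) := by
  have hP1 : (1 : ℝ≥0∞) ≤ ENNReal.ofReal p := by
    rw [← ENNReal.ofReal_one]
    exact ENNReal.ofReal_le_ofReal (by linarith)
  have c1 : Continuous (fun z : ℂ => Real.sqrt (∑ i, ‖v i z‖ ^ 2)) :=
    Real.continuous_sqrt.comp (continuous_finset_sum _ fun i _ => ((hv i).norm.pow 2))
  have c2 : Continuous (fun z : ℂ => ∑ i, ‖w i z‖) :=
    continuous_finset_sum _ fun i _ => (hw i).norm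
  calc eLpNorm (fun z : ℂ => Real.sqrt (∑ i, ‖u i z‖ ^ 2)) (ENNReal.ofReal p) (volume : Measure ℂ)
      ≤ eLpNorm ((fun z : ℂ => Real.sqrt (∑ i, ‖v i z‖ ^ 2)) + fun z : ℂ => ∑ i, ‖w i z‖)
          (ENNReal.ofReal p) (volume : Measure ℂ) := by
        refine eLpNorm_mono fun z => ?_
        rw [Pi.add_apply, Real.norm_of_nonneg (Real.sqrt_nonneg _), Real.norm_of_nonneg (by positivity)]
        refine le_trans (Real.sqrt_le_sqrt ?_) (sq_add (fun i => ‖v i z‖) (fun i => ‖w i z‖)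
          (fun i => norm_nonneg _) (fun i => norm_nonneg _))
        exact Finset.sum_le_sum fun i _ => pow_le_pow_left₀ (norm_nonneg _) (h i z) 2
    _ ≤ eLpNorm (fun z : ℂ => Real.sqrt (∑ i, ‖v i z‖ ^ 2)) (ENNReal.ofReal p) (volume : Measure ℂ)
        + eLpNorm (fun z : ℂ => ∑ i, ‖w i z‖) (ENNReal.ofReal p) (volume : Measure ℂ) :=
        eLpNorm_add_le c1.aestronglyMeasurable c2.aestronglyMeasurable hP1
    _ ≤ _ := by
        refine add_le_add le_rfl ?_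
        have e : (fun z : ℂ => ∑ i, ‖w i z‖) = ∑ i, fun z : ℂ => ‖w i z‖ := by
          funext z
          simp
        rw [e]
        refine (eLpNorm_sum_le (fun i _ => (hw i).norm.aestronglyMeasurable) hP1).trans ?_
        exact Finset.sum_le_sum fun i _ => by rw [eLpNorm_norm]

/-- the norm of `T^n` -/
noncomputable def KK (n : ℕ) (p : ℝ) : ℝ≥0∞ :=
  ENNReal.ofReal (Pool.Agent.TH55.PowA.Cn n * (p - 1)) + 1

lemma KK_ne (n : ℕ) (p : ℝ) : KK n p ≠ ⊤ := by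
  unfold KK
  exact ENNReal.add_ne_top.2 ⟨ENNReal.ofReal_ne_top, ENNReal.one_ne_top⟩

lemma T_le (n : ℕ) (p : ℝ) (hp : 2 ≤ p) (f : 𝓢(ℂ, ℂ)) :
    eLpNorm (Tn n f) (ENNReal.ofReal p) (volume : Measure ℂ) ≤
      KK n p * eLpNorm (⇑f) (ENNReal.ofReal p) (volume : Measure ℂ) := by
  unfold KK
  rcases Nat.eq_zero_or_pos n with h0 | h0
  · subst h0
    have e1 : Tn 0 f = ⇑f := funext fun z => T0 f z
    rw [e1, add_mul, one_mul]
    exact le_add_self
  · rw [add_mul]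
    refine le_trans ?_ le_self_add
    rw [Pool.Agent.Y282.RB.K.Tn_eq]
    exact Pool.Agent.TH55.PowA.main p hp n h0 f

lemma T_cont (n : ℕ) (f : 𝓢(ℂ, ℂ)) : Continuous (Tn n f) := by
  rw [Pool.Agent.Y282.RB.K.Tn_eq]
  exact Pool.Agent.TH55.PowA.T_cont (Pool.Agent.Y282.RB.K.adm_sy n) _

lemma T_sub (n : ℕ) (f g : 𝓢(ℂ, ℂ)) (z : ℂ) :
    Tn n f z = Tn n g z + Tn n (f - g : 𝓢(ℂ, ℂ)) z := by
  have h := congrFun (Pool.Agent.Y282.RB.K.Tn_add n g (f - g)) z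
  have e : ((g + (f - g) : 𝓢(ℂ, ℂ)) : ℂ → ℂ) = f := by
    rw [add_sub_cancel]
  rw [e] at h
  exact h

/-- the limit `δ → 0` -/
lemma lim_le' (A B C C' D : ℝ≥0∞) (hC : C ≠ ⊤) (hC' : C' ≠ ⊤) (hD : D ≠ ⊤)
    (h : ∀ δ : ℝ, 0 < δ → A ≤ C * ENNReal.ofReal δ + D * (B + C' * ENNReal.ofReal δ)) :
    A ≤ D * B := by
  have h1 : Tendsto (fun k : ℕ => ENNReal.ofReal (1 / ((k : ℝ) + 1))) atTop (𝓝 0) := by
    have := (tendsto_one_div_add_atTop_nhds_zero_nat (𝕜 := ℝ))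
    have h2 := (ENNReal.continuous_ofReal.tendsto 0).comp this
    rw [ENNReal.ofReal_zero] at h2
    exact h2
  have h3 : Tendsto (fun k : ℕ => C * ENNReal.ofReal (1 / ((k : ℝ) + 1)) +
      D * (B + C' * ENNReal.ofReal (1 / ((k : ℝ) + 1)))) atTop (𝓝 (C * 0 + D * (B + C' * 0))) := by
    refine Tendsto.add (ENNReal.Tendsto.const_mul h1 (Or.inr hC)) ?_
    exact ENNReal.Tendsto.const_mul
      (tendsto_const_nhds.add (ENNReal.Tendsto.const_mul h1 (Or.inr hC'))) (Or.inr hD)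
  rw [mul_zero, zero_add, mul_zero, add_zero] at h3
  exact ge_of_tendsto' h3 fun k => h _ (by positivity)

theorem sqNeg (hP : PVC) (hAP : S_AP) (hTR : S_TR) : SqNeg := by
  intro ι _ m n N p f hnm hN hmn hp hf
  have hone : ∀ δ : ℝ, 0 < δ → ∀ i, ∃ V : ℝ → ℂ, Cc V ∧ ∀ F : 𝓢(ℂ, ℂ),
      (∀ z, F z = (z⁻¹) ^ (m i - n i) * iteratedDeriv (n i) V (Complex.normSq z)) →
      eLpNorm (f i - F : 𝓢(ℂ, ℂ)) (ENNReal.ofReal p) (volume : Measure ℂ)
        ≤ 2 * ENNReal.ofReal δ := by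
    intro δ hδ i
    have hP1 : (1 : ℝ≥0∞) ≤ ENNReal.ofReal p := by
      rw [← ENNReal.ofReal_one]
      exact ENNReal.ofReal_le_ofReal (by linarith)
    obtain ⟨w, g, hw, hg, hle, hfg⟩ := hTR (m i - n i) (f i) (hf i) p hp δ hδ
    obtain ⟨V, hV, hV1, hV2⟩ := hAP p hp (n i) w hw δ hδ
    refine ⟨V, hV, fun F hF => ?_⟩
    have hgF : eLpNorm (g - F : 𝓢(ℂ, ℂ)) (ENNReal.ofReal p) (volume : Measure ℂ)
        ≤ ENNReal.ofReal δ := by
      refine (eLpNorm_mono fun z => ?_).trans hV2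
      show ‖g z - F z‖ ≤ _
      rw [hg, hF, ← mul_sub, norm_mul]
      rcases lt_or_ge (Complex.normSq z) 1 with h1 | h1
      · rw [hV1 _ h1]
        simp
      · have hz : 1 ≤ ‖z‖ := by
          rw [Complex.normSq_eq_norm_sq] at h1
          nlinarith [norm_nonneg z]
        have h2 : ‖(z⁻¹) ^ (m i - n i)‖ ≤ 1 := by
          rw [norm_pow, norm_inv]
          exact pow_le_one₀ (by positivity) (inv_le_one_of_one_le₀ hz)
        exact mul_le_of_le_one_left (norm_nonneg _) h2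
    have e1 : (⇑(f i - F : 𝓢(ℂ, ℂ)) : ℂ → ℂ) = ⇑(f i - g : 𝓢(ℂ, ℂ)) + ⇑(g - F : 𝓢(ℂ, ℂ)) := by
      funext z
      show f i z - F z = (f i z - g z) + (g z - F z)
      ring
    rw [e1, two_mul]
    exact (eLpNorm_add_le (f i - g).continuous.aestronglyMeasurable
      (g - F).continuous.aestronglyMeasurable hP1).trans (add_le_add hfg hgF)
  refine lim_le' _ _ (∑ i, KK (n i) p * 2) (∑ _i : ι, 2) _
    (ENNReal.sum_ne_top.2 fun i _ => ENNReal.mul_ne_top (KK_ne _ _) (by norm_num))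
    (ENNReal.sum_ne_top.2 fun i _ => by norm_num) ENNReal.ofReal_ne_top fun δ hδ => ?_
  choose V hV hVF using hone δ hδ
  obtain ⟨F, hF, hFle⟩ := hP ι m n N p V hnm hN hmn hp hV
  have hd : ∀ i, eLpNorm (f i - F i : 𝓢(ℂ, ℂ)) (ENNReal.ofReal p) (volume : Measure ℂ)
        ≤ 2 * ENNReal.ofReal δ := fun i => hVF i (F i) (hF i)
  have hd' : ∀ i, eLpNorm (F i - f i : 𝓢(ℂ, ℂ)) (ENNReal.ofReal p) (volume : Measure ℂ)
        ≤ 2 * ENNReal.ofReal δ := fun i => by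
    refine (le_of_eq ?_).trans (hd i)
    have e : (⇑(F i - f i : 𝓢(ℂ, ℂ)) : ℂ → ℂ) = -⇑(f i - F i : 𝓢(ℂ, ℂ)) := by
      funext z
      show F i z - f i z = -(f i z - F i z)
      ring
    rw [e]
    exact eLpNorm_neg _ _ _
  have s1 := sq_split p hp (fun i => Tn (n i) (f i)) (fun i => Tn (n i) (F i))
    (fun i => Tn (n i) (f i - F i : 𝓢(ℂ, ℂ))) (fun i => T_cont _ _) (fun i => T_cont _ _)
    (fun i => T_cont _ _) (fun i z => by
      rw [T_sub (n i) (f i) (F i) z]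
      exact norm_add_le _ _)
  have s2 := sq_split p hp (fun i => ⇑(F i)) (fun i => ⇑(f i))
    (fun i => ⇑(F i - f i : 𝓢(ℂ, ℂ))) (fun i => (F i).continuous) (fun i => (f i).continuous)
    (fun i => (F i - f i).continuous) (fun i z => by
      have e : F i z = f i z + (F i - f i : 𝓢(ℂ, ℂ)) z := by
        show F i z = f i z + (F i z - f i z)
        ring
      rw [e]
      exact norm_add_le _ _)
  refine s1.trans ?_
  rw [add_comm]
  refine add_le_add ?_ ?_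
  · rw [Finset.sum_mul]
    refine Finset.sum_le_sum fun i _ => ?_
    rw [mul_assoc]
    exact (T_le (n i) p hp _).trans (by gcongr; exact hd i)
  · refine hFle.trans ?_
    gcongr
    refine s2.trans (add_le_add le_rfl ?_)
    rw [Finset.sum_mul]
    exact Finset.sum_le_sum fun i _ => hd' i

theorem sqAll (hN' : SqNeg) (hTR : S_TR2) (hSG : S_SG) : SqAll := by
  intro ι _ n k N p f hk hN hkN hp hf
  have hone : ∀ δ : ℝ, 0 < δ → ∀ i, ∃ (m' n' : ℕ) (g g' : 𝓢(ℂ, ℂ)), n' ≤ m' ∧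
      (n' : ℝ) * m' ≤ N ^ 2 ∧ (∀ z, Tn n g z = Tn n' g' z) ∧ (∀ z, ‖g' z‖ = ‖g z‖) ∧
      (∀ z, ‖g z‖ ≤ ‖f i z‖) ∧ (∀ a z : ℂ, ‖a‖ = 1 → a ^ (m' - n') * g' (a * z) = g' z) ∧
      eLpNorm (f i - g : 𝓢(ℂ, ℂ)) (ENNReal.ofReal p) (volume : Measure ℂ)
        ≤ ENNReal.ofReal δ := by
    intro δ hδ i
    obtain ⟨m, hm⟩ : ∃ m : ℕ, (m : ℤ) = n - k i := ⟨(n - k i).toNat, by have := hk i; omega⟩
    have hmr : (m : ℝ) = (n : ℝ) - (k i : ℝ) := by
      have : ((m : ℤ) : ℝ) = ((n - k i : ℤ) : ℝ) := by rw [hm]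
      push_cast at this
      exact this
    rcases le_total n m with h | h
    · refine ⟨m, n, f i, f i, h, ?_, fun z => rfl, fun z => rfl, fun z => le_rfl, fun a z ha => ?_, ?_⟩
      · rw [hmr]
        exact hkN i
      · have ha0 : a ≠ 0 := by
          intro h0
          rw [h0, norm_zero] at ha
          exact zero_ne_one ha
        have e : k i = -((m - n : ℕ) : ℤ) := by omega
        rw [hf i a z ha, e, zpow_neg, zpow_natCast, ← mul_assoc,
          mul_inv_cancel₀ (pow_ne_zero _ ha0), one_mul]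
      · have e : (⇑(f i - f i : 𝓢(ℂ, ℂ)) : ℂ → ℂ) = 0 := by
          funext z
          show f i z - f i z = 0
          ring
        rw [e, eLpNorm_zero]
        exact bot_le
    · have e : k i = ((n - m : ℕ) : ℤ) := by omega
      obtain ⟨w, g, hw, hg, hle, hfg⟩ := hTR (n - m) (f i) (fun a z ha => by
        rw [hf i a z ha, e, zpow_natCast]) p hp δ hδ
      obtain ⟨g', hg', hT⟩ := hSG (n - m) m w g hw hg
      refine ⟨n, m, g, g', h, ?_, fun z => ?_, fun z => ?_, hle, fun a z ha => ?_, hfg⟩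
      · rw [hmr, mul_comm]
        exact hkN i
      · rw [← hT z, Nat.sub_add_cancel h]
      · rw [hg', hg, norm_mul, norm_mul, norm_pow, norm_pow, RCLike.norm_conj]
      · rw [hg', hg', map_mul, mul_pow, ← mul_assoc, ← mul_assoc, ← mul_pow]
        have h2 : a * (starRingEnd ℂ) a = 1 := by
          rw [Complex.mul_conj, Complex.normSq_eq_norm_sq, ha]
          norm_num
        have h3 : Complex.normSq (a * z) = Complex.normSq z := by
          rw [map_mul, Complex.normSq_eq_norm_sq a, ha]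
          ring
        rw [h2, h3, one_pow, one_mul]
  refine lim_le' _ _ (∑ _i : ι, KK n p) 0 _
    (ENNReal.sum_ne_top.2 fun i _ => KK_ne _ _) (by norm_num) ENNReal.ofReal_ne_top fun δ hδ => ?_
  choose m' n' g g' h1 h2 h3 h4 h5 h6 h7 using hone δ hδ
  have s1 := sq_split p hp (fun i => Tn n (f i)) (fun i => Tn n (g i))
    (fun i => Tn n (f i - g i : 𝓢(ℂ, ℂ))) (fun i => T_cont _ _) (fun i => T_cont _ _)
    (fun i => T_cont _ _) (fun i z => by
      rw [T_sub n (f i) (g i) z]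
      exact norm_add_le _ _)
  refine s1.trans ?_
  rw [add_comm]
  refine add_le_add ?_ ?_
  · rw [Finset.sum_mul]
    exact Finset.sum_le_sum fun i _ => (T_le n p hp _).trans (by gcongr; exact h7 i)
  · have e1 : (fun z : ℂ => Real.sqrt (∑ i, ‖Tn n (g i) z‖ ^ 2)) =
        fun z : ℂ => Real.sqrt (∑ i, ‖Tn (n' i) (g' i) z‖ ^ 2) := by
      funext z
      simp only [h3]
    rw [e1, zero_mul, add_zero]
    refine (hN' ι m' n' N p g' h1 hN h2 hp h6).trans ?_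
    gcongr
    refine eLpNorm_mono fun z => ?_
    rw [Real.norm_of_nonneg (Real.sqrt_nonneg _), Real.norm_of_nonneg (Real.sqrt_nonneg _)]
    refine Real.sqrt_le_sqrt (Finset.sum_le_sum fun i _ => ?_)
    rw [h4]
    exact pow_le_pow_left₀ (norm_nonneg _) (h5 i z) 2

lemma Tn_sum (n : ℕ) {ι : Type} (s : Finset ι) (f : ι → 𝓢(ℂ, ℂ)) :
    Tn n (fun z => ∑ i ∈ s, f i z) = fun z => ∑ i ∈ s, Tn n (f i) z := by
  classical
  induction s using Finset.induction_on with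
  | empty =>
    funext z
    simp [Tn]
  | insert a s ha ih =>
    have e1 : (fun z => ∑ i ∈ insert a s, f i z) =
        ((f a + ∑ i ∈ s, f i : 𝓢(ℂ, ℂ)) : ℂ → ℂ) := by
      funext z
      rw [Finset.sum_insert ha]
      simp
    have e2 : (fun z => ∑ i ∈ s, f i z) = ((∑ i ∈ s, f i : 𝓢(ℂ, ℂ)) : ℂ → ℂ) := by
      funext z
      simp
    rw [e2] at ih
    rw [e1, Pool.Agent.Y282.RB.K.Tn_add, ih]
    funext z
    rw [Finset.sum_insert ha]

theorem mixT (hA : SqAll) (hMX : S_MX) (hTY : S_TY) : MixT := by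
  intro n l p f hn hl hp hf
  set ι : Type := ↥(Finset.Icc l (n : ℤ)) with hι
  have e0 : (fun z => ∑ k ∈ Finset.Icc l (n : ℤ), f k z) = fun z => ∑ i : ι, f i.1 z := by
    funext z
    exact (Finset.sum_coe_sort (Finset.Icc l (n : ℤ)) (fun k => f k z)).symm
  have e1 : Tn n (fun z => ∑ k ∈ Finset.Icc l (n : ℤ), f k z) =
      fun z => ∑ i : ι, Tn n (f i.1) z := by
    rw [Tn_sum]
    funext z
    exact (Finset.sum_coe_sort (Finset.Icc l (n : ℤ)) (fun k => Tn n (f k) z)).symm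
  have m1 := hMX ι (fun i => i.1) p (fun i => ⇑(f i.1)) (fun a b h => Subtype.ext h) hp
    (fun i => (f i.1).continuous) (fun i => hf i.1)
  have m2 := hMX ι (fun i => i.1 - 2 * n) p (fun i => Tn n (f i.1))
    (fun a b h => Subtype.ext (by simpa using h)) hp
    (fun i => T_cont _ _) (fun i => hTY n i.1 (f i.1) (hf i.1))
  rw [e1, e0, m1, m2]
  have hN0 : 0 ≤ (n : ℝ) * ((n : ℝ) - (l : ℝ)) := by
    have : (l : ℝ) ≤ (n : ℝ) := by exact_mod_cast hl
    exact mul_nonneg (Nat.cast_nonneg n) (by linarith)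
  have h := hA ι n (fun i => i.1) (Real.sqrt ((n : ℝ) * ((n : ℝ) - (l : ℝ)))) p
    (fun i => f i.1) (fun i => (Finset.mem_Icc.1 i.2).2) (Real.sqrt_nonneg _) (fun i => by
      rw [Real.sq_sqrt hN0]
      have : (l : ℝ) ≤ (i.1 : ℝ) := by exact_mod_cast (Finset.mem_Icc.1 i.2).1
      exact mul_le_mul_of_nonneg_left (by linarith) (Nat.cast_nonneg n)) hp (fun i => hf i.1)
  calc _ ≤ ENNReal.ofReal ((2 * Real.pi) ^ (1 / 2 - 1 / p)) *
        (ENNReal.ofReal ((1 + Real.sqrt ((n : ℝ) * ((n : ℝ) - (l : ℝ)))) ^ (1 - 2 / p)) * _) := by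
        gcongr
    _ = _ := by ring

end Pool.Agent.R223.RD.Asm2
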