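import Pool.Agent.R223.RD.Stm

/-!
# RD-CH (helper139): the algebraic chain of first order operators
-/

set_option autoImplicit false

open MeasureTheory Set Filter Topology

namespace Pool.Agent.R223.RD.CH

open Pool.Agent.Y282.RB.A2 (HH HH_smooth)

theorem HH_zero (N : ℕ) (h : ℝ → ℂ) : HH N h 0 = h := rfl

theorem HH_succ (N : ℕ) (h : ℝ → ℂ) (r : ℕ) (t : ℝ) :
    HH N h (r + 1) t = ((N - r : ℕ) : ℂ) * HH N h r t + (t : ℂ) * deriv (HH N h r) t := rfl

theorem hs : S_HS := by
  intro N r h hh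
  induction r with
  | zero => intro _; rfl
  | succ r ih =>
    intro hr
    have ih' := ih (by omega)
    have hs1 : ContDiff ℝ (⊤ : ℕ∞) (HH N h r) := HH_smooth N hh r
    have hs2 : ContDiff ℝ (⊤ : ℕ∞) (deriv (HH N h r)) := (contDiff_infty_iff_deriv.1 hs1).2
    funext t
    rw [HH_succ, ih']
    have h1 : HasDerivAt (HH N h r) (deriv (HH N h r) t) t :=
      (hs1.differentiable (by norm_num) t).hasDerivAt
    have h2 : HasDerivAt (deriv (HH N h r)) (deriv (deriv (HH N h r)) t) t :=
      (hs2.differentiable (by norm_num) t).hasDerivAt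
    have h3 : HasDerivAt (fun t : ℝ => (t : ℂ)) 1 t := Complex.ofRealCLM.hasDerivAt
    have h4 : HasDerivAt (fun t : ℝ => ((N - r : ℕ) : ℂ) * HH N h r t +
        (t : ℂ) * deriv (HH N h r) t)
        (((N - r : ℕ) : ℂ) * deriv (HH N h r) t +
          (1 * deriv (HH N h r) t + (t : ℂ) * deriv (deriv (HH N h r)) t)) t :=
      (h1.const_mul _).add (h3.mul h2)
    have h5 : deriv (HH N h (r + 1)) t = _ := h4.deriv
    rw [h5]
    have e : ((N + 1 - r : ℕ) : ℂ) = ((N - r : ℕ) : ℂ) + 1 := by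
      have : N + 1 - r = (N - r) + 1 := by omega
      rw [this]
      push_cast
      ring
    rw [e]
    ring

theorem deriv_zero {F : ℝ → ℂ} {R : ℝ} (hF : ∀ x, R < x → F x = 0) :
    ∀ x, R < x → deriv F x = 0 := by
  intro x hx
  have h : F =ᶠ[𝓝 x] fun _ => (0 : ℂ) := by
    filter_upwards [Ioi_mem_nhds hx] with y hy using hF y hy
  rw [h.deriv_eq]
  simp

theorem iter_zero {F : ℝ → ℂ} {R : ℝ} (hF : ∀ x, R < x → F x = 0) (i : ℕ) :
    ∀ x, R < x → iteratedDeriv i F x = 0 := by
  induction i with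
  | zero => simpa using hF
  | succ i ih =>
    intro x hx
    rw [iteratedDeriv_succ]
    exact deriv_zero ih x hx

theorem HH_zero_of {F : ℝ → ℂ} {R : ℝ} (hF : ∀ x, R < x → F x = 0) (N r : ℕ) :
    ∀ x, R < x → HH N F r x = 0 := by
  induction r with
  | zero => simpa [HH_zero] using hF
  | succ r ih =>
    intro x hx
    rw [HH_succ, ih x hx, deriv_zero ih x hx]
    simp

theorem iter_smooth {h : ℝ → ℂ} (hh : ContDiff ℝ (⊤ : ℕ∞) h) (i : ℕ) :
    ContDiff ℝ (⊤ : ℕ∞) (iteratedDeriv i h) := by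
  induction i with
  | zero => simpa using hh
  | succ i ih =>
    rw [iteratedDeriv_succ]
    exact (contDiff_infty_iff_deriv.1 ih).2

theorem main : S_CH := by
  intro m n h hnm hh ⟨R, hR⟩
  refine ⟨fun i => HH (m + i) (iteratedDeriv i h) (n - 1 - i),
    fun i => HH (m + i) (iteratedDeriv i h) (n - i), max R 0 + 1, ?_, ?_, ?_, ?_, ?_, ?_, ?_,
    ?_, ?_⟩
  · have := le_max_right R 0
    linarith
  · intro i
    exact HH_smooth _ (iter_smooth hh i) _
  · intro i
    exact HH_smooth _ (iter_smooth hh i) _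
  · intro i x hx
    refine HH_zero_of (R := R) (iter_zero (fun y hy => hR y hy.le) i) _ _ x ?_
    have := le_max_left R 0
    linarith
  · intro i x hx
    refine HH_zero_of (R := R) (iter_zero (fun y hy => hR y hy.le) i) _ _ x ?_
    have := le_max_left R 0
    linarith
  · simp
  · simp [HH_zero]
  · intro i hi x
    have e : n - i = (n - 1 - i) + 1 := by omega
    have e2 : (((m + i) - (n - 1 - i) : ℕ) : ℂ) = (m : ℂ) - n + 1 + 2 * i := by
      have h1 : (m + i) - (n - 1 - i) + n = m + 1 + 2 * i := by omega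
      have h2 : ((((m + i) - (n - 1 - i) + n : ℕ)) : ℂ) = ((m + 1 + 2 * i : ℕ) : ℂ) := by
        rw [h1]
      push_cast at h2
      linear_combination h2
    simp only
    rw [e, HH_succ, e2]
  · intro i hi x
    have h1 := hs (m + i) (n - 1 - i) (iteratedDeriv i h) (iter_smooth hh i) (by omega)
    have e : n - (i + 1) = n - 1 - i := by omega
    simp only
    rw [e, iteratedDeriv_succ, ← h1]
    rfl

end Pool.Agent.R223.RD.CH
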