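import Pool.Agent.R223.RD.Stm

set_option autoImplicit false

/-!
# S_CN: comparison of the constant `(1 + sqrt (n m)) ^ (1 - 2/p)` with `(1 - 1/p)_n / (1/p)_n`
-/

namespace Pool.Agent.R223.RD.CN

open Pool.Agent.Y282.RB Finset

theorem exp_le_ratio {y : ℝ} (h0 : 0 ≤ y) (h1 : y < 1) :
    Real.exp (2 * y) ≤ (1 + y) / (1 - y) := by
  have hs := Real.hasSum_log_sub_log_of_abs_lt_one (x := y) (by rw [abs_of_nonneg h0]; exact h1)
  have h2 : 2 * y ≤ Real.log (1 + y) - Real.log (1 - y) := by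
    have := sum_le_hasSum {0} (fun i _ => by positivity) hs
    simpa using this
  have h3 : 0 < 1 - y := by linarith
  have h4 : 0 < 1 + y := by linarith
  rw [← Real.log_div h4.ne' h3.ne'] at h2
  rw [← Real.exp_log (div_pos h4 h3)]
  exact Real.exp_le_exp.2 h2

theorem sum_bound (n : ℕ) (hn : 1 ≤ n) :
    Real.exp 2 * (2 * n + 1) / 3 ≤ Real.exp (∑ j ∈ range n, 2 / (2 * (j : ℝ) + 1)) := by
  induction n, hn using Nat.le_induction with
  | base => simp; norm_num
  | succ n hn ih =>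
    rw [sum_range_succ, Real.exp_add]
    have h1 := Real.add_one_le_exp (2 / (2 * (n : ℝ) + 1))
    have h2 : (2 / (2 * (n : ℝ) + 1)) + 1 = (2 * n + 3) / (2 * n + 1) := by field_simp; ring
    rw [h2] at h1
    have h3 : 0 < Real.exp 2 := Real.exp_pos _
    calc Real.exp 2 * (2 * ((n + 1 : ℕ) : ℝ) + 1) / 3
        = (Real.exp 2 * (2 * n + 1) / 3) * ((2 * n + 3) / (2 * n + 1)) := by
          push_cast; field_simp; ring
      _ ≤ _ := mul_le_mul ih h1 (by positivity) (Real.exp_pos _).le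

theorem main : S_CN := by
  intro m n p hn hm hp
  have hp0 : 0 < p := by linarith
  set x : ℝ := 1 - 2 / p with hx
  have hx0 : 0 ≤ x := by
    rw [hx, sub_nonneg, div_le_one hp0]; exact hp
  have hx1 : x < 1 := by
    rw [hx]; have : 0 < 2 / p := by positivity
    linarith
  have h1p : 1 / p = (1 - x) / 2 := by rw [hx]; ring
  -- each factor
  have hfac : ∀ j ∈ range n, Real.exp (x * (2 / (2 * (j : ℝ) + 1))) ≤
      ((j : ℝ) + 1 - 1 / p) / ((j : ℝ) + 1 / p) := by
    intro j _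
    have hj : (0 : ℝ) ≤ j := Nat.cast_nonneg j
    have hy0 : 0 ≤ x / (2 * (j : ℝ) + 1) := by positivity
    have hy1 : x / (2 * (j : ℝ) + 1) < 1 := by
      rw [div_lt_one (by positivity)]; linarith
    have h := exp_le_ratio hy0 hy1
    have e1 : x * (2 / (2 * (j : ℝ) + 1)) = 2 * (x / (2 * (j : ℝ) + 1)) := by ring
    have e2 : ((j : ℝ) + 1 - 1 / p) / ((j : ℝ) + 1 / p) =
        (1 + x / (2 * (j : ℝ) + 1)) / (1 - x / (2 * (j : ℝ) + 1)) := by
      rw [h1p]
      have a1 : (2 * (j : ℝ) + 1) ≠ 0 := by positivity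
      have a2 : (j : ℝ) + (1 - x) / 2 ≠ 0 := by
        have : 0 < (j : ℝ) + (1 - x) / 2 := by linarith
        exact this.ne'
      have a3 : 1 - x / (2 * (j : ℝ) + 1) ≠ 0 := by
        have : 0 < 1 - x / (2 * (j : ℝ) + 1) := by linarith
        exact this.ne'
      rw [div_eq_div_iff a2 a3]
      field_simp
      ring
    rw [e1, e2]
    exact h
  have hprod : Real.exp (x * ∑ j ∈ range n, 2 / (2 * (j : ℝ) + 1)) ≤ Cn p n := by
    rw [mul_sum, Real.exp_sum]
    exact prod_le_prod (fun j _ => (Real.exp_pos _).le) hfac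
  refine le_trans ?_ hprod
  rw [mul_comm x, Real.exp_mul]
  apply Real.rpow_le_rpow (by positivity) _ hx0
  refine le_trans ?_ (sum_bound n hn)
  -- 1 + sqrt (n m) ≤ e^2 (2 n + 1) / 3
  have hn1 : (1 : ℝ) ≤ n := by exact_mod_cast hn
  have hm' : (m : ℝ) ≤ 23 * n := by exact_mod_cast hm
  have hsq : Real.sqrt ((n : ℝ) * m) ≤ 4.7959 * n := by
    rw [Real.sqrt_le_left (by positivity)]
    nlinarith
  have he : 7.388 ≤ Real.exp 2 := by
    have h1 := Real.exp_one_gt_d9
    have h2 : Real.exp 2 = Real.exp 1 * Real.exp 1 := by rw [← Real.exp_add]; norm_num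
    rw [h2]
    nlinarith
  nlinarith

end Pool.Agent.R223.RD.CN
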