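import Pool.Agent.R223.RD.Stm

set_option autoImplicit false

open MeasureTheory Set
open scoped SchwartzMap

namespace Pool.Agent.R223.RD.H1

open Pool.Agent.R223.RD
open Pool.Agent.Y282.RB.A2 (HH db dd)

lemma alg (c x : ℝ) (s t : ℂ) : ‖(c : ℂ) * s + x * t‖ ^ 2 - x ^ 2 * ‖t‖ ^ 2 =
    c * (c * ‖s‖ ^ 2 + x * (2 * inner ℝ s t)) := by
  rw [← Complex.normSq_eq_norm_sq, ← Complex.normSq_eq_norm_sq, ← Complex.normSq_eq_norm_sq,
    Complex.normSq_apply, Complex.normSq_apply, Complex.normSq_apply, Complex.inner]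
  simp
  ring

lemma sum_c (α : ℝ) (k : ℕ) : ∑ i ∈ Finset.range k, (α + 2 * (i : ℝ)) = k * α + k * (k - 1) := by
  induction k with
  | zero => simp
  | succ k ih => rw [Finset.sum_range_succ, ih]; push_cast; ring

/-- the coefficient `c i` -/
noncomputable def cc (m n i : ℕ) : ℝ := (m : ℝ) - n + 1 + 2 * i

lemma cc_pos {m n : ℕ} (h : n ≤ m) (i : ℕ) : 0 < cc m n i := by
  have h1 : (n : ℝ) ≤ m := by exact_mod_cast h
  have h2 : (0 : ℝ) ≤ i := Nat.cast_nonneg i
  unfold cc
  linarith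

lemma cc_sum {m n : ℕ} : ∑ i ∈ Finset.range n, cc m n i = n * m := by
  unfold cc
  rw [sum_c]
  ring

/-- `Λ` -/
noncomputable def Lam (m n : ℕ) (S : ℕ → ℝ → ℂ) (x : ℝ) : ℝ :=
  ∑ i ∈ Finset.range n, cc m n i * (x ^ (m - n + 2 * i) * ‖S i x‖ ^ 2)

lemma Lam_nonneg {m n : ℕ} (h : n ≤ m) (S : ℕ → ℝ → ℂ) {x : ℝ} (hx : 0 ≤ x) :
    0 ≤ Lam m n S x := by
  unfold Lam
  apply Finset.sum_nonneg
  intro i _
  have := cc_pos h i
  positivity

/-- the derivative of `Λ` -/
noncomputable def Lam' (m n : ℕ) (S : ℕ → ℝ → ℂ) (x : ℝ) : ℝ :=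
  ∑ i ∈ Finset.range n, cc m n i * (((m - n + 2 * i : ℕ) : ℝ) * x ^ (m - n + 2 * i - 1) *
    ‖S i x‖ ^ 2 + x ^ (m - n + 2 * i) * (2 * inner ℝ (S i x) (deriv (S i) x)))

lemma Lam_deriv (m n : ℕ) (S : ℕ → ℝ → ℂ) (hS : ∀ i, ContDiff ℝ (⊤ : ℕ∞) (S i)) (x : ℝ) :
    HasDerivAt (Lam m n S) (Lam' m n S x) x := by
  unfold Lam Lam'
  apply HasDerivAt.fun_sum
  intro i _
  apply HasDerivAt.const_mul
  have h1 : HasDerivAt (fun x : ℝ => x ^ (m - n + 2 * i))
      (((m - n + 2 * i : ℕ) : ℝ) * x ^ (m - n + 2 * i - 1)) x := hasDerivAt_pow _ x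
  have h2 : HasDerivAt (S i) (deriv (S i) x) x :=
    ((hS i).differentiable (by simp) x).hasDerivAt
  have h3 := h2.norm_sq
  exact h1.mul h3

lemma pow_aux (k : ℕ) (x : ℝ) : x * ((k : ℝ) * x ^ (k - 1)) = k * x ^ k := by
  rcases Nat.eq_zero_or_pos k with h | h
  · subst h; simp
  · have : x ^ k = x * x ^ (k - 1) := by rw [← pow_succ']; congr 1; omega
    rw [this]; ring

theorem main : S_H := by
  intro hPI hCH m n p hnm hp h hsm hvan
  obtain ⟨S, H, R, hR, hS, hHs, hS0, hH0, hH0e, hHne, hA, hB⟩ := hCH m n h hnm hsm hvan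
  have hmn : (n : ℝ) ≤ m := by exact_mod_cast hnm
  rw [← hH0e, ← hHne]
  set N : ℝ := Real.sqrt ((n : ℝ) * m) with hN
  have hN0 : 0 ≤ N := Real.sqrt_nonneg _
  have hcast : ((m - n : ℕ) : ℝ) = (m : ℝ) - n := by rw [Nat.cast_sub hnm]
  -- telescoping
  have hAc : ∀ i, i < n → ∀ x, H i x = ((cc m n i : ℝ) : ℂ) * S i x + x * deriv (S i) x := by
    intro i hi x
    rw [hA i hi x]
    unfold cc
    push_cast
    ring
  have htel : ∀ x : ℝ, Lam m n S x + x * Lam' m n S x =
      x ^ (m - n) * ‖H 0 x‖ ^ 2 - x ^ (m + n) * ‖H n x‖ ^ 2 := by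
    intro x
    have h1 : ∀ j, j ≤ n → ∑ i ∈ Finset.range j,
        (cc m n i * (x ^ (m - n + 2 * i) * ‖S i x‖ ^ 2) + x * (cc m n i *
          (((m - n + 2 * i : ℕ) : ℝ) * x ^ (m - n + 2 * i - 1) * ‖S i x‖ ^ 2 +
            x ^ (m - n + 2 * i) * (2 * inner ℝ (S i x) (deriv (S i) x))))) =
        x ^ (m - n) * ‖H 0 x‖ ^ 2 - x ^ (m - n + 2 * j) * ‖H j x‖ ^ 2 := by
      intro j
      induction j with
      | zero => intro _; simp
      | succ j ih =>
        intro hj
        rw [Finset.sum_range_succ, ih (by omega)]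
        have h2 := alg (cc m n j) x (S j x) (deriv (S j) x)
        rw [← hAc j (by omega) x] at h2
        rw [hB j (by omega) x]
        have h3 := pow_aux (m - n + 2 * j) x
        have h4 : (((m - n + 2 * j : ℕ) : ℝ)) = cc m n j - 1 := by
          push_cast; rw [hcast]; unfold cc; ring
        have h5 : x ^ (m - n + 2 * (j + 1)) = x ^ (m - n + 2 * j) * x ^ 2 := by
          rw [← pow_add]; ring_nf
        rw [h5]
        have h6 : x * (((m - n + 2 * j : ℕ) : ℝ) * x ^ (m - n + 2 * j - 1)) =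
            (cc m n j - 1) * x ^ (m - n + 2 * j) := by rw [h3, h4]
        linear_combination (cc m n j * ‖S j x‖ ^ 2) * h6 - x ^ (m - n + 2 * j) * h2
    have h2 := h1 n le_rfl
    have h3 : m - n + 2 * n = m + n := by omega
    rw [h3] at h2
    rw [← h2, Finset.sum_add_distrib, ← Finset.mul_sum]
    rfl
  -- the function G
  set G : ℝ → ℝ := fun x => x * Lam m n S x ^ (p / 2) with hG
  set g : ℝ → ℝ := fun x => p / 2 * Lam m n S x ^ (p / 2 - 1) *
    (x ^ (m - n) * ‖H 0 x‖ ^ 2 - x ^ (m + n) * ‖H n x‖ ^ 2) -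
    (p / 2 - 1) * Lam m n S x ^ (p / 2) with hg
  have hLc : Continuous (Lam m n S) := by
    have : ∀ x, ContinuousAt (Lam m n S) x := fun x => (Lam_deriv m n S hS x).continuousAt
    exact continuous_iff_continuousAt.mpr this
  have hHc : ∀ i, Continuous (H i) := fun i => (hHs i).continuous
  have hgc : Continuous g := by
    have c1 : Continuous (fun x => Lam m n S x ^ (p / 2 - 1)) :=
      (Real.continuous_rpow_const (by linarith)).comp hLc
    have c2 : Continuous (fun x => Lam m n S x ^ (p / 2)) :=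
      (Real.continuous_rpow_const (by linarith)).comp hLc
    have c3 := hHc 0
    have c4 := hHc n
    rw [hg]
    fun_prop
  have hGd : ∀ x : ℝ, 0 ≤ x → HasDerivAt G (g x) x := by
    intro x hx
    have h1 : HasDerivAt (fun y => Lam m n S y ^ (p / 2))
        (Lam' m n S x * (p / 2) * Lam m n S x ^ (p / 2 - 1)) x :=
      (Lam_deriv m n S hS x).rpow_const (Or.inr (by linarith))
    have h2 : HasDerivAt G (1 * Lam m n S x ^ (p / 2) +
        x * (Lam' m n S x * (p / 2) * Lam m n S x ^ (p / 2 - 1))) x :=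
      (hasDerivAt_id x).mul h1
    have hL0 := Lam_nonneg hnm S hx
    have h3 : Lam m n S x ^ (p / 2) = Lam m n S x ^ (p / 2 - 1) * Lam m n S x := by
      rcases hL0.eq_or_lt with h0 | hpos
      · rw [← h0, mul_zero, Real.zero_rpow (by linarith)]
      · rw [← Real.rpow_add_one hpos.ne']; congr 1; ring
    have h4 : 1 * Lam m n S x ^ (p / 2) +
        x * (Lam' m n S x * (p / 2) * Lam m n S x ^ (p / 2 - 1)) = g x := by
      rw [hg]
      simp only
      rw [← htel x, h3]
      ring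
    rw [h4] at h2
    exact h2
  -- pointwise inequality
  have hpt : ∀ x : ℝ, 0 < x → (x ^ (((m : ℝ) + n) / 2) * ‖H n x‖) ^ p ≤
      (1 + N) ^ (p - 2) * ((x ^ (((m : ℝ) - n) / 2) * ‖H 0 x‖) ^ p - g x) := by
    intro x hx
    set r : ℝ := x ^ (((m : ℝ) - n) / 2) with hr
    have hr0 : 0 < r := Real.rpow_pos_of_pos hx _
    have hr2 : r ^ 2 = x ^ (m - n) := by
      rw [hr, ← Real.rpow_natCast, ← Real.rpow_natCast, ← Real.rpow_mul hx.le, hcast]
      congr 1
      push_cast
      ring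
    have hb : x ^ (((m : ℝ) + n) / 2) = r * x ^ n := by
      rw [hr, ← Real.rpow_natCast x n, ← Real.rpow_add hx]
      congr 1
      ring
    have hL0 := Lam_nonneg hnm S hx.le
    have hchain : ∀ j, j ≤ n → (x : ℂ) ^ j * H j x =
        H 0 x - ∑ i ∈ Finset.range j, ((cc m n i : ℝ) : ℂ) * ((x : ℂ) ^ i * S i x) := by
      intro j
      induction j with
      | zero => intro _; simp
      | succ j ih =>
        intro hj
        have h1 := ih (by omega)
        rw [Finset.sum_range_succ, ← sub_sub, ← h1, hAc j (by omega) x, hB j (by omega) x, pow_succ]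
        ring
    have h1 := hchain n le_rfl
    have h2 : ‖(x : ℂ) ^ n * H n x‖ ≤ ‖H 0 x‖ +
        ∑ i ∈ Finset.range n, cc m n i * (x ^ i * ‖S i x‖) := by
      rw [h1]
      refine le_trans (norm_sub_le _ _) ?_
      gcongr
      refine le_trans (norm_sum_le _ _) (le_of_eq ?_)
      apply Finset.sum_congr rfl
      intro i _
      rw [norm_mul, norm_mul, norm_pow, Complex.norm_real, Complex.norm_real,
        Real.norm_of_nonneg (cc_pos hnm i).le, Real.norm_of_nonneg hx.le]
    have h3 : r * ∑ i ∈ Finset.range n, cc m n i * (x ^ i * ‖S i x‖) ≤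
        N * Real.sqrt (Lam m n S x) := by
      have h4 := Real.sum_mul_le_sqrt_mul_sqrt (Finset.range n) (fun i => Real.sqrt (cc m n i))
        (fun i => Real.sqrt (cc m n i) * (r * (x ^ i * ‖S i x‖)))
      have h5 : ∑ i ∈ Finset.range n, Real.sqrt (cc m n i) *
          (Real.sqrt (cc m n i) * (r * (x ^ i * ‖S i x‖))) =
          r * ∑ i ∈ Finset.range n, cc m n i * (x ^ i * ‖S i x‖) := by
        rw [Finset.mul_sum]
        apply Finset.sum_congr rfl
        intro i _
        have := Real.mul_self_sqrt (cc_pos hnm i).le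
        linear_combination (r * (x ^ i * ‖S i x‖)) * this
      have h6 : ∑ i ∈ Finset.range n, Real.sqrt (cc m n i) ^ 2 = n * m := by
        rw [← cc_sum]
        apply Finset.sum_congr rfl
        intro i _
        exact Real.sq_sqrt (cc_pos hnm i).le
      have h7 : ∑ i ∈ Finset.range n, (Real.sqrt (cc m n i) * (r * (x ^ i * ‖S i x‖))) ^ 2 =
          Lam m n S x := by
        unfold Lam
        apply Finset.sum_congr rfl
        intro i _
        rw [mul_pow, Real.sq_sqrt (cc_pos hnm i).le, mul_pow, mul_pow, hr2, pow_add, pow_mul' x 2 i]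
        ring
      rw [h5, h6, h7] at h4
      exact h4
    have hab : x ^ (((m : ℝ) + n) / 2) * ‖H n x‖ ≤ r * ‖H 0 x‖ + N * Real.sqrt (Lam m n S x) := by
      have h8 : ‖(x : ℂ) ^ n * H n x‖ = x ^ n * ‖H n x‖ := by
        rw [norm_mul, norm_pow, Complex.norm_real, Real.norm_of_nonneg hx.le]
      rw [h8] at h2
      rw [hb, mul_assoc]
      have h9 := mul_le_mul_of_nonneg_left h2 hr0.le
      rw [mul_add] at h9
      linarith
    have hfin := hPI p N (r * ‖H 0 x‖) (x ^ (((m : ℝ) + n) / 2) * ‖H n x‖)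
      (Real.sqrt (Lam m n S x)) hp hN0 (by positivity) (by positivity) (Real.sqrt_nonneg _) hab
    have e1 : Real.sqrt (Lam m n S x) ^ (p - 2) = Lam m n S x ^ (p / 2 - 1) := by
      rw [Real.sqrt_eq_rpow, ← Real.rpow_mul hL0]; congr 1; ring
    have e2 : Real.sqrt (Lam m n S x) ^ p = Lam m n S x ^ (p / 2) := by
      rw [Real.sqrt_eq_rpow, ← Real.rpow_mul hL0]; congr 1; ring
    have e3 : (r * ‖H 0 x‖) ^ 2 = x ^ (m - n) * ‖H 0 x‖ ^ 2 := by rw [mul_pow, hr2]
    have e4 : (x ^ (((m : ℝ) + n) / 2) * ‖H n x‖) ^ 2 = x ^ (m + n) * ‖H n x‖ ^ 2 := by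
      rw [mul_pow, hb, mul_pow, hr2, ← pow_mul, ← pow_add]
      congr 2
      omega
    rw [e1, e2, e3, e4] at hfin
    refine le_trans hfin (le_of_eq ?_)
    congr 1
    rw [hg]
    simp only
    ring
  -- integration
  have hbc : Continuous (fun x : ℝ => (x ^ (((m : ℝ) + n) / 2) * ‖H n x‖) ^ p) := by
    have h1 : Continuous (fun x : ℝ => x ^ (((m : ℝ) + n) / 2)) :=
      Real.continuous_rpow_const (by positivity)
    exact (Real.continuous_rpow_const (by linarith)).comp (h1.mul (hHc n).norm)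
  have hac : Continuous (fun x : ℝ => (x ^ (((m : ℝ) - n) / 2) * ‖H 0 x‖) ^ p) := by
    have h1 : Continuous (fun x : ℝ => x ^ (((m : ℝ) - n) / 2)) :=
      Real.continuous_rpow_const (by linarith)
    exact (Real.continuous_rpow_const (by linarith)).comp (h1.mul (hHc 0).norm)
  have hred : ∀ (s : ℝ) (F : ℝ → ℂ), (∀ x, R ≤ x → F x = 0) →
      ∫ x in Ioi (0 : ℝ), (x ^ s * ‖F x‖) ^ p = ∫ x in (0 : ℝ)..R, (x ^ s * ‖F x‖) ^ p := by
    intro s F hF
    rw [intervalIntegral.integral_of_le hR.le]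
    apply setIntegral_eq_of_subset_of_forall_sdiff_eq_zero measurableSet_Ioi
    · intro x hx; exact hx.1
    · intro x hx
      have hx0 : (0 : ℝ) < x := hx.1
      have hxR : R < x := by
        by_contra hc
        push Not at hc
        exact hx.2 ⟨hx0, hc⟩
      rw [hF x hxR.le, norm_zero, mul_zero, Real.zero_rpow (by linarith)]
  rw [hred _ _ (hH0 n), hred _ _ (hH0 0)]
  have hGint : ∫ x in (0 : ℝ)..R, g x = G R - G 0 := by
    apply intervalIntegral.integral_eq_sub_of_hasDerivAt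
    · intro x hx
      rw [uIcc_of_le hR.le] at hx
      exact hGd x hx.1
    · exact hgc.intervalIntegrable _ _
  have hGR : G R = 0 := by
    have : Lam m n S R = 0 := by
      unfold Lam
      apply Finset.sum_eq_zero
      intro i _
      rw [hS0 i R le_rfl]
      simp
    rw [hG]
    simp only
    rw [this, Real.zero_rpow (by linarith), mul_zero]
  have hG0 : G 0 = 0 := by rw [hG]; simp
  rw [hGR, hG0, sub_zero] at hGint
  calc ∫ x in (0 : ℝ)..R, (x ^ (((m : ℝ) + n) / 2) * ‖H n x‖) ^ p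
      ≤ ∫ x in (0 : ℝ)..R, (1 + N) ^ (p - 2) *
          ((x ^ (((m : ℝ) - n) / 2) * ‖H 0 x‖) ^ p - g x) := by
        apply intervalIntegral.integral_mono_on_of_le_Ioo hR.le
        · exact hbc.intervalIntegrable _ _
        · exact (continuous_const.mul (hac.sub hgc)).intervalIntegrable _ _
        · intro x hx
          exact hpt x hx.1
    _ = (1 + N) ^ (p - 2) * ∫ x in (0 : ℝ)..R, (x ^ (((m : ℝ) - n) / 2) * ‖H 0 x‖) ^ p := by
        rw [intervalIntegral.integral_const_mul, intervalIntegral.integral_sub, hGint, sub_zero]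
        · exact hac.intervalIntegrable _ _
        · exact hgc.intervalIntegrable _ _

end Pool.Agent.R223.RD.H1
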