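import Pool.Agent.R223.RD.Stm2

/-!
# Project RD (helper223), piece MX: the mixed norm of a sum of distinct angular types
-/

set_option autoImplicit false

open MeasureTheory Set
open scoped SchwartzMap ENNReal

namespace Pool.Agent.R223.RD.MX

theorem int_exp (l : ℤ) : ∫ θ in (0:ℝ)..(2 * Real.pi), Complex.exp (θ * Complex.I) ^ l =
    if l = 0 then (2 * Real.pi : ℂ) else 0 := by
  split_ifs with h
  · subst h
    simp
  · have h1 : ∀ θ : ℝ, Complex.exp (θ * Complex.I) ^ l = Complex.exp ((l * Complex.I) * θ) := by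
      intro θ
      rw [← Complex.exp_int_mul]
      congr 1
      ring
    simp_rw [h1]
    have hc : (l * Complex.I : ℂ) ≠ 0 :=
      mul_ne_zero (Int.cast_ne_zero.2 h) Complex.I_ne_zero
    rw [integral_exp_mul_complex hc]
    have h2 : Complex.exp ((l * Complex.I) * ((2 * Real.pi : ℝ) : ℂ)) = 1 := by
      rw [Complex.exp_eq_one_iff]
      exact ⟨l, by push_cast; ring⟩
    rw [h2]
    simp

theorem norm_e (θ : ℝ) : ‖Complex.exp (θ * Complex.I)‖ = 1 := Complex.norm_exp_ofReal_mul_I θ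

theorem conj_e (θ : ℝ) (k : ℤ) :
    (starRingEnd ℂ) (Complex.exp (θ * Complex.I) ^ k) = Complex.exp (θ * Complex.I) ^ (-k) := by
  rw [map_zpow₀, ← Complex.exp_conj, zpow_neg, ← inv_zpow, ← Complex.exp_neg]
  congr 2
  simp

theorem int_sq {ι : Type} [Fintype ι] (k : ι → ℤ) (hk : Function.Injective k) (c : ι → ℂ) :
    ∫ θ in (0:ℝ)..(2 * Real.pi), ‖∑ i, Complex.exp (θ * Complex.I) ^ (k i) * c i‖ ^ 2 =
      2 * Real.pi * ∑ i, ‖c i‖ ^ 2 := by
  have h0 : ((∫ θ in (0:ℝ)..(2 * Real.pi),
      ‖∑ i, Complex.exp (θ * Complex.I) ^ (k i) * c i‖ ^ 2 : ℝ) : ℂ) =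
      ((2 * Real.pi * ∑ i, ‖c i‖ ^ 2 : ℝ) : ℂ) := by
    rw [← intervalIntegral.integral_ofReal]
    have h1 : ∀ θ : ℝ, ((‖∑ i, Complex.exp (θ * Complex.I) ^ (k i) * c i‖ ^ 2 : ℝ) : ℂ) =
        ∑ i, ∑ j, Complex.exp (θ * Complex.I) ^ (k i - k j) * (c i * (starRingEnd ℂ) (c j)) := by
      intro θ
      rw [Complex.ofReal_pow, ← Complex.mul_conj', map_sum, Finset.sum_mul_sum]
      refine Finset.sum_congr rfl fun i _ => Finset.sum_congr rfl fun j _ => ?_
      rw [map_mul, conj_e, sub_eq_add_neg, zpow_add₀ (Complex.exp_ne_zero _)]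
      ring
    simp_rw [h1]
    have hcont : ∀ i j, Continuous fun θ : ℝ =>
        Complex.exp (θ * Complex.I) ^ (k i - k j) * (c i * (starRingEnd ℂ) (c j)) := by
      intro i j
      refine Continuous.mul ?_ continuous_const
      refine Continuous.zpow₀ (by fun_prop) _ fun θ => Or.inl (Complex.exp_ne_zero _)
    rw [intervalIntegral.integral_finsetSum
      (fun i _ => (continuous_finsetSum _ fun j _ => hcont i j).intervalIntegrable _ _)]
    have h2 : ∀ i, ∫ θ in (0:ℝ)..(2 * Real.pi), ∑ j,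
        Complex.exp (θ * Complex.I) ^ (k i - k j) * (c i * (starRingEnd ℂ) (c j)) =
        2 * Real.pi * (c i * (starRingEnd ℂ) (c i)) := by
      intro i
      rw [intervalIntegral.integral_finsetSum
        (fun j _ => (hcont i j).intervalIntegrable _ _), Finset.sum_eq_single i]
      · rw [intervalIntegral.integral_mul_const, int_exp, if_pos (sub_self _)]
      · intro j _ hj
        rw [intervalIntegral.integral_mul_const, int_exp, if_neg, zero_mul]
        intro h
        exact hj (hk (sub_eq_zero.1 h)).symm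
      · intro h; exact absurd (Finset.mem_univ i) h
    rw [Finset.sum_congr rfl fun i _ => h2 i, ← Finset.mul_sum]
    push_cast
    congr 1
    exact Finset.sum_congr rfl fun i _ => by rw [Complex.mul_conj']
  exact_mod_cast h0

theorem main : S_MX := by
  intro ι _ k p f hk hp hc ht
  have hp0 : 0 < p := by linarith
  have hpi : 0 < 2 * Real.pi := Real.two_pi_pos
  obtain ⟨G, hG⟩ : ∃ G : ℂ → ℝ, G = fun z : ℂ => Real.sqrt (∑ i, ‖f i z‖ ^ 2) := ⟨_, rfl⟩
  have hGc : Continuous G := by
    rw [hG]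
    exact Real.continuous_sqrt.comp (continuous_finsetSum _ fun i _ => ((hc i).norm.pow 2))
  have hG0 : ∀ z, 0 ≤ G z := fun z => by rw [hG]; exact Real.sqrt_nonneg _
  have hG2 : ∀ z, G z ^ 2 = ∑ i, ‖f i z‖ ^ 2 := fun z => by
    rw [hG]; exact Real.sq_sqrt (Finset.sum_nonneg fun i _ => sq_nonneg _)
  have hrot : ∀ (i : ι) (r θ : ℝ), f i (r * Complex.exp (θ * Complex.I)) =
      Complex.exp (θ * Complex.I) ^ (k i) * f i r := by
    intro i r θ
    rw [mul_comm, ht i _ _ (norm_e θ)]
  have hGrot : ∀ (r θ : ℝ), G (r * Complex.exp (θ * Complex.I)) = G r := by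
    intro r θ
    rw [hG]
    simp only [hrot, norm_mul, norm_zpow, norm_e, one_zpow, one_mul]
  -- the inner integral
  have hin : ∀ r : ℝ, ∫⁻ θ in Ioc (0 : ℝ) (2 * Real.pi),
      ‖∑ i, f i (r * Complex.exp (θ * Complex.I))‖ₑ ^ (2 : ℝ) =
        ENNReal.ofReal (2 * Real.pi * G r ^ 2) := by
    intro r
    have h1 : ∀ θ : ℝ, ‖∑ i, f i (r * Complex.exp (θ * Complex.I))‖ₑ ^ (2 : ℝ) =
        ENNReal.ofReal (‖∑ i, Complex.exp (θ * Complex.I) ^ (k i) * f i r‖ ^ 2) := by
      intro θ
      simp only [hrot]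
      rw [← ofReal_norm, ENNReal.ofReal_rpow_of_nonneg (norm_nonneg _) (by norm_num)]
      congr 1
      norm_cast
    simp only [h1]
    have hcont : Continuous fun θ : ℝ =>
        ‖∑ i, Complex.exp (θ * Complex.I) ^ (k i) * f i r‖ ^ 2 := by
      refine (continuous_finsetSum _ fun i _ => Continuous.mul ?_ continuous_const).norm.pow 2
      exact Continuous.zpow₀ (by fun_prop) _ fun θ => Or.inl (Complex.exp_ne_zero _)
    rw [← ofReal_integral_eq_lintegral_ofReal
      ((hcont.integrableOn_Icc).mono_set Ioc_subset_Icc_self)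
      (Filter.Eventually.of_forall fun θ => sq_nonneg _),
      ← intervalIntegral.integral_of_le hpi.le, int_sq k hk, hG2]
  -- the radial integral
  obtain ⟨J, hJ⟩ : ∃ J : ℝ≥0∞, J = ∫⁻ r in Ioi (0 : ℝ), ENNReal.ofReal (G r ^ p) *
    ENNReal.ofReal r := ⟨_, rfl⟩
  have hmix : mix p (fun z => ∑ i, f i z) =
      (ENNReal.ofReal ((2 * Real.pi) ^ (p / 2)) * J) ^ (1 / p) := by
    unfold mix
    congr 1
    rw [hJ, ← lintegral_const_mul' _ _ ENNReal.ofReal_ne_top]
    refine lintegral_congr fun r => ?_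
    rw [hin, ← mul_assoc]
    congr 1
    rw [ENNReal.ofReal_rpow_of_nonneg (by have := hG0 r; positivity) (by positivity),
      ← ENNReal.ofReal_mul (by positivity)]
    congr 1
    rw [Real.mul_rpow hpi.le (sq_nonneg _)]
    congr 1
    rw [← Real.rpow_natCast (G r) 2, ← Real.rpow_mul (hG0 r)]
    congr 1
    push_cast
    ring
  have hLp : eLpNorm G (ENNReal.ofReal p) (volume : Measure ℂ) =
      (ENNReal.ofReal (2 * Real.pi) * J) ^ (1 / p) := by
    rw [eLpNorm_eq_lintegral_rpow_enorm_toReal (by simpa using hp0) ENNReal.ofReal_ne_top,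
      ENNReal.toReal_ofReal hp0.le]
    congr 1
    rw [← Complex.lintegral_comp_polarCoord_symm]
    have h1 : ∀ q : ℝ × ℝ, ENNReal.ofReal q.1 • ‖G (Complex.polarCoord.symm q)‖ₑ ^ p =
        (ENNReal.ofReal (G q.1 ^ p) * ENNReal.ofReal q.1) * 1 := by
      intro q
      have e1 : Complex.polarCoord.symm q = q.1 * Complex.exp (q.2 * Complex.I) := by
        rw [Complex.polarCoord_symm_apply, Complex.exp_mul_I]
        push_cast
        rfl
      rw [e1, hGrot, Real.enorm_of_nonneg (hG0 _), ENNReal.ofReal_rpow_of_nonneg (hG0 _) hp0.le,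
        smul_eq_mul, mul_one, mul_comm]
    simp_rw [h1]
    rw [polarCoord_target, Measure.volume_eq_prod, ← Measure.prod_restrict,
      lintegral_prod_mul (f := fun r : ℝ => ENNReal.ofReal (G r ^ p) * ENNReal.ofReal r)
        (g := fun _ : ℝ => (1 : ℝ≥0∞))]
    · rw [← hJ, mul_comm]
      congr 1
      rw [lintegral_const, one_mul, Measure.restrict_apply_univ, Real.volume_Ioo]
      congr 1
      ring
    · have hcc : Continuous fun r : ℝ => G r := hGc.comp Complex.continuous_ofReal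
      exact (((hcc.rpow_const fun _ => Or.inr hp0.le).measurable.ennreal_ofReal).mul
        (measurable_id.ennreal_ofReal)).aemeasurable
    · exact aemeasurable_const
  have hGe : (fun z : ℂ => Real.sqrt (∑ i, ‖f i z‖ ^ 2)) = G := hG.symm
  rw [hGe, hmix, hLp, ENNReal.mul_rpow_of_nonneg _ _ (by positivity),
    ENNReal.mul_rpow_of_nonneg _ _ (by positivity), ← mul_assoc]
  congr 1
  rw [ENNReal.ofReal_rpow_of_nonneg (by positivity) (by positivity),
    ENNReal.ofReal_rpow_of_nonneg (by positivity) (by positivity),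
    ← ENNReal.ofReal_mul (by positivity)]
  congr 1
  rw [← Real.rpow_mul hpi.le, ← Real.rpow_add hpi]
  congr 1
  field_simp
  ring

end Pool.Agent.R223.RD.MX
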