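import Pool.Agent.R223.RD.Stm3

/-!
# Project RD, part 3: comparison of the square function with the function
-/

set_option autoImplicit false

open MeasureTheory Set
open scoped SchwartzMap ENNReal

namespace Pool.Agent.R223.RD.NK

open Finset in
/-- orthogonality of the characters of the roots of unity -/
theorem orth {ι : Type} [Fintype ι] (k : ι → ℤ) (hk : Function.Injective k) (M : ℕ) (hM : 0 < M)
    (hkM : ∀ i j, |k i - k j| < M) (ζ : ℂ) (hζ : IsPrimitiveRoot ζ M) (c : ι → ℂ) :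
    ∑ r ∈ Finset.range M, ‖∑ i, (ζ ^ r) ^ (k i) * c i‖ ^ 2 = M * ∑ i, ‖c i‖ ^ 2 := by
  classical
  have hn : ‖ζ‖ = 1 := hζ.norm'_eq_one hM.ne'
  have h0 : ζ ≠ 0 := hζ.ne_zero hM.ne'
  have hconj : ∀ r : ℕ, (starRingEnd ℂ) (ζ ^ r) = (ζ ^ r)⁻¹ := by
    intro r
    rw [Complex.inv_def, Complex.normSq_eq_norm_sq, norm_pow, hn]
    simp
  have key : (∑ r ∈ Finset.range M, ((‖∑ i, (ζ ^ r) ^ (k i) * c i‖ ^ 2 : ℝ) : ℂ)) =
      M * ∑ i, ((‖c i‖ ^ 2 : ℝ) : ℂ) := by
    have e1 : ∀ r ∈ Finset.range M, ((‖∑ i, (ζ ^ r) ^ (k i) * c i‖ ^ 2 : ℝ) : ℂ) =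
        ∑ i, ∑ j, (c i * (starRingEnd ℂ) (c j)) * (ζ ^ (k i - k j)) ^ r := by
      intro r _
      have e2 : ∀ w : ℂ, ((‖w‖ ^ 2 : ℝ) : ℂ) = w * (starRingEnd ℂ) w := fun w => by
        rw [Complex.mul_conj, Complex.normSq_eq_norm_sq]
      rw [e2, map_sum, Finset.sum_mul_sum]
      refine Finset.sum_congr rfl fun i _ => Finset.sum_congr rfl fun j _ => ?_
      rw [map_mul, map_zpow₀, hconj]
      have e3 : (ζ ^ (k i - k j)) ^ r = (ζ ^ r) ^ (k i) * ((ζ ^ r)⁻¹) ^ (k j) := by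
        rw [inv_zpow', ← zpow_add₀ (pow_ne_zero r h0), ← sub_eq_add_neg, ← zpow_natCast,
          ← zpow_natCast, ← zpow_mul, ← zpow_mul, mul_comm]
      rw [e3]
      ring
    rw [Finset.sum_congr rfl e1, Finset.sum_comm, Finset.mul_sum]
    refine Finset.sum_congr rfl fun i _ => ?_
    rw [Finset.sum_comm]
    have e4 : ∀ j, ∑ r ∈ Finset.range M, (c i * (starRingEnd ℂ) (c j)) * (ζ ^ (k i - k j)) ^ r =
        if j = i then (M : ℂ) * ((‖c i‖ ^ 2 : ℝ) : ℂ) else 0 := by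
      intro j
      rw [← Finset.mul_sum]
      split_ifs with hj
      · subst hj
        rw [sub_self, zpow_zero]
        simp only [one_pow, Finset.sum_const, Finset.card_range, nsmul_eq_mul, mul_one]
        rw [Complex.mul_conj, Complex.normSq_eq_norm_sq, mul_comm]
      · have hne : ζ ^ (k i - k j) ≠ 1 := by
          intro h
          rw [hζ.zpow_eq_one_iff_dvd] at h
          have := Int.eq_zero_of_abs_lt_dvd h (hkM i j)
          exact hj (hk (by omega))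
        have hgeo : ∑ r ∈ Finset.range M, (ζ ^ (k i - k j)) ^ r = 0 := by
          rw [geom_sum_eq hne]
          have : (ζ ^ (k i - k j)) ^ M = 1 := by
            rw [← zpow_natCast, ← zpow_mul, mul_comm, zpow_mul, zpow_natCast, hζ.pow_eq_one,
              one_zpow]
          rw [this, sub_self, zero_div]
        rw [hgeo, mul_zero]
    rw [Finset.sum_congr rfl fun j _ => e4 j, Finset.sum_ite_eq' Finset.univ i,
      if_pos (Finset.mem_univ i)]
  exact_mod_cast key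

/-- rotation invariance -/
theorem rot (a : ℂ) (ha : ‖a‖ = 1) (g : ℂ → ℝ≥0∞) : ∫⁻ z, g (a * z) = ∫⁻ z, g z := by
  obtain ⟨u, hu⟩ : ∃ u : Circle, (u : ℂ) = a :=
    ⟨⟨a, by rw [Submonoid.unitSphere]; simpa using ha⟩, rfl⟩
  have h := (rotation u).measurePreserving
  have := h.lintegral_comp_emb (rotation u).toHomeomorph.measurableEmbedding g
  refine Eq.trans (lintegral_congr fun z => ?_) this
  rw [rotation_apply, hu]

theorem eLp {E : Type} [NormedAddCommGroup E] (G : ℂ → E) (p : ℝ) (hp : 2 ≤ p) :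
    eLpNorm G (ENNReal.ofReal p) (volume : Measure ℂ) =
      (∫⁻ z, ENNReal.ofReal (‖G z‖ ^ p)) ^ (1 / p) := by
  have hp0 : 0 < p := by linarith
  rw [eLpNorm_eq_lintegral_rpow_enorm_toReal (by simpa using hp0) ENNReal.ofReal_ne_top,
    ENNReal.toReal_ofReal hp0.le]
  congr 1
  refine lintegral_congr fun z => ?_
  rw [← ofReal_norm, ENNReal.ofReal_rpow_of_nonneg (norm_nonneg _) hp0.le]

theorem main : S_NK := by
  intro ι _ k p f hk hp hf hrot
  classical
  have hp0 : 0 < p := by linarith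
  set S : ℂ → ℝ := fun z => Real.sqrt (∑ i, ‖f i z‖ ^ 2) with hS
  set F : ℂ → ℂ := fun z => ∑ i, f i z with hF
  have hS0 : ∀ z, 0 ≤ S z := fun z => Real.sqrt_nonneg _
  have hsum0 : ∀ z, 0 ≤ ∑ i, ‖f i z‖ ^ 2 := fun z => Finset.sum_nonneg fun i _ => sq_nonneg _
  have hS2 : ∀ z, S z ^ 2 = ∑ i, ‖f i z‖ ^ 2 := fun z => Real.sq_sqrt (hsum0 z)
  have cF : Continuous F := continuous_finsetSum _ fun i _ => hf i
  obtain ⟨M, hM, hkM⟩ : ∃ M : ℕ, 0 < M ∧ ∀ i j, |k i - k j| < M := by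
    obtain ⟨B, hB⟩ := (Set.finite_range fun q : ι × ι => (k q.1 - k q.2).natAbs).bddAbove
    refine ⟨B + 1, Nat.succ_pos _, fun i j => ?_⟩
    have h1 : (k i - k j).natAbs ≤ B := hB ⟨(i, j), rfl⟩
    rw [Int.abs_eq_natAbs]
    exact_mod_cast Nat.lt_succ_of_le h1
  have hMR : (0 : ℝ) < M := by exact_mod_cast hM
  obtain ⟨ζ, hζ⟩ : ∃ ζ : ℂ, IsPrimitiveRoot ζ M :=
    ⟨_, Complex.isPrimitiveRoot_exp M hM.ne'⟩
  have hn : ‖ζ‖ = 1 := hζ.norm'_eq_one hM.ne'
  have hnr : ∀ r : ℕ, ‖ζ ^ r‖ = 1 := fun r => by rw [norm_pow, hn, one_pow]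
  have hFr : ∀ (r : ℕ) (z : ℂ), F (ζ ^ r * z) = ∑ i, (ζ ^ r) ^ (k i) * f i z := fun r z =>
    Finset.sum_congr rfl fun i _ => hrot i _ _ (hnr r)
  have hav : ∀ z, ∑ r ∈ Finset.range M, (1 / (M : ℝ)) * ‖F (ζ ^ r * z)‖ ^ 2 = S z ^ 2 := by
    intro z
    rw [← Finset.mul_sum, hS2]
    simp only [hFr]
    rw [orth k hk M hM hkM ζ hζ (fun i => f i z)]
    field_simp
  have hw : ∑ _r ∈ Finset.range M, (1 / (M : ℝ)) = 1 := by
    rw [Finset.sum_const, Finset.card_range, nsmul_eq_mul]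
    field_simp
  have sqp : ∀ x : ℝ, 0 ≤ x → (x ^ 2) ^ (p / 2) = x ^ p := fun x hx => by
    rw [← Real.rpow_natCast, ← Real.rpow_mul hx]
    congr 1
    push_cast
    ring
  -- pointwise inequalities
  have i1 : ∀ z, S z ^ p ≤ ∑ r ∈ Finset.range M, (1 / (M : ℝ)) * ‖F (ζ ^ r * z)‖ ^ p := by
    intro z
    rw [← sqp _ (hS0 z), ← hav z]
    refine (Real.rpow_arith_mean_le_arith_mean_rpow (Finset.range M) (fun _ => 1 / (M : ℝ))
      (fun r => ‖F (ζ ^ r * z)‖ ^ 2) (fun _ _ => by positivity) hw (fun _ _ => sq_nonneg _)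
      (by linarith : 1 ≤ p / 2)).trans (le_of_eq ?_)
    refine Finset.sum_congr rfl fun r _ => ?_
    rw [sqp _ (norm_nonneg _)]
  set c : ℝ := Real.sqrt (Fintype.card ι) with hc
  have hc0 : 0 ≤ c := Real.sqrt_nonneg _
  have hle : ∀ (r : ℕ) (z : ℂ), ‖F (ζ ^ r * z)‖ ≤ c * S z := by
    intro r z
    rw [hFr]
    have h1 : ‖∑ i, (ζ ^ r) ^ (k i) * f i z‖ ≤ ∑ i, 1 * ‖f i z‖ := by
      refine (norm_sum_le _ _).trans (Finset.sum_le_sum fun i _ => ?_)
      rw [norm_mul, norm_zpow, hnr, one_zpow]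
    refine h1.trans ?_
    have h2 := Real.sum_mul_le_sqrt_mul_sqrt Finset.univ (fun _ : ι => (1 : ℝ))
      (fun i => ‖f i z‖)
    refine h2.trans (le_of_eq ?_)
    simp [hc, hS]
  have i2 : ∀ z, ∑ r ∈ Finset.range M, (1 / (M : ℝ)) * ‖F (ζ ^ r * z)‖ ^ p ≤
      c ^ (p - 2) * S z ^ p := by
    intro z
    have hx : ∀ x : ℝ, 0 ≤ x → x ≤ c * S z → x ^ p ≤ (c * S z) ^ (p - 2) * x ^ 2 := by
      intro x hx0 hx1
      rcases hx0.eq_or_lt with h | h
      · rw [← h, Real.zero_rpow hp0.ne']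
        simp
      · have e : x ^ p = x ^ (p - 2) * x ^ 2 := by
          rw [← Real.rpow_natCast, ← Real.rpow_add h]
          congr 1
          push_cast
          ring
        rw [e]
        exact mul_le_mul_of_nonneg_right (Real.rpow_le_rpow hx0 hx1 (by linarith)) (sq_nonneg _)
    calc ∑ r ∈ Finset.range M, (1 / (M : ℝ)) * ‖F (ζ ^ r * z)‖ ^ p ≤
          ∑ r ∈ Finset.range M, (c * S z) ^ (p - 2) * ((1 / (M : ℝ)) * ‖F (ζ ^ r * z)‖ ^ 2) := by
          refine Finset.sum_le_sum fun r _ => ?_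
          have := mul_le_mul_of_nonneg_left (hx _ (norm_nonneg _) (hle r z))
            (by positivity : 0 ≤ 1 / (M : ℝ))
          calc _ ≤ _ := this
            _ = _ := by ring
      _ = (c * S z) ^ (p - 2) * S z ^ 2 := by rw [← Finset.mul_sum, hav]
      _ = c ^ (p - 2) * S z ^ p := by
          rw [Real.mul_rpow hc0 (hS0 z), mul_assoc]
          congr 1
          rcases (hS0 z).eq_or_lt with h | h
          · rw [← h, Real.zero_rpow hp0.ne']
            simp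
          · rw [← Real.rpow_natCast, ← Real.rpow_add h]
            congr 1
            push_cast
            ring
  -- the average of the integrals
  have hA : ∫⁻ z, ENNReal.ofReal (∑ r ∈ Finset.range M, (1 / (M : ℝ)) * ‖F (ζ ^ r * z)‖ ^ p) =
      ∫⁻ z, ENNReal.ofReal (‖F z‖ ^ p) := by
    have mr : ∀ r : ℕ, Measurable fun z : ℂ => ENNReal.ofReal (‖F (ζ ^ r * z)‖ ^ p) := fun r => by
      have : Continuous fun z : ℂ => ‖F (ζ ^ r * z)‖ :=
        (cF.comp (continuous_const.mul continuous_id)).norm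
      exact (this.measurable.pow_const p).ennreal_ofReal
    have e1 : ∀ z, ENNReal.ofReal (∑ r ∈ Finset.range M, (1 / (M : ℝ)) * ‖F (ζ ^ r * z)‖ ^ p) =
        ∑ r ∈ Finset.range M, ENNReal.ofReal (1 / (M : ℝ)) *
          ENNReal.ofReal (‖F (ζ ^ r * z)‖ ^ p) := fun z => by
      rw [ENNReal.ofReal_sum_of_nonneg fun r _ =>
        mul_nonneg (by positivity) (Real.rpow_nonneg (norm_nonneg _) _)]
      refine Finset.sum_congr rfl fun r _ => ?_
      rw [ENNReal.ofReal_mul (by positivity)]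
    simp only [e1]
    rw [lintegral_finsetSum _ fun r _ => (mr r).const_mul _]
    have e2 : ∀ r ∈ Finset.range M, ∫⁻ z, ENNReal.ofReal (1 / (M : ℝ)) *
        ENNReal.ofReal (‖F (ζ ^ r * z)‖ ^ p) = ENNReal.ofReal (1 / (M : ℝ)) *
          ∫⁻ z, ENNReal.ofReal (‖F z‖ ^ p) := fun r _ => by
      rw [lintegral_const_mul _ (mr r),
        rot (ζ ^ r) (hnr r) (fun z => ENNReal.ofReal (‖F z‖ ^ p))]
    rw [Finset.sum_congr rfl e2, ← Finset.sum_mul, ← ENNReal.ofReal_sum_of_nonneg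
      (fun _ _ => by positivity), hw, ENNReal.ofReal_one, one_mul]
  have hSn : ∀ z, ‖S z‖ = S z := fun z => Real.norm_of_nonneg (hS0 z)
  rw [eLp F p hp, eLp S p hp]
  simp only [hSn]
  constructor
  · refine ENNReal.rpow_le_rpow ?_ (by positivity)
    rw [← hA]
    exact lintegral_mono fun z => ENNReal.ofReal_le_ofReal (i1 z)
  · have h1 : ∫⁻ z, ENNReal.ofReal (‖F z‖ ^ p) ≤
        ENNReal.ofReal (c ^ (p - 2)) * ∫⁻ z, ENNReal.ofReal (S z ^ p) := by
      rw [← hA]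
      calc _ ≤ ∫⁻ z, ENNReal.ofReal (c ^ (p - 2)) * ENNReal.ofReal (S z ^ p) := by
            refine lintegral_mono fun z => ?_
            rw [← ENNReal.ofReal_mul (Real.rpow_nonneg hc0 _)]
            exact ENNReal.ofReal_le_ofReal (i2 z)
        _ = _ := lintegral_const_mul' _ _ ENNReal.ofReal_ne_top
    calc _ ≤ (ENNReal.ofReal (c ^ (p - 2)) * ∫⁻ z, ENNReal.ofReal (S z ^ p)) ^ (1 / p) :=
          ENNReal.rpow_le_rpow h1 (by positivity)
      _ = _ := by
          rw [ENNReal.mul_rpow_of_nonneg _ _ (by positivity : 0 ≤ 1 / p),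
            ENNReal.ofReal_rpow_of_nonneg (Real.rpow_nonneg hc0 _) (by positivity : 0 ≤ 1 / p),
            ← Real.rpow_mul hc0]
          congr 3
          field_simp

end Pool.Agent.R223.RD.NK
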