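import Pool.Agent.R223.RD.Stm2
import Pool.Agent.R223.RD.H1

set_option autoImplicit false

open MeasureTheory Set

namespace Pool.Agent.R223.RD.OV

open Pool.Agent.R223.RD
open Pool.Agent.R223.RD.H1
open Pool.Agent.Y282.RB.A2 (HH)

section one

variable {m n : ℕ} (hnm : n ≤ m) {S H : ℕ → ℝ → ℂ}
  (hAc : ∀ i, i < n → ∀ x : ℝ, H i x = ((cc m n i : ℝ) : ℂ) * S i x + x * deriv (S i) x)
  (hB : ∀ i, i < n → ∀ x, H (i + 1) x = deriv (S i) x)

include hnm hAc hB

lemma tel (x : ℝ) : Lam m n S x + x * Lam' m n S x =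
      x ^ (m - n) * ‖H 0 x‖ ^ 2 - x ^ (m + n) * ‖H n x‖ ^ 2 := by
  have hcast : ((m - n : ℕ) : ℝ) = (m : ℝ) - n := by rw [Nat.cast_sub hnm]
  have h1 : ∀ j, j ≤ n → ∑ i ∈ Finset.range j,
      (cc m n i * (x ^ (m - n + 2 * i) * ‖S i x‖ ^ 2) + x * (cc m n i *
        (((m - n + 2 * i : ℕ) : ℝ) * x ^ (m - n + 2 * i - 1) * ‖S i x‖ ^ 2 +
          x ^ (m - n + 2 * i) * (2 * inner ℝ (S i x) (deriv (S i) x))))) =
      x ^ (m - n) * ‖H 0 x‖ ^ 2 - x ^ (m - n + 2 * j) * ‖H j x‖ ^ 2 := by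
    intro j
    induction j with
    | zero => intro _; simp
    | succ j ih =>
      intro hj
      rw [Finset.sum_range_succ, ih (by omega)]
      have h2 := alg (cc m n j) x (S j x) (deriv (S j) x)
      rw [← hAc j (by omega) x] at h2
      rw [hB j (by omega) x]
      have h3 := pow_aux (m - n + 2 * j) x
      have h4 : (((m - n + 2 * j : ℕ) : ℝ)) = cc m n j - 1 := by
        push_cast; rw [hcast]; unfold cc; ring
      have h5 : x ^ (m - n + 2 * (j + 1)) = x ^ (m - n + 2 * j) * x ^ 2 := by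
        rw [← pow_add]; ring_nf
      rw [h5]
      have h6 : x * (((m - n + 2 * j : ℕ) : ℝ) * x ^ (m - n + 2 * j - 1)) =
          (cc m n j - 1) * x ^ (m - n + 2 * j) := by rw [h3, h4]
      linear_combination (cc m n j * ‖S j x‖ ^ 2) * h6 - x ^ (m - n + 2 * j) * h2
  have h2 := h1 n le_rfl
  have h3 : m - n + 2 * n = m + n := by omega
  rw [h3] at h2
  rw [← h2, Finset.sum_add_distrib, ← Finset.mul_sum]
  rfl

omit hAc hB in
lemma sqA {x : ℝ} (hx : 0 ≤ x) (y : ℝ) : (x ^ (((m : ℝ) - n) / 2) * y) ^ 2 = x ^ (m - n) * y ^ 2 := by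
  have hcast : ((m - n : ℕ) : ℝ) = (m : ℝ) - n := by rw [Nat.cast_sub hnm]
  rw [mul_pow, ← Real.rpow_natCast, ← Real.rpow_natCast x (m - n), ← Real.rpow_mul hx, hcast]
  congr 2
  push_cast
  ring

omit hnm hAc hB in
lemma sqB {x : ℝ} (hx : 0 ≤ x) (y : ℝ) : (x ^ (((m : ℝ) + n) / 2) * y) ^ 2 = x ^ (m + n) * y ^ 2 := by
  rw [mul_pow, ← Real.rpow_natCast, ← Real.rpow_natCast x (m + n), ← Real.rpow_mul hx]
  congr 2
  push_cast
  ring

lemma ab {x : ℝ} (hx : 0 < x) : x ^ (((m : ℝ) + n) / 2) * ‖H n x‖ ≤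
    x ^ (((m : ℝ) - n) / 2) * ‖H 0 x‖ + Real.sqrt ((n : ℝ) * m) * Real.sqrt (Lam m n S x) := by
  have hcast : ((m - n : ℕ) : ℝ) = (m : ℝ) - n := by rw [Nat.cast_sub hnm]
  set r : ℝ := x ^ (((m : ℝ) - n) / 2) with hr
  have hr0 : 0 < r := Real.rpow_pos_of_pos hx _
  have hr2 : r ^ 2 = x ^ (m - n) := by
    rw [hr, ← Real.rpow_natCast, ← Real.rpow_natCast, ← Real.rpow_mul hx.le, hcast]
    congr 1
    push_cast
    ring
  have hb : x ^ (((m : ℝ) + n) / 2) = r * x ^ n := by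
    rw [hr, ← Real.rpow_natCast x n, ← Real.rpow_add hx]
    congr 1
    ring
  have hL0 := Lam_nonneg hnm S hx.le
  have hchain : ∀ j, j ≤ n → (x : ℂ) ^ j * H j x =
      H 0 x - ∑ i ∈ Finset.range j, ((cc m n i : ℝ) : ℂ) * ((x : ℂ) ^ i * S i x) := by
    intro j
    induction j with
    | zero => intro _; simp
    | succ j ih =>
      intro hj
      have h1 := ih (by omega)
      rw [Finset.sum_range_succ, ← sub_sub, ← h1, hAc j (by omega) x, hB j (by omega) x, pow_succ]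
      ring
  have h1 := hchain n le_rfl
  have h2 : ‖(x : ℂ) ^ n * H n x‖ ≤ ‖H 0 x‖ +
      ∑ i ∈ Finset.range n, cc m n i * (x ^ i * ‖S i x‖) := by
    rw [h1]
    refine le_trans (norm_sub_le _ _) ?_
    gcongr
    refine le_trans (norm_sum_le _ _) (le_of_eq ?_)
    apply Finset.sum_congr rfl
    intro i _
    rw [norm_mul, norm_mul, norm_pow, Complex.norm_real, Complex.norm_real,
      Real.norm_of_nonneg (cc_pos hnm i).le, Real.norm_of_nonneg hx.le]
  have h3 : r * ∑ i ∈ Finset.range n, cc m n i * (x ^ i * ‖S i x‖) ≤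
      Real.sqrt ((n : ℝ) * m) * Real.sqrt (Lam m n S x) := by
    have h4 := Real.sum_mul_le_sqrt_mul_sqrt (Finset.range n) (fun i => Real.sqrt (cc m n i))
      (fun i => Real.sqrt (cc m n i) * (r * (x ^ i * ‖S i x‖)))
    have h5 : ∑ i ∈ Finset.range n, Real.sqrt (cc m n i) *
        (Real.sqrt (cc m n i) * (r * (x ^ i * ‖S i x‖))) =
        r * ∑ i ∈ Finset.range n, cc m n i * (x ^ i * ‖S i x‖) := by
      rw [Finset.mul_sum]
      apply Finset.sum_congr rfl
      intro i _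
      have := Real.mul_self_sqrt (cc_pos hnm i).le
      linear_combination (r * (x ^ i * ‖S i x‖)) * this
    have h6 : ∑ i ∈ Finset.range n, Real.sqrt (cc m n i) ^ 2 = n * m := by
      rw [← cc_sum]
      apply Finset.sum_congr rfl
      intro i _
      exact Real.sq_sqrt (cc_pos hnm i).le
    have h7 : ∑ i ∈ Finset.range n, (Real.sqrt (cc m n i) * (r * (x ^ i * ‖S i x‖))) ^ 2 =
        Lam m n S x := by
      unfold Lam
      apply Finset.sum_congr rfl
      intro i _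
      rw [mul_pow, Real.sq_sqrt (cc_pos hnm i).le, mul_pow, mul_pow, hr2, pow_add, pow_mul' x 2 i]
      ring
    rw [h5, h6, h7] at h4
    exact h4
  have h8 : ‖(x : ℂ) ^ n * H n x‖ = x ^ n * ‖H n x‖ := by
    rw [norm_mul, norm_pow, Complex.norm_real, Real.norm_of_nonneg hx.le]
  rw [h8] at h2
  rw [hb, mul_assoc]
  have h9 := mul_le_mul_of_nonneg_left h2 hr0.le
  rw [mul_add] at h9
  linarith

end one

/-- Minkowski in `ℓ²` -/
lemma mink {ι : Type} [Fintype ι] (a b l : ι → ℝ) (N : ℝ) (ha : ∀ i, 0 ≤ a i)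
    (hb : ∀ i, 0 ≤ b i) (hl : ∀ i, 0 ≤ l i) (hN : 0 ≤ N) (h : ∀ i, b i ≤ a i + N * l i) :
    Real.sqrt (∑ i, b i ^ 2) ≤ Real.sqrt (∑ i, a i ^ 2) + N * Real.sqrt (∑ i, l i ^ 2) := by
  have hA : 0 ≤ ∑ i, a i ^ 2 := Finset.sum_nonneg (fun i _ => sq_nonneg _)
  have hL : 0 ≤ ∑ i, l i ^ 2 := Finset.sum_nonneg (fun i _ => sq_nonneg _)
  have hcs := Real.sum_mul_le_sqrt_mul_sqrt Finset.univ a l
  apply Real.sqrt_le_iff.mpr
  refine ⟨by positivity, ?_⟩
  have h1 : ∑ i, b i ^ 2 ≤ ∑ i, (a i + N * l i) ^ 2 := by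
    apply Finset.sum_le_sum
    intro i _
    exact pow_le_pow_left₀ (hb i) (h i) 2
  have h2 : ∑ i, (a i + N * l i) ^ 2 =
      ∑ i, a i ^ 2 + 2 * N * ∑ i, a i * l i + N ^ 2 * ∑ i, l i ^ 2 := by
    rw [Finset.mul_sum, Finset.mul_sum, ← Finset.sum_add_distrib, ← Finset.sum_add_distrib]
    apply Finset.sum_congr rfl
    intro i _
    ring
  have h3 : (Real.sqrt (∑ i, a i ^ 2) + N * Real.sqrt (∑ i, l i ^ 2)) ^ 2 =
      ∑ i, a i ^ 2 + 2 * N * (Real.sqrt (∑ i, a i ^ 2) * Real.sqrt (∑ i, l i ^ 2)) +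
        N ^ 2 * ∑ i, l i ^ 2 := by
    rw [add_sq, mul_pow, Real.sq_sqrt hA, Real.sq_sqrt hL]
    ring
  rw [h3]
  have h4 := mul_le_mul_of_nonneg_left hcs (mul_nonneg (zero_le_two (α := ℝ)) hN)
  linarith

theorem main : S_OV := by
  intro hPI hCH ι _ m n N p h hnm hN0 hNmn hp hsm hvan
  obtain ⟨R0, hR0⟩ := hvan
  have hch : ∀ i, ∃ (S H : ℕ → ℝ → ℂ) (R : ℝ), 0 < R ∧ (∀ i, ContDiff ℝ (⊤ : ℕ∞) (S i)) ∧
    (∀ i, ContDiff ℝ (⊤ : ℕ∞) (H i)) ∧ (∀ i x, R ≤ x → S i x = 0) ∧ (∀ i x, R ≤ x → H i x = 0) ∧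
    H 0 = HH (m i) (h i) (n i) ∧ H (n i) = iteratedDeriv (n i) (h i) ∧
    (∀ j, j < n i → ∀ x, H j x = ((m i : ℂ) - n i + 1 + 2 * j) * S j x + x * deriv (S j) x) ∧
    (∀ j, j < n i → ∀ x, H (j + 1) x = deriv (S j) x) := fun i =>
      hCH (m i) (n i) (h i) (hnm i) (hsm i) ⟨R0, fun x hx => hR0 i x hx⟩
  choose S H Ri hRi hS hHs hS0i hH0i hH0e hHne hA hB using hch
  set R : ℝ := 1 + ∑ i, Ri i with hRdef
  have hRle : ∀ i, Ri i ≤ R := by
    intro i
    have := Finset.single_le_sum (f := Ri) (fun j _ => (hRi j).le) (Finset.mem_univ i)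
    linarith
  have hR : 0 < R := by
    have : 0 ≤ ∑ i, Ri i := Finset.sum_nonneg (fun j _ => (hRi j).le)
    linarith
  have hS0 : ∀ i j x, R ≤ x → S i j x = 0 := fun i j x hx => hS0i i j x ((hRle i).trans hx)
  have hH0 : ∀ i j x, R ≤ x → H i j x = 0 := fun i j x hx => hH0i i j x ((hRle i).trans hx)
  have hAc : ∀ i j, j < n i → ∀ x : ℝ,
      H i j x = ((cc (m i) (n i) j : ℝ) : ℂ) * S i j x + x * deriv (S i j) x := by
    intro i j hj x
    rw [hA i j hj x]
    unfold cc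
    push_cast
    ring
  have hlhs : ∀ x : ℝ, (∑ i, (x ^ (((m i : ℝ) + n i) / 2) * ‖iteratedDeriv (n i) (h i) x‖) ^ 2)
      = (∑ i, (x ^ (((m i : ℝ) + n i) / 2) * ‖H i (n i) x‖) ^ 2) := by
    intro x
    apply Finset.sum_congr rfl
    intro i _
    rw [hHne i]
  have hrhs : ∀ x : ℝ, (∑ i, (x ^ (((m i : ℝ) - n i) / 2) * ‖HH (m i) (h i) (n i) x‖) ^ 2)
      = (∑ i, (x ^ (((m i : ℝ) - n i) / 2) * ‖H i 0 x‖) ^ 2) := by
    intro x
    apply Finset.sum_congr rfl
    intro i _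
    rw [hH0e i]
  simp only [hlhs, hrhs]
  -- the function Λ
  set L : ℝ → ℝ := fun x => ∑ i, Lam (m i) (n i) (S i) x with hL
  set L' : ℝ → ℝ := fun x => ∑ i, Lam' (m i) (n i) (S i) x with hL'
  have hLd : ∀ x, HasDerivAt L (L' x) x := by
    intro x
    exact HasDerivAt.fun_sum (fun i _ => Lam_deriv (m i) (n i) (S i) (hS i) x)
  have hLnn : ∀ x, 0 ≤ x → 0 ≤ L x := fun x hx =>
    Finset.sum_nonneg (fun i _ => Lam_nonneg (hnm i) (S i) hx)
  set A2 : ℝ → ℝ := fun x => ∑ i, x ^ (m i - n i) * ‖H i 0 x‖ ^ 2 with hA2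
  set B2 : ℝ → ℝ := fun x => ∑ i, x ^ (m i + n i) * ‖H i (n i) x‖ ^ 2 with hB2
  have htel : ∀ x : ℝ, L x + x * L' x = A2 x - B2 x := by
    intro x
    simp only [hL, hL', hA2, hB2]
    rw [Finset.mul_sum, ← Finset.sum_add_distrib, ← Finset.sum_sub_distrib]
    apply Finset.sum_congr rfl
    intro i _
    exact tel (hnm i) (hAc i) (hB i) x
  set G : ℝ → ℝ := fun x => x * L x ^ (p / 2) with hG
  set g : ℝ → ℝ := fun x => p / 2 * L x ^ (p / 2 - 1) * (A2 x - B2 x) -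
    (p / 2 - 1) * L x ^ (p / 2) with hg
  have hLc : Continuous L := continuous_iff_continuousAt.mpr (fun x => (hLd x).continuousAt)
  have hHc : ∀ i j, Continuous (H i j) := fun i j => (hHs i j).continuous
  have hA2c : Continuous A2 := by
    apply continuous_finsetSum
    intro i _
    exact (continuous_pow _).mul ((hHc i 0).norm.pow 2)
  have hB2c : Continuous B2 := by
    apply continuous_finsetSum
    intro i _
    exact (continuous_pow _).mul ((hHc i (n i)).norm.pow 2)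
  have hgc : Continuous g := by
    have c1 : Continuous (fun x => L x ^ (p / 2 - 1)) :=
      (Real.continuous_rpow_const (by linarith)).comp hLc
    have c2 : Continuous (fun x => L x ^ (p / 2)) :=
      (Real.continuous_rpow_const (by linarith)).comp hLc
    exact ((continuous_const.mul c1).mul (hA2c.sub hB2c)).sub (continuous_const.mul c2)
  have hGd : ∀ x : ℝ, 0 ≤ x → HasDerivAt G (g x) x := by
    intro x hx
    have h1 : HasDerivAt (fun y => L y ^ (p / 2)) (L' x * (p / 2) * L x ^ (p / 2 - 1)) x :=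
      (hLd x).rpow_const (Or.inr (by linarith))
    have h2 : HasDerivAt G (1 * L x ^ (p / 2) +
        x * (L' x * (p / 2) * L x ^ (p / 2 - 1))) x :=
      (hasDerivAt_id x).mul h1
    have hL0 := hLnn x hx
    have h3 : L x ^ (p / 2) = L x ^ (p / 2 - 1) * L x := by
      rcases hL0.eq_or_lt with h0 | hpos
      · rw [← h0, mul_zero, Real.zero_rpow (by linarith)]
      · rw [← Real.rpow_add_one hpos.ne']; congr 1; ring
    have h4 : 1 * L x ^ (p / 2) + x * (L' x * (p / 2) * L x ^ (p / 2 - 1)) = g x := by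
      have h5 : g x = p / 2 * L x ^ (p / 2 - 1) * (A2 x - B2 x) -
        (p / 2 - 1) * L x ^ (p / 2) := rfl
      rw [h5, ← htel x, h3]
      ring
    rw [h4] at h2
    exact h2
  -- pointwise inequality
  have hpt : ∀ x : ℝ, 0 < x → (∑ i, (x ^ (((m i : ℝ) + n i) / 2) * ‖H i (n i) x‖) ^ 2) ^ (p / 2) ≤
      (1 + N) ^ (p - 2) *
        ((∑ i, (x ^ (((m i : ℝ) - n i) / 2) * ‖H i 0 x‖) ^ 2) ^ (p / 2) - g x) := by
    intro x hx
    have hL0 := hLnn x hx.le
    have eA : (∑ i, (x ^ (((m i : ℝ) - n i) / 2) * ‖H i 0 x‖) ^ 2) = A2 x := by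
      apply Finset.sum_congr rfl
      intro i _
      exact sqA (hnm i) hx.le _
    have eB : (∑ i, (x ^ (((m i : ℝ) + n i) / 2) * ‖H i (n i) x‖) ^ 2) = B2 x := by
      apply Finset.sum_congr rfl
      intro i _
      exact sqB hx.le _
    have eL : (∑ i, Real.sqrt (Lam (m i) (n i) (S i) x) ^ 2) = L x := by
      apply Finset.sum_congr rfl
      intro i _
      exact Real.sq_sqrt (Lam_nonneg (hnm i) (S i) hx.le)
    have hmk := mink (fun i => x ^ (((m i : ℝ) - n i) / 2) * ‖H i 0 x‖)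
      (fun i => x ^ (((m i : ℝ) + n i) / 2) * ‖H i (n i) x‖)
      (fun i => Real.sqrt (Lam (m i) (n i) (S i) x)) N
      (fun i => by positivity) (fun i => by positivity) (fun i => Real.sqrt_nonneg _) hN0
      (fun i => by
        have h1 := ab (hnm i) (hAc i) (hB i) hx
        have h2 : Real.sqrt ((n i : ℝ) * m i) ≤ N := Real.sqrt_le_iff.mpr ⟨hN0, hNmn i⟩
        have h3 := mul_le_mul_of_nonneg_right h2 (Real.sqrt_nonneg (Lam (m i) (n i) (S i) x))
        linarith)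
    rw [eA, eB, eL] at hmk
    rw [eA, eB]
    have hA0 : 0 ≤ A2 x := by rw [← eA]; exact Finset.sum_nonneg (fun i _ => sq_nonneg _)
    have hB0 : 0 ≤ B2 x := by rw [← eB]; exact Finset.sum_nonneg (fun i _ => sq_nonneg _)
    have hfin := hPI p N (Real.sqrt (A2 x)) (Real.sqrt (B2 x))
      (Real.sqrt (L x)) hp hN0 (Real.sqrt_nonneg _) (Real.sqrt_nonneg _) (Real.sqrt_nonneg _) hmk
    have e1 : Real.sqrt (L x) ^ (p - 2) = L x ^ (p / 2 - 1) := by
      rw [Real.sqrt_eq_rpow, ← Real.rpow_mul hL0]; congr 1; ring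
    have e2 : Real.sqrt (L x) ^ p = L x ^ (p / 2) := by
      rw [Real.sqrt_eq_rpow, ← Real.rpow_mul hL0]; congr 1; ring
    have e5 : Real.sqrt (A2 x) ^ p = A2 x ^ (p / 2) := by
      rw [Real.sqrt_eq_rpow, ← Real.rpow_mul hA0]; congr 1; ring
    have e6 : Real.sqrt (B2 x) ^ p = B2 x ^ (p / 2) := by
      rw [Real.sqrt_eq_rpow, ← Real.rpow_mul hB0]; congr 1; ring
    rw [e1, e2, e5, e6, Real.sq_sqrt hA0, Real.sq_sqrt hB0] at hfin
    refine le_trans hfin (le_of_eq ?_)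
    have h5 : g x = p / 2 * L x ^ (p / 2 - 1) * (A2 x - B2 x) -
        (p / 2 - 1) * L x ^ (p / 2) := rfl
    rw [h5]
    ring
  -- integration
  have hbc : Continuous (fun x : ℝ =>
      (∑ i, (x ^ (((m i : ℝ) + n i) / 2) * ‖H i (n i) x‖) ^ 2) ^ (p / 2)) := by
    have h1 : Continuous (fun x : ℝ =>
        (∑ i, (x ^ (((m i : ℝ) + n i) / 2) * ‖H i (n i) x‖) ^ 2)) := by
      apply continuous_finsetSum
      intro i _
      exact ((Real.continuous_rpow_const (by positivity)).mul (hHc i (n i)).norm).pow 2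
    exact (Real.continuous_rpow_const (by linarith)).comp h1
  have hac : Continuous (fun x : ℝ =>
      (∑ i, (x ^ (((m i : ℝ) - n i) / 2) * ‖H i 0 x‖) ^ 2) ^ (p / 2)) := by
    have h1 : Continuous (fun x : ℝ =>
        (∑ i, (x ^ (((m i : ℝ) - n i) / 2) * ‖H i 0 x‖) ^ 2)) := by
      apply continuous_finsetSum
      intro i _
      have hmn : (n i : ℝ) ≤ m i := by exact_mod_cast hnm i
      exact ((Real.continuous_rpow_const (by linarith)).mul (hHc i 0).norm).pow 2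
    exact (Real.continuous_rpow_const (by linarith)).comp h1
  have hred : ∀ (s : ι → ℝ) (F : ι → ℝ → ℂ), (∀ i x, R ≤ x → F i x = 0) →
      ∫ x in Ioi (0 : ℝ), (∑ i, (x ^ (s i) * ‖F i x‖) ^ 2) ^ (p / 2) =
      ∫ x in (0 : ℝ)..R, (∑ i, (x ^ (s i) * ‖F i x‖) ^ 2) ^ (p / 2) := by
    intro s F hF
    rw [intervalIntegral.integral_of_le hR.le]
    apply setIntegral_eq_of_subset_of_forall_sdiff_eq_zero measurableSet_Ioi
    · intro x hx; exact hx.1
    · intro x hx
      have hx0 : (0 : ℝ) < x := hx.1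
      have hxR : R < x := by
        by_contra hc
        push Not at hc
        exact hx.2 ⟨hx0, hc⟩
      have h0 : (∑ i, (x ^ (s i) * ‖F i x‖) ^ 2) = 0 := by
        apply Finset.sum_eq_zero
        intro i _
        rw [hF i x hxR.le, norm_zero, mul_zero]
        norm_num
      rw [h0, Real.zero_rpow (by linarith)]
  rw [hred (fun i => ((m i : ℝ) + n i) / 2) (fun i => H i (n i)) (fun i => hH0 i (n i)),
    hred (fun i => ((m i : ℝ) - n i) / 2) (fun i => H i 0) (fun i => hH0 i 0)]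
  have hGint : ∫ x in (0 : ℝ)..R, g x = G R - G 0 := by
    apply intervalIntegral.integral_eq_sub_of_hasDerivAt
    · intro x hx
      rw [uIcc_of_le hR.le] at hx
      exact hGd x hx.1
    · exact hgc.intervalIntegrable _ _
  have hGR : G R = 0 := by
    have : L R = 0 := by
      apply Finset.sum_eq_zero
      intro i _
      unfold Lam
      apply Finset.sum_eq_zero
      intro j _
      rw [hS0 i j R le_rfl]
      simp
    have h5 : G R = R * L R ^ (p / 2) := rfl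
    rw [h5, this, Real.zero_rpow (by linarith), mul_zero]
  have hG0 : G 0 = 0 := by
    have h5 : G 0 = 0 * L 0 ^ (p / 2) := rfl
    rw [h5, zero_mul]
  rw [hGR, hG0, sub_zero] at hGint
  calc ∫ x in (0 : ℝ)..R, (∑ i, (x ^ (((m i : ℝ) + n i) / 2) * ‖H i (n i) x‖) ^ 2) ^ (p / 2)
      ≤ ∫ x in (0 : ℝ)..R, (1 + N) ^ (p - 2) *
          ((∑ i, (x ^ (((m i : ℝ) - n i) / 2) * ‖H i 0 x‖) ^ 2) ^ (p / 2) - g x) := by
        apply intervalIntegral.integral_mono_on_of_le_Ioo hR.le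
        · exact hbc.intervalIntegrable _ _
        · exact (continuous_const.mul (hac.sub hgc)).intervalIntegrable _ _
        · intro x hx
          exact hpt x hx.1
    _ = (1 + N) ^ (p - 2) * ∫ x in (0 : ℝ)..R,
          (∑ i, (x ^ (((m i : ℝ) - n i) / 2) * ‖H i 0 x‖) ^ 2) ^ (p / 2) := by
        rw [intervalIntegral.integral_const_mul, intervalIntegral.integral_sub, hGint, sub_zero]
        · exact hac.intervalIntegrable _ _
        · exact hgc.intervalIntegrable _ _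

end Pool.Agent.R223.RD.OV
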