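import Pool.Agent.R223.RD.Stm

set_option autoImplicit false

open MeasureTheory Set
open scoped SchwartzMap ContDiff

namespace Pool.Agent.R223.RD.P

open Pool.Agent.R223.RD
open Pool.Agent.Y282.RB (Tn)
open Pool.Agent.Y282.RB.A2 (HH db dd Tn_db db_iter dd_iter real_iter HH_smooth)

lemma iter_zero {f : ℝ → ℂ} {R : ℝ} (hf : ∀ x, R < x → f x = 0) (n : ℕ) :
    ∀ x, R < x → iteratedDeriv n f x = 0 := by
  induction n with
  | zero => intro x hx; rw [iteratedDeriv_zero]; exact hf x hx
  | succ n ih =>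
    intro x hx
    rw [iteratedDeriv_succ]
    have h1 : iteratedDeriv n f =ᶠ[nhds x] fun _ => 0 := by
      filter_upwards [Ioi_mem_nhds hx] with y hy
      exact ih y hy
    rw [h1.deriv_eq]
    simp

lemma iter_conj (f : ℝ → ℂ) (n : ℕ) :
    iteratedDeriv n (fun t => (starRingEnd ℂ) (f t)) =
      fun t => (starRingEnd ℂ) (iteratedDeriv n f t) := by
  induction n with
  | zero => simp
  | succ n ih =>
    rw [iteratedDeriv_succ, ih, iteratedDeriv_succ]
    funext t
    exact deriv.star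

theorem main : S_P := by
  intro hOne hPC hCJ m n p V hnm hp hV
  obtain ⟨hVs, a, R, ha, haR, hV0, hVR⟩ := hV
  -- the function h
  set h : ℝ → ℂ := fun x => V x * ((x : ℂ) ^ m)⁻¹ with hh
  have hxm : ∀ x : ℝ, V x = (x : ℂ) ^ m * h x := by
    intro x
    rcases le_or_gt x a with hx | hx
    · rw [hh]; simp only; rw [hV0 x hx]; simp
    · have h1 : (x : ℂ) ^ m ≠ 0 := by
        apply pow_ne_zero
        have : x ≠ 0 := by linarith
        exact_mod_cast this
      rw [hh]
      simp only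
      field_simp
  have hhs : ContDiff ℝ (⊤ : ℕ∞) h := by
    rw [contDiff_iff_contDiffAt]
    intro x
    rcases lt_or_ge x a with hx | hx
    · have h1 : h =ᶠ[nhds x] fun _ => 0 := by
        filter_upwards [Iio_mem_nhds hx] with y hy
        rw [hh]
        simp only
        rw [hV0 y (le_of_lt hy), zero_mul]
      exact contDiffAt_const.congr_of_eventuallyEq h1
    · have hx0 : (x : ℂ) ^ m ≠ 0 := by
        apply pow_ne_zero
        have : x ≠ 0 := by linarith
        exact_mod_cast this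
      have h2 : ContDiffAt ℝ (⊤ : ℕ∞) (fun y : ℝ => (y : ℂ) ^ m) x :=
        (Complex.ofRealCLM.contDiff.pow m).contDiffAt
      exact hVs.contDiffAt.mul (h2.inv hx0)
  set k : ℝ → ℂ := fun x => (starRingEnd ℂ) (h x) with hk
  have hks : ContDiff ℝ (⊤ : ℕ∞) k := by
    have h1 : ContDiff ℝ (⊤ : ℕ∞) (fun z : ℂ => (starRingEnd ℂ) z) :=
      Complex.conjCLE.contDiff
    exact h1.comp hhs
  have hkR : ∀ x, R ≤ x → k x = 0 := by
    intro x hx
    rw [hk, hh]
    simp only
    rw [hVR x hx]
    simp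
  -- Schwartz functions
  have hsq : ContDiff ℝ ∞ (Complex.normSq : ℂ → ℝ) := by
    have e : (Complex.normSq : ℂ → ℝ) = fun z => z.re * z.re + z.im * z.im := by
      funext z
      exact Complex.normSq_apply z
    rw [e]
    exact (Complex.reCLM.contDiff.mul Complex.reCLM.contDiff).add
      (Complex.imCLM.contDiff.mul Complex.imCLM.contDiff)
  have hs2 : ContDiff ℝ ∞ (fun z : ℂ => z ^ m * k (Complex.normSq z)) :=
    (contDiff_id.pow m).mul (hks.comp hsq)
  have hs1 : ContDiff ℝ ∞ (fun z : ℂ => (starRingEnd ℂ) (z ^ m * k (Complex.normSq z))) := by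
    have h1 : ContDiff ℝ ∞ (fun z : ℂ => (starRingEnd ℂ) z) := Complex.conjCLE.contDiff
    exact h1.comp hs2
  have hvan : ∀ w : ℂ, w ∉ Metric.closedBall (0 : ℂ) (|R| + 1) → w ^ m * k (Complex.normSq w) = 0 := by
    intro w hw
    rw [Metric.mem_closedBall, dist_zero_right, not_le] at hw
    have h1 : R ≤ Complex.normSq w := by
      rw [Complex.normSq_eq_norm_sq]
      nlinarith [le_abs_self R, abs_nonneg R]
    rw [hkR _ h1, mul_zero]
  have hc2 : HasCompactSupport (fun z : ℂ => z ^ m * k (Complex.normSq z)) :=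
    HasCompactSupport.intro (isCompact_closedBall (0 : ℂ) (|R| + 1)) fun w hw => hvan w hw
  have hc1 : HasCompactSupport (fun z : ℂ => (starRingEnd ℂ) (z ^ m * k (Complex.normSq z))) :=
    HasCompactSupport.intro (isCompact_closedBall (0 : ℂ) (|R| + 1)) fun w hw => by
      rw [hvan w hw, map_zero]
  set φ₂ : 𝓢(ℂ, ℂ) := hc2.toSchwartzMap hs2 with hφ₂
  set φ : 𝓢(ℂ, ℂ) := hc1.toSchwartzMap hs1 with hφ
  have hφ₂a : ∀ z, φ₂ z = z ^ m * k (Complex.normSq z) := fun z => rfl
  have hφa : ∀ z, φ z = (starRingEnd ℂ) (φ₂ z) := fun z => rfl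
  have hCJ' := hCJ φ₂ φ hφa n
  have hdb : ∀ z, (db^[n] φ₂) z = z ^ (m + n) * iteratedDeriv n k (Complex.normSq z) :=
    fun z => db_iter hks hφ₂a n z
  have hdd : ∀ z, (dd^[n] φ₂) z = z ^ (m - n) * HH m k n (Complex.normSq z) :=
    fun z => dd_iter hks hφ₂a n hnm z
  have hreal : ∀ t : ℝ, iteratedDeriv n V t = (t : ℂ) ^ (m - n) * (starRingEnd ℂ) (HH m k n t) := by
    intro t
    have h1 := real_iter hks n hnm t
    have h2 : (fun t : ℝ => (t : ℂ) ^ m * k t) = fun t => (starRingEnd ℂ) (V t) := by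
      funext t
      rw [hxm t, map_mul, map_pow, Complex.conj_ofReal]
    rw [h2, iter_conj] at h1
    have h3 := congrArg (starRingEnd ℂ) h1
    rw [Complex.conj_conj, map_mul, map_pow, Complex.conj_ofReal] at h3
    exact h3
  have hkRn : ∀ x, R + 1 ≤ x → iteratedDeriv n k x = 0 := by
    intro x hx
    exact iter_zero (R := R) (fun y hy => hkR y hy.le) n x (by linarith)
  have hHRn : ∀ x, R + 1 ≤ x → HH m k n x = 0 := by
    intro x hx
    have h1 : iteratedDeriv n V x = 0 :=
      iter_zero (R := R) (fun y hy => hVR y hy.le) n x (by linarith)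
    rw [hreal x] at h1
    have h2 : (x : ℂ) ^ (m - n) ≠ 0 := by
      apply pow_ne_zero
      have : x ≠ 0 := by linarith
      exact_mod_cast this
    have h3 := (mul_eq_zero.mp h1).resolve_left h2
    exact (map_eq_zero (starRingEnd ℂ)).mp h3
  have hkc : Continuous (iteratedDeriv n k) :=
    hks.continuous_iteratedDeriv n (by exact_mod_cast le_top)
  have hHc : Continuous (HH m k n) := (HH_smooth m hks n).continuous
  refine ⟨db^[n] φ, ?_, ?_⟩
  · intro z
    rw [(hCJ' z).1, hdd z, hreal, map_mul, map_pow, ← mul_assoc, ← mul_pow]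
    congr 2
    rw [← Complex.mul_conj, ← mul_assoc]
    rcases eq_or_ne z 0 with hz | hz
    · rw [hz]; simp
    · rw [inv_mul_cancel₀ hz, one_mul]
  · have hT : Tn n (⇑(db^[n] φ)) = ⇑(dd^[n] φ) := by
      funext z
      exact Tn_db n φ z
    rw [hT]
    have hcast : ((m - n : ℕ) : ℝ) = (m : ℝ) - n := by rw [Nat.cast_sub hnm]
    have hmn : (n : ℝ) ≤ m := by exact_mod_cast hnm
    have e1 := hPC p ((m : ℝ) + n) hp (by positivity) (iteratedDeriv n k) hkc ⟨R + 1, hkRn⟩
      (⇑(dd^[n] φ)) (by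
        intro z
        rw [(hCJ' z).2, hdb z, Complex.norm_conj, norm_mul, norm_pow]
        congr 1
        rw [← Real.rpow_natCast]
        congr 1
        push_cast
        rfl)
      (dd^[n] φ).continuous.aestronglyMeasurable
    have e2 := hPC p ((m : ℝ) - n) hp (by linarith) (HH m k n) hHc ⟨R + 1, hHRn⟩
      (⇑(db^[n] φ)) (by
        intro z
        rw [(hCJ' z).1, hdd z, Complex.norm_conj, norm_mul, norm_pow]
        congr 1
        rw [← Real.rpow_natCast, hcast])
      (db^[n] φ).continuous.aestronglyMeasurable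
    rw [e1, e2]
    have h1 := hOne m n p hnm hp k hks ⟨R, hkR⟩
    set I₁ := ∫ x in Ioi (0 : ℝ), (x ^ (((m : ℝ) + n) / 2) * ‖iteratedDeriv n k x‖) ^ p with hI₁
    set I₀ := ∫ x in Ioi (0 : ℝ), (x ^ (((m : ℝ) - n) / 2) * ‖HH m k n x‖) ^ p with hI₀
    set N : ℝ := Real.sqrt ((n : ℝ) * m) with hN
    have hN0 : 0 ≤ N := Real.sqrt_nonneg _
    have hI₁0 : 0 ≤ I₁ := by
      apply setIntegral_nonneg measurableSet_Ioi
      intro x hx
      have : (0 : ℝ) < x := hx
      positivity
    have hI₀0 : 0 ≤ I₀ := by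
      apply setIntegral_nonneg measurableSet_Ioi
      intro x hx
      have : (0 : ℝ) < x := hx
      positivity
    rw [← ENNReal.ofReal_mul (by positivity)]
    apply ENNReal.ofReal_le_ofReal
    have h2 : (1 + N) ^ (1 - 2 / p) = ((1 + N) ^ (p - 2)) ^ (1 / p) := by
      rw [← Real.rpow_mul (by positivity)]
      congr 1
      field_simp
    rw [h2, ← Real.mul_rpow (by positivity) (by positivity)]
    apply Real.rpow_le_rpow (by positivity) _ (by positivity)
    nlinarith [mul_le_mul_of_nonneg_left h1 Real.pi_pos.le]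

end Pool.Agent.R223.RD.P
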