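import Pool.Agent.R223.RD.Stm

/-!
# Project RD (MP_dd244f_an), pieces PC and CJ
-/

set_option autoImplicit false

open MeasureTheory Set
open scoped SchwartzMap

namespace Pool.Agent.R223.RD.PC

open Pool.Agent.Y282.RB.A2 (HH db dd db_apply dd_apply)

theorem int_normSq (φ : ℝ → ℝ) :
    ∫ z : ℂ, φ (Complex.normSq z) = Real.pi * ∫ x in Ioi (0 : ℝ), φ x := by
  rw [← Complex.integral_comp_polarCoord_symm]
  have h1 : ∀ q : ℝ × ℝ, q.1 • φ (Complex.normSq (Complex.polarCoord.symm q)) = (q.1 * φ (q.1 ^ 2)) * 1 := by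
    intro q
    have : Complex.normSq (Complex.polarCoord.symm q) = q.1 ^ 2 := by
      rw [Complex.normSq_eq_norm_sq, Complex.norm_polarCoord_symm, sq_abs]
    rw [this, smul_eq_mul, mul_one]
  simp_rw [h1]
  rw [polarCoord_target, Measure.volume_eq_prod, setIntegral_prod_mul (fun r : ℝ => r * φ (r ^ 2)) (fun _ : ℝ => (1 : ℝ))]
  have h2 : ∫ _y in Ioo (-Real.pi) Real.pi, (1 : ℝ) = 2 * Real.pi := by
    rw [setIntegral_const, Measure.real, Real.volume_Ioo, smul_eq_mul, mul_one, ENNReal.toReal_ofReal (by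
      have := Real.pi_pos
      linarith)]
    ring
  rw [h2]
  have h3 := integral_comp_rpow_Ioi_of_pos (g := φ) (p := 2) (by norm_num)
  have h4 : ∫ x in Ioi (0 : ℝ), (2 * x ^ ((2 : ℝ) - 1)) • φ (x ^ (2 : ℝ))
      = 2 * ∫ x in Ioi (0 : ℝ), x * φ (x ^ 2) := by
    rw [← integral_const_mul]
    refine setIntegral_congr_fun measurableSet_Ioi (fun x _ => ?_)
    have e : (2 : ℝ) - 1 = 1 := by norm_num
    simp only [e, Real.rpow_one, Real.rpow_two, smul_eq_mul]
    ring
  rw [h4] at h3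
  rw [← h3]
  ring

theorem main : S_PC := by
  intro p s hp hs0 F hF hR f hf hfm
  obtain ⟨R, hR⟩ := hR
  have hp0 : 0 < p := by linarith
  have hc : Continuous (fun z : ℂ => ‖z‖ ^ s * ‖F (Complex.normSq z)‖) :=
    (continuous_norm.rpow_const fun _ => Or.inr hs0).mul
      (hF.comp Complex.continuous_normSq).norm
  have hs : HasCompactSupport (fun z : ℂ => ‖z‖ ^ s * ‖F (Complex.normSq z)‖) := by
    refine HasCompactSupport.of_support_subset_isCompact
      (isCompact_closedBall (0 : ℂ) (Real.sqrt (max R 0))) ?_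
    intro z hz
    rw [mem_closedBall_zero_iff]
    by_contra hcon
    push Not at hcon
    apply hz
    have hRz : R ≤ Complex.normSq z := by
      rw [Complex.normSq_eq_norm_sq]
      have h1 : Real.sqrt (max R 0) ^ 2 = max R 0 := Real.sq_sqrt (le_max_right _ _)
      have h2 : Real.sqrt (max R 0) ^ 2 ≤ ‖z‖ ^ 2 :=
        pow_le_pow_left₀ (Real.sqrt_nonneg _) hcon.le 2
      rw [h1] at h2
      exact le_trans (le_max_left _ _) h2
    show ‖z‖ ^ s * ‖F (Complex.normSq z)‖ = 0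
    rw [hR _ hRz, norm_zero, mul_zero]
  have hm0 : MemLp (fun z : ℂ => ‖z‖ ^ s * ‖F (Complex.normSq z)‖) (ENNReal.ofReal p)
      (volume : Measure ℂ) := hc.memLp_of_hasCompactSupport hs
  have hm : MemLp f (ENNReal.ofReal p) (volume : Measure ℂ) := by
    refine hm0.of_le hfm (Filter.Eventually.of_forall fun z => ?_)
    rw [hf z]
    exact le_abs_self _
  rw [hm.eLpNorm_eq_integral_rpow_norm (by simpa using hp0) ENNReal.ofReal_ne_top,
    ENNReal.toReal_ofReal hp0.le]
  have h5 := int_normSq (fun x => (x ^ (s / 2) * ‖F x‖) ^ p)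
  have h6 : ∀ z : ℂ, ‖f z‖ ^ p
      = (Complex.normSq z ^ (s / 2) * ‖F (Complex.normSq z)‖) ^ p := by
    intro z
    rw [hf z]
    congr 2
    rw [Complex.normSq_eq_norm_sq, ← Real.rpow_natCast, ← Real.rpow_mul (norm_nonneg z)]
    congr 1
    push_cast
    ring
  simp only [h6]
  rw [h5, one_div]

theorem fderiv_conj (f g : 𝓢(ℂ, ℂ)) (hg : ∀ z, g z = (starRingEnd ℂ) (f z)) (z v : ℂ) :
    fderiv ℝ g z v = (starRingEnd ℂ) (fderiv ℝ f z v) := by
  have h1 : (g : ℂ → ℂ) = (fun w : ℂ => Complex.conjCLE w) ∘ (f : ℂ → ℂ) := by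
    funext w
    exact hg w
  have h2 : HasFDerivAt (f : ℂ → ℂ) (fderiv ℝ f z) z :=
    (f.differentiable z).hasFDerivAt
  have h3 : HasFDerivAt (fun w : ℂ => Complex.conjCLE w)
      (Complex.conjCLE : ℂ →L[ℝ] ℂ) (f z) := Complex.conjCLE.hasFDerivAt
  have h4 := h3.comp z h2
  rw [h1, h4.fderiv]
  rfl

theorem step (f g : 𝓢(ℂ, ℂ)) (hg : ∀ z, g z = (starRingEnd ℂ) (f z)) (z : ℂ) :
    db g z = (starRingEnd ℂ) (dd f z) ∧ dd g z = (starRingEnd ℂ) (db f z) := by
  rw [db_apply, dd_apply, db_apply, dd_apply, fderiv_conj f g hg, fderiv_conj f g hg]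
  have h2 : (starRingEnd ℂ) (2 : ℂ) = 2 := map_ofNat _ 2
  constructor <;> simp [h2]

theorem cj : S_CJ := by
  intro f g hg n
  induction n generalizing f g with
  | zero =>
    intro z
    exact ⟨hg z, hg z⟩
  | succ n ih =>
    intro z
    rw [Function.iterate_succ_apply, Function.iterate_succ_apply, Function.iterate_succ_apply,
      Function.iterate_succ_apply]
    exact ⟨(ih (dd f) (db g) (fun z => (step f g hg z).1) z).1,
      (ih (db f) (dd g) (fun z => (step f g hg z).2) z).2⟩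

end Pool.Agent.R223.RD.PC
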