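import Pool.Agent.R223.RD.Stm

set_option autoImplicit false

open Set

namespace Pool.Agent.R223.RD.PI

/-- `a ^ p ≥ (p/2) a² - (p/2 - 1)` -/
lemma phi_nonneg (p a : ℝ) (hp : 2 ≤ p) (ha : 0 ≤ a) : 0 ≤ a ^ p - p / 2 * a ^ 2 + (p / 2 - 1) := by
  have h := one_add_mul_self_le_rpow_one_add (s := a ^ 2 - 1) (by nlinarith [sq_nonneg a])
    (p := p / 2) (by linarith)
  have e : (1 + (a ^ 2 - 1)) ^ (p / 2) = a ^ p := by
    rw [show (1 + (a ^ 2 - 1) : ℝ) = a ^ (2 : ℝ) by norm_num, ← Real.rpow_mul ha]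
    congr 1; ring
  rw [e] at h
  nlinarith

/-- monotonicity of `a ^ p - (p/2) a²` on `[1, ∞)` -/
lemma phi_mono (p a c : ℝ) (hp : 2 ≤ p) (hc : 1 ≤ c) (hca : c ≤ a) :
    c ^ p - p / 2 * c ^ 2 ≤ a ^ p - p / 2 * a ^ 2 := by
  have hc0 : 0 < c := by linarith
  have ha0 : 0 < a := by linarith
  have h := one_add_mul_self_le_rpow_one_add (s := a ^ 2 / c ^ 2 - 1)
    (by have : 0 ≤ a ^ 2 / c ^ 2 := by positivity
        linarith) (p := p / 2) (by linarith)
  have e : (1 + (a ^ 2 / c ^ 2 - 1)) ^ (p / 2) = a ^ p / c ^ p := by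
    rw [show (1 + (a ^ 2 / c ^ 2 - 1) : ℝ) = (a / c) ^ (2 : ℝ) by rw [← div_pow]; norm_num,
      ← Real.rpow_mul (by positivity), ← Real.div_rpow ha0.le hc0.le]
    congr 1; ring
  rw [e, le_div_iff₀ (Real.rpow_pos_of_pos hc0 p)] at h
  have hcp : c ^ p = c ^ (p - 2) * c ^ 2 := by
    rw [← Real.rpow_natCast c 2, ← Real.rpow_add hc0]; norm_num
  have h1 : 1 ≤ c ^ (p - 2) := Real.one_le_rpow hc (by linarith)
  have h2 : (1 + p / 2 * (a ^ 2 / c ^ 2 - 1)) * c ^ p =
      c ^ p + p / 2 * c ^ (p - 2) * (a ^ 2 - c ^ 2) := by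
    rw [hcp]; field_simp
  rw [h2] at h
  have h3 : 0 ≤ a ^ 2 - c ^ 2 := by nlinarith
  have h4 : p / 2 * (a ^ 2 - c ^ 2) ≤ p / 2 * c ^ (p - 2) * (a ^ 2 - c ^ 2) := by
    have : p / 2 ≤ p / 2 * c ^ (p - 2) := by nlinarith
    exact mul_le_mul_of_nonneg_right this h3
  linarith

/-- the function `H` -/
noncomputable def H (p N a : ℝ) : ℝ :=
  a ^ p - p / 2 * a ^ 2 + (p / 2 - 1) + p / 2 * (a + N) ^ 2 - (a + N) ^ p / (1 + N) ^ (p - 2)

lemma H_deriv (p N a : ℝ) (hN : 0 ≤ N) (ha : 1 < a) :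
    HasDerivAt (H p N) (p * (a ^ (p - 1) + N - (a + N) ^ (p - 1) / (1 + N) ^ (p - 2))) a := by
  have h1 : HasDerivAt (fun x : ℝ => x ^ p) (p * a ^ (p - 1)) a :=
    Real.hasDerivAt_rpow_const (Or.inl (by linarith))
  have h2 : HasDerivAt (fun x : ℝ => (x + N) ^ p) (p * (a + N) ^ (p - 1)) a := by
    have h : HasDerivAt (fun x : ℝ => x + N) 1 a := (hasDerivAt_id a).add_const N
    have := h.rpow_const (p := p) (Or.inl (by linarith))
    convert this using 1
    ring
  have h3 : HasDerivAt (fun x : ℝ => x ^ 2) (2 * a) a := by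
    simpa using hasDerivAt_pow 2 a
  have h4 : HasDerivAt (fun x : ℝ => (x + N) ^ 2) (2 * (a + N)) a := by
    have h : HasDerivAt (fun x : ℝ => x + N) 1 a := (hasDerivAt_id a).add_const N
    have h5 := h.pow 2
    have e : (2 * (a + N) : ℝ) = ((2 : ℕ) : ℝ) * (a + N) ^ (2 - 1) * 1 := by norm_num
    rw [e]
    exact h5
  have := (((h1.sub (h3.const_mul (p / 2))).add_const (p / 2 - 1)).add
    (h4.const_mul (p / 2))).sub (h2.div_const ((1 + N) ^ (p - 2)))
  have e : p * (a ^ (p - 1) + N - (a + N) ^ (p - 1) / (1 + N) ^ (p - 2)) =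
      p * a ^ (p - 1) - p / 2 * (2 * a) + p / 2 * (2 * (a + N)) -
        p * (a + N) ^ (p - 1) / (1 + N) ^ (p - 2) := by ring
  rw [e]
  exact this

lemma H_nonneg (p N a : ℝ) (hp : 2 ≤ p) (hN : 0 ≤ N) (ha : 1 ≤ a) : 0 ≤ H p N a := by
  have hN1 : 0 < 1 + N := by linarith
  have hcont : ContinuousOn (H p N) (Ici 1) := by
    unfold H
    have c1 : ContinuousOn (fun a : ℝ => a ^ p) (Ici 1) := fun x hx =>
      (Real.continuousAt_rpow_const x p (Or.inr (by linarith))).continuousWithinAt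
    have c2 : ContinuousOn (fun a : ℝ => (a + N) ^ p) (Ici 1) := fun x hx =>
      ((continuousAt_id.add continuousAt_const).rpow_const
        (Or.inr (by linarith))).continuousWithinAt
    fun_prop
  have hmono : MonotoneOn (H p N) (Ici 1) := by
    apply monotoneOn_of_deriv_nonneg (convex_Ici 1) hcont
    · intro x hx
      rw [interior_Ici] at hx
      exact (H_deriv p N x hN hx).differentiableAt.differentiableWithinAt
    · intro x hx
      rw [interior_Ici] at hx
      have hx1 : 1 < x := hx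
      rw [(H_deriv p N x hN hx).deriv]
      apply mul_nonneg (by linarith)
      have hx0 : x ∈ Ici (0 : ℝ) := mem_Ici.mpr (by linarith)
      have h10 : (1 : ℝ) ∈ Ici (0 : ℝ) := mem_Ici.mpr zero_le_one
      have hw1 : 0 ≤ 1 / (1 + N) := by positivity
      have hw2 : 0 ≤ N / (1 + N) := by positivity
      have hw3 : 1 / (1 + N) + N / (1 + N) = 1 := by field_simp
      have hc := (convexOn_rpow (p := p - 1) (by linarith)).2 hx0 h10 hw1 hw2 hw3
      simp only [smul_eq_mul, Real.one_rpow, mul_one] at hc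
      have e : 1 / (1 + N) * x + N / (1 + N) = (x + N) / (1 + N) := by ring
      rw [e, Real.div_rpow (by linarith) hN1.le] at hc
      have e2 : (1 + N) ^ (p - 1) = (1 + N) ^ (p - 2) * (1 + N) := by
        rw [← Real.rpow_add_one hN1.ne']; congr 1; ring
      rw [e2] at hc
      have hpos : 0 < (1 + N) ^ (p - 2) := Real.rpow_pos_of_pos hN1 _
      have h5 : (x + N) ^ (p - 1) / (1 + N) ^ (p - 2) ≤ x ^ (p - 1) + N := by
        have h6 : (x + N) ^ (p - 1) / (1 + N) ^ (p - 2) =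
            ((x + N) ^ (p - 1) / ((1 + N) ^ (p - 2) * (1 + N))) * (1 + N) := by
          field_simp
        rw [h6]
        calc ((x + N) ^ (p - 1) / ((1 + N) ^ (p - 2) * (1 + N))) * (1 + N)
            ≤ (1 / (1 + N) * x ^ (p - 1) + N / (1 + N)) * (1 + N) :=
              mul_le_mul_of_nonneg_right hc hN1.le
          _ = x ^ (p - 1) + N := by field_simp
      linarith
  have h1 : H p N 1 = (p / 2 - 1) * (1 + N) ^ 2 := by
    unfold H
    have : (1 + N) ^ p = (1 + N) ^ (p - 2) * (1 + N) ^ 2 := by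
      rw [← Real.rpow_natCast (1 + N) 2, ← Real.rpow_add hN1]; norm_num
    rw [this, Real.one_rpow]
    have hpos : (1 + N) ^ (p - 2) ≠ 0 := (Real.rpow_pos_of_pos hN1 _).ne'
    field_simp
    ring
  have h2 := hmono (mem_Ici.mpr le_rfl) (mem_Ici.mpr ha) ha
  have h3 : 0 ≤ H p N 1 := by
    rw [h1]; exact mul_nonneg (by linarith) (by positivity)
  linarith

/-- normalised form, `L = 1` -/
lemma norm_form (p N a b : ℝ) (hp : 2 ≤ p) (hN : 0 ≤ N) (ha : 0 ≤ a) (hb : 0 ≤ b)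
    (hab : b ≤ a + N) :
    b ^ p ≤ (1 + N) ^ (p - 2) * (a ^ p - p / 2 * (a ^ 2 - b ^ 2) + (p / 2 - 1)) := by
  have hN1 : 0 < 1 + N := by linarith
  have hpos : 0 < (1 + N) ^ (p - 2) := Real.rpow_pos_of_pos hN1 _
  rcases le_or_gt b (1 + N) with hb1 | hb1
  · have h1 := phi_nonneg p a hp ha
    have h2 : b ^ p ≤ (1 + N) ^ (p - 2) * b ^ 2 := by
      rcases hb.eq_or_lt with h0 | h0
      · rw [← h0, Real.zero_rpow (by linarith)]; simp
      · have : b ^ p = b ^ (p - 2) * b ^ 2 := by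
          rw [← Real.rpow_natCast b 2, ← Real.rpow_add h0]; norm_num
        rw [this]
        exact mul_le_mul_of_nonneg_right (Real.rpow_le_rpow hb hb1 (by linarith)) (sq_nonneg b)
    refine h2.trans (mul_le_mul_of_nonneg_left ?_ hpos.le)
    nlinarith [sq_nonneg b]
  · have hc : 1 ≤ b - N := by linarith
    have h1 := phi_mono p a (b - N) hp hc (by linarith)
    have h2 := H_nonneg p N (b - N) hp hN hc
    unfold H at h2
    rw [sub_add_cancel] at h2
    have h3 : b ^ p / (1 + N) ^ (p - 2) ≤ a ^ p - p / 2 * (a ^ 2 - b ^ 2) + (p / 2 - 1) := by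
      linarith
    rw [div_le_iff₀ hpos] at h3
    linarith

theorem core (p N a b L : ℝ) (hp : 2 ≤ p) (hN : 0 ≤ N) (ha : 0 ≤ a) (hb : 0 ≤ b) (hL : 0 ≤ L)
    (hab : b ≤ a + N * L) :
    b ^ p ≤ (1 + N) ^ (p - 2) *
      (a ^ p - p / 2 * L ^ (p - 2) * (a ^ 2 - b ^ 2) + (p / 2 - 1) * L ^ p) := by
  rcases hL.eq_or_lt with h0 | h0
  · subst h0
    rw [Real.zero_rpow (by linarith : p ≠ 0), mul_zero, add_zero]
    have hab' : b ≤ a := by simpa using hab
    rcases hp.eq_or_lt with h2 | h2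
    · subst h2
      norm_num
    · rw [Real.zero_rpow (by linarith : p - 2 ≠ 0), mul_zero, zero_mul, sub_zero]
      have h3 : b ^ p ≤ a ^ p := Real.rpow_le_rpow hb hab' (by linarith)
      have h4 : 1 ≤ (1 + N) ^ (p - 2) := Real.one_le_rpow (by linarith) (by linarith)
      have h5 : 0 ≤ a ^ p := Real.rpow_nonneg ha _
      nlinarith
  · have h := norm_form p N (a / L) (b / L) hp hN (by positivity) (by positivity)
      (by rw [div_le_iff₀ h0]; have : (a / L + N) * L = a + N * L := by field_simp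
          rw [this]; exact hab)
    rw [Real.div_rpow hb h0.le, Real.div_rpow ha h0.le, div_le_iff₀ (Real.rpow_pos_of_pos h0 p)] at h
    refine h.trans (le_of_eq ?_)
    have e : L ^ p = L ^ (p - 2) * L ^ 2 := by
      rw [← Real.rpow_natCast L 2, ← Real.rpow_add h0]; norm_num
    have h2 : L ^ (p - 2) ≠ 0 := (Real.rpow_pos_of_pos h0 _).ne'
    rw [e]
    field_simp

theorem main : Pool.Agent.R223.RD.S_PI := fun p N a b L hp hN ha hb hL hab =>
  core p N a b L hp hN ha hb hL hab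

end Pool.Agent.R223.RD.PI
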