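import Pool.Agent.R223.RD.Stm2
import Pool.Agent.R223.RD.P
import Pool.Agent.Y282.RB.A3

/-!
# Project RD, part 2: from the half-line to the plane, vector valued version
-/

set_option autoImplicit false

open MeasureTheory Set
open scoped SchwartzMap ContDiff

namespace Pool.Agent.R223.RD.PV

open Pool.Agent.R223.RD
open Pool.Agent.Y282.RB (Tn)
open Pool.Agent.Y282.RB.A2 (HH db dd Tn_db db_iter dd_iter real_iter HH_smooth)
open Pool.Agent.R223.RD.P (iter_zero iter_conj)

/-- the function `F` for one `V` -/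
theorem single (hCJ : S_CJ) (m n : ℕ) (V : ℝ → ℂ) (hnm : n ≤ m) (hV : Cc V) :
    ∃ (k : ℝ → ℂ) (F : 𝓢(ℂ, ℂ)) (R : ℝ), ContDiff ℝ (⊤ : ℕ∞) k ∧ (∀ x, R ≤ x → k x = 0) ∧
      (∀ x, R ≤ x → iteratedDeriv n k x = 0) ∧ (∀ x, R ≤ x → HH m k n x = 0) ∧
      (∀ z, F z = (z⁻¹) ^ (m - n) * iteratedDeriv n V (Complex.normSq z)) ∧
      (∀ z, ‖F z‖ = ‖z‖ ^ (m - n) * ‖HH m k n (Complex.normSq z)‖) ∧
      (∀ z, ‖Tn n F z‖ = ‖z‖ ^ (m + n) * ‖iteratedDeriv n k (Complex.normSq z)‖) := by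
  obtain ⟨hVs, a, R, ha, haR, hV0, hVR⟩ := hV
  -- the function h
  set h : ℝ → ℂ := fun x => V x * ((x : ℂ) ^ m)⁻¹ with hh
  have hxm : ∀ x : ℝ, V x = (x : ℂ) ^ m * h x := by
    intro x
    rcases le_or_gt x a with hx | hx
    · rw [hh]; simp only; rw [hV0 x hx]; simp
    · have h1 : (x : ℂ) ^ m ≠ 0 := by
        apply pow_ne_zero
        have : x ≠ 0 := by linarith
        exact_mod_cast this
      rw [hh]
      simp only
      field_simp
  have hhs : ContDiff ℝ (⊤ : ℕ∞) h := by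
    rw [contDiff_iff_contDiffAt]
    intro x
    rcases lt_or_ge x a with hx | hx
    · have h1 : h =ᶠ[nhds x] fun _ => 0 := by
        filter_upwards [Iio_mem_nhds hx] with y hy
        rw [hh]
        simp only
        rw [hV0 y (le_of_lt hy), zero_mul]
      exact contDiffAt_const.congr_of_eventuallyEq h1
    · have hx0 : (x : ℂ) ^ m ≠ 0 := by
        apply pow_ne_zero
        have : x ≠ 0 := by linarith
        exact_mod_cast this
      have h2 : ContDiffAt ℝ (⊤ : ℕ∞) (fun y : ℝ => (y : ℂ) ^ m) x :=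
        (Complex.ofRealCLM.contDiff.pow m).contDiffAt
      exact hVs.contDiffAt.mul (h2.inv hx0)
  set k : ℝ → ℂ := fun x => (starRingEnd ℂ) (h x) with hk
  have hks : ContDiff ℝ (⊤ : ℕ∞) k := by
    have h1 : ContDiff ℝ (⊤ : ℕ∞) (fun z : ℂ => (starRingEnd ℂ) z) :=
      Complex.conjCLE.contDiff
    exact h1.comp hhs
  have hkR : ∀ x, R ≤ x → k x = 0 := by
    intro x hx
    rw [hk, hh]
    simp only
    rw [hVR x hx]
    simp
  -- Schwartz functions
  have hsq : ContDiff ℝ ∞ (Complex.normSq : ℂ → ℝ) := by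
    have e : (Complex.normSq : ℂ → ℝ) = fun z => z.re * z.re + z.im * z.im := by
      funext z
      exact Complex.normSq_apply z
    rw [e]
    exact (Complex.reCLM.contDiff.mul Complex.reCLM.contDiff).add
      (Complex.imCLM.contDiff.mul Complex.imCLM.contDiff)
  have hs2 : ContDiff ℝ ∞ (fun z : ℂ => z ^ m * k (Complex.normSq z)) :=
    (contDiff_id.pow m).mul (hks.comp hsq)
  have hs1 : ContDiff ℝ ∞ (fun z : ℂ => (starRingEnd ℂ) (z ^ m * k (Complex.normSq z))) := by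
    have h1 : ContDiff ℝ ∞ (fun z : ℂ => (starRingEnd ℂ) z) := Complex.conjCLE.contDiff
    exact h1.comp hs2
  have hvan : ∀ w : ℂ, w ∉ Metric.closedBall (0 : ℂ) (|R| + 1) → w ^ m * k (Complex.normSq w) = 0 := by
    intro w hw
    rw [Metric.mem_closedBall, dist_zero_right, not_le] at hw
    have h1 : R ≤ Complex.normSq w := by
      rw [Complex.normSq_eq_norm_sq]
      nlinarith [le_abs_self R, abs_nonneg R]
    rw [hkR _ h1, mul_zero]
  have hc2 : HasCompactSupport (fun z : ℂ => z ^ m * k (Complex.normSq z)) :=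
    HasCompactSupport.intro (isCompact_closedBall (0 : ℂ) (|R| + 1)) fun w hw => hvan w hw
  have hc1 : HasCompactSupport (fun z : ℂ => (starRingEnd ℂ) (z ^ m * k (Complex.normSq z))) :=
    HasCompactSupport.intro (isCompact_closedBall (0 : ℂ) (|R| + 1)) fun w hw => by
      rw [hvan w hw, map_zero]
  set φ₂ : 𝓢(ℂ, ℂ) := hc2.toSchwartzMap hs2 with hφ₂
  set φ : 𝓢(ℂ, ℂ) := hc1.toSchwartzMap hs1 with hφ
  have hφ₂a : ∀ z, φ₂ z = z ^ m * k (Complex.normSq z) := fun z => rfl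
  have hφa : ∀ z, φ z = (starRingEnd ℂ) (φ₂ z) := fun z => rfl
  have hCJ' := hCJ φ₂ φ hφa n
  have hdb : ∀ z, (db^[n] φ₂) z = z ^ (m + n) * iteratedDeriv n k (Complex.normSq z) :=
    fun z => db_iter hks hφ₂a n z
  have hdd : ∀ z, (dd^[n] φ₂) z = z ^ (m - n) * HH m k n (Complex.normSq z) :=
    fun z => dd_iter hks hφ₂a n hnm z
  have hreal : ∀ t : ℝ, iteratedDeriv n V t = (t : ℂ) ^ (m - n) * (starRingEnd ℂ) (HH m k n t) := by
    intro t
    have h1 := real_iter hks n hnm t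
    have h2 : (fun t : ℝ => (t : ℂ) ^ m * k t) = fun t => (starRingEnd ℂ) (V t) := by
      funext t
      rw [hxm t, map_mul, map_pow, Complex.conj_ofReal]
    rw [h2, iter_conj] at h1
    have h3 := congrArg (starRingEnd ℂ) h1
    rw [Complex.conj_conj, map_mul, map_pow, Complex.conj_ofReal] at h3
    exact h3
  have hkRn : ∀ x, R + 1 ≤ x → iteratedDeriv n k x = 0 := by
    intro x hx
    exact iter_zero (R := R) (fun y hy => hkR y hy.le) n x (by linarith)
  have hHRn : ∀ x, R + 1 ≤ x → HH m k n x = 0 := by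
    intro x hx
    have h1 : iteratedDeriv n V x = 0 :=
      iter_zero (R := R) (fun y hy => hVR y hy.le) n x (by linarith)
    rw [hreal x] at h1
    have h2 : (x : ℂ) ^ (m - n) ≠ 0 := by
      apply pow_ne_zero
      have : x ≠ 0 := by linarith
      exact_mod_cast this
    have h3 := (mul_eq_zero.mp h1).resolve_left h2
    exact (map_eq_zero (starRingEnd ℂ)).mp h3
  refine ⟨k, db^[n] φ, R + 1, hks, fun x hx => hkR x (by linarith), hkRn, hHRn, ?_, ?_, ?_⟩
  · intro z
    rw [(hCJ' z).1, hdd z, hreal, map_mul, map_pow, ← mul_assoc, ← mul_pow]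
    congr 2
    rw [← Complex.mul_conj, ← mul_assoc]
    rcases eq_or_ne z 0 with hz | hz
    · rw [hz]; simp
    · rw [inv_mul_cancel₀ hz, one_mul]
  · intro z
    rw [(hCJ' z).1, hdd z, Complex.norm_conj, norm_mul, norm_pow]
  · intro z
    rw [show Tn n (⇑(db^[n] φ)) z = (dd^[n] φ) z from Tn_db n φ z]
    rw [(hCJ' z).2, hdb z, Complex.norm_conj, norm_mul, norm_pow]

/-- polar coordinates for a square function -/
theorem polar {ι : Type} [Fintype ι] (p : ℝ) (hp : 2 ≤ p) (s : ι → ℝ) (hs : ∀ i, 0 ≤ s i)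
    (W : ι → ℝ → ℂ) (hW : ∀ i, Continuous (W i)) (R : ℝ) (hR : ∀ i x, R ≤ x → W i x = 0)
    (G : ι → ℂ → ℂ) (hG : ∀ i z, ‖G i z‖ = ‖z‖ ^ (s i) * ‖W i (Complex.normSq z)‖) :
    eLpNorm (fun z : ℂ => Real.sqrt (∑ i, ‖G i z‖ ^ 2)) (ENNReal.ofReal p) (volume : Measure ℂ)
      = ENNReal.ofReal ((Real.pi * ∫ x in Ioi (0 : ℝ),
        (∑ i, (x ^ (s i / 2) * ‖W i x‖) ^ 2) ^ (p / 2)) ^ (1 / p)) := by
  have hp0 : 0 < p := by linarith
  have e1 : (fun z : ℂ => Real.sqrt (∑ i, ‖G i z‖ ^ 2)) = fun z : ℂ =>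
      (fun x : ℝ => Real.sqrt (∑ i, (x ^ (s i / 2) * ‖W i x‖) ^ 2)) (Complex.normSq z) := by
    funext z
    simp only
    congr 1
    refine Finset.sum_congr rfl fun i _ => ?_
    rw [hG i z]
    congr 2
    rw [Complex.normSq_eq_norm_sq, ← Real.rpow_natCast, ← Real.rpow_mul (norm_nonneg z)]
    congr 1
    push_cast
    ring
  rw [e1]
  rw [Pool.Agent.Y282.RB.A3.main p (by linarith) (fun x : ℝ => Real.sqrt (∑ i, (x ^ (s i / 2) * ‖W i x‖) ^ 2))
    ?_ ⟨R, ?_⟩]
  · congr 3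
    refine setIntegral_congr_fun measurableSet_Ioi fun x _ => ?_
    have h0 : 0 ≤ ∑ i, (x ^ (s i / 2) * ‖W i x‖) ^ 2 := Finset.sum_nonneg fun _ _ => sq_nonneg _
    rw [abs_of_nonneg (Real.sqrt_nonneg _), Real.sqrt_eq_rpow, ← Real.rpow_mul h0]
    congr 1
    ring
  · refine Real.continuous_sqrt.comp (continuous_finsetSum _ fun i _ => ?_)
    exact ((continuous_id.rpow_const fun _ => Or.inr (by have := hs i; positivity)).mul
      (hW i).norm).pow 2
  · intro x hx
    rw [Finset.sum_eq_zero, Real.sqrt_zero]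
    intro i _
    rw [hR i x hx, norm_zero, mul_zero]
    norm_num

theorem main : S_PV := by
  intro hOV hPI hCH hCJ ι _ m n N p V hnm hN hNm hp hV
  choose k F R hks hkR hkRn hHRn hF1 hF2 hF3 using fun i => single hCJ (m i) (n i) (V i) (hnm i) (hV i)
  refine ⟨F, hF1, ?_⟩
  set R' : ℝ := ∑ i, |R i| with hR'
  have hRR : ∀ i, R i ≤ R' := fun i => (le_abs_self _).trans
    (Finset.single_le_sum (f := fun i => |R i|) (fun _ _ => abs_nonneg _) (Finset.mem_univ i))
  have hp0 : 0 < p := by linarith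
  have e1 := polar p hp (fun i => (m i : ℝ) + n i) (fun i => by positivity)
    (fun i => iteratedDeriv (n i) (k i))
    (fun i => (hks i).continuous_iteratedDeriv (n i) (by exact_mod_cast le_top)) R'
    (fun i x hx => hkRn i x ((hRR i).trans hx)) (fun i => Tn (n i) (F i)) (by
      intro i z
      rw [hF3 i z]
      congr 1
      rw [← Real.rpow_natCast]
      push_cast
      rfl)
  have e2 := polar p hp (fun i => (m i : ℝ) - n i) (fun i => by
      have : (n i : ℝ) ≤ m i := by exact_mod_cast hnm i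
      linarith)
    (fun i => HH (m i) (k i) (n i)) (fun i => (HH_smooth (m i) (hks i) (n i)).continuous) R'
    (fun i x hx => hHRn i x ((hRR i).trans hx)) (fun i => F i) (by
      intro i z
      rw [hF2 i z]
      congr 1
      rw [← Real.rpow_natCast, Nat.cast_sub (hnm i)])
  rw [e1, e2]
  have h1 := hOV hPI hCH ι m n N p k hnm hN hNm hp hks ⟨R', fun i x hx => hkR i x ((hRR i).trans hx)⟩
  set I₁ := ∫ x in Ioi (0 : ℝ),
      (∑ i, (x ^ (((m i : ℝ) + n i) / 2) * ‖iteratedDeriv (n i) (k i) x‖) ^ 2) ^ (p / 2) with hI₁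
  set I₀ := ∫ x in Ioi (0 : ℝ),
      (∑ i, (x ^ (((m i : ℝ) - n i) / 2) * ‖HH (m i) (k i) (n i) x‖) ^ 2) ^ (p / 2) with hI₀
  have hI₁0 : 0 ≤ I₁ := by
    apply setIntegral_nonneg measurableSet_Ioi
    intro x hx
    exact Real.rpow_nonneg (Finset.sum_nonneg fun _ _ => sq_nonneg _) _
  have hI₀0 : 0 ≤ I₀ := by
    apply setIntegral_nonneg measurableSet_Ioi
    intro x hx
    exact Real.rpow_nonneg (Finset.sum_nonneg fun _ _ => sq_nonneg _) _
  rw [← ENNReal.ofReal_mul (by positivity)]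
  apply ENNReal.ofReal_le_ofReal
  have h2 : (1 + N) ^ (1 - 2 / p) = ((1 + N) ^ (p - 2)) ^ (1 / p) := by
    rw [← Real.rpow_mul (by positivity)]
    congr 1
    field_simp
  rw [h2, ← Real.mul_rpow (by positivity) (by positivity)]
  apply Real.rpow_le_rpow (by positivity) _ (by positivity)
  nlinarith [mul_le_mul_of_nonneg_left h1 Real.pi_pos.le]

end Pool.Agent.R223.RD.PV
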