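import Pool.Agent.R223.RD.Stm
import Pool.Agent.Y282.RB.A1

/-!
# RD-SG: the semigroup property on the functions of angular type `k` (helper289)
-/

set_option autoImplicit false

open MeasureTheory Filter Topology
open scoped FourierTransform SchwartzMap LineDeriv ContDiff

namespace Pool.Agent.R223.RD.SG

open Pool.Agent.Y282.RB (Tn)
open Pool.Agent.Y282.RB.A2 (db dd fd_normSq dd_apply db_iter four_db_iter four_dd_iter Ft_eq)

theorem fd_radc (m : ℕ) (F : ℝ → ℂ) (z : ℂ) (hF : DifferentiableAt ℝ F (Complex.normSq z))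
    (v : ℂ) :
    fderiv ℝ (fun z : ℂ => ((starRingEnd ℂ) z) ^ m * F (Complex.normSq z)) z v =
      m * ((starRingEnd ℂ) z) ^ (m - 1) * (starRingEnd ℂ) v * F (Complex.normSq z) +
      ((starRingEnd ℂ) z) ^ m *
        (((2 * z.re * v.re + 2 * z.im * v.im : ℝ) : ℂ) * deriv F (Complex.normSq z)) := by
  have h0 : HasFDerivAt (fun z : ℂ => (starRingEnd ℂ) z)
      (Complex.conjCLE : ℂ →L[ℝ] ℂ) z := Complex.conjCLE.hasFDerivAt
  have h1 := h0.pow m
  have h2 : HasFDerivAt (fun z : ℂ => F (Complex.normSq z))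
      ((ContinuousLinearMap.toSpanSingleton ℝ (deriv F (Complex.normSq z))).comp
        ((2 * z.re) • Complex.reCLM + (2 * z.im) • Complex.imCLM)) z :=
    HasFDerivAt.comp z hF.hasDerivAt.hasFDerivAt (fd_normSq z)
  have h3 := h1.mul h2
  have h4 : HasFDerivAt (fun z : ℂ => ((starRingEnd ℂ) z) ^ m * F (Complex.normSq z)) _ z := h3
  rw [h4.fderiv]
  simp [Complex.real_smul]
  ring

theorem dd_radc {m : ℕ} {F : ℝ → ℂ} (hF : Differentiable ℝ F) {f : 𝓢(ℂ, ℂ)}
    (hf : ∀ z, f z = ((starRingEnd ℂ) z) ^ m * F (Complex.normSq z)) (z : ℂ) :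
    dd f z = ((starRingEnd ℂ) z) ^ (m + 1) * deriv F (Complex.normSq z) := by
  have h1 : (f : ℂ → ℂ) = fun z : ℂ => ((starRingEnd ℂ) z) ^ m * F (Complex.normSq z) :=
    funext hf
  rw [dd_apply, h1, fd_radc m F z (hF _), fd_radc m F z (hF _)]
  have h2 : (starRingEnd ℂ) z = (z.re : ℂ) - z.im * Complex.I := by
    apply Complex.ext <;> simp
  simp only [Complex.one_re, Complex.one_im, Complex.I_re, Complex.I_im, mul_zero, mul_one,
    add_zero, zero_add, map_one, Complex.conj_I]
  push_cast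
  rw [pow_succ]
  linear_combination (1 / 2 * m * ((starRingEnd ℂ) z) ^ (m - 1) * F (Complex.normSq z)) *
    Complex.I_sq - ((starRingEnd ℂ) z) ^ m * deriv F (Complex.normSq z) * h2

theorem dd_iterc {m : ℕ} {F : ℝ → ℂ} (hF : ContDiff ℝ (⊤ : ℕ∞) F) {f : 𝓢(ℂ, ℂ)}
    (hf : ∀ z, f z = ((starRingEnd ℂ) z) ^ m * F (Complex.normSq z)) (j : ℕ) (z : ℂ) :
    dd^[j] f z = ((starRingEnd ℂ) z) ^ (m + j) * iteratedDeriv j F (Complex.normSq z) := by
  induction j generalizing z with
  | zero => simpa using hf z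
  | succ j ih =>
    rw [Function.iterate_succ_apply', dd_radc (m := m + j) (F := iteratedDeriv j F) ?_ ih,
      iteratedDeriv_succ, add_assoc]
    exact hF.differentiable_iteratedDeriv j (by exact_mod_cast ENat.natCast_lt_top j)

theorem main : S_SG := by
  intro k j w g hw hg
  obtain ⟨hws, a, R, ha, haR, hwa, hwR⟩ := hw
  obtain ⟨W, hW, hWR, hWd⟩ := Pool.Agent.Y282.RB.A1.key k R w hws hwR
  have hs : ContDiff ℝ ∞ (fun z : ℂ => W (Complex.normSq z)) := by
    have h1 : ContDiff ℝ ∞ (Complex.normSq : ℂ → ℝ) := by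
      have e : (Complex.normSq : ℂ → ℝ) = fun z => z.re * z.re + z.im * z.im := by
        funext z
        exact Complex.normSq_apply z
      rw [e]
      exact (Complex.reCLM.contDiff.mul Complex.reCLM.contDiff).add
        (Complex.imCLM.contDiff.mul Complex.imCLM.contDiff)
    exact hW.comp h1
  have hc : HasCompactSupport (fun z : ℂ => W (Complex.normSq z)) := by
    refine HasCompactSupport.intro (isCompact_closedBall (0 : ℂ) (|R| + 1)) fun w hw => ?_
    rw [Metric.mem_closedBall, dist_zero_right, not_le] at hw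
    have h1 : R ≤ Complex.normSq w := by
      rw [Complex.normSq_eq_norm_sq]
      nlinarith [le_abs_self R, abs_nonneg R]
    rw [hWR _ h1]
  set φ : 𝓢(ℂ, ℂ) := hc.toSchwartzMap hs with hφdef
  have hφ : ∀ z, φ z = W (Complex.normSq z) := fun z => rfl
  have e1 : g = db^[k] φ := by
    ext z
    rw [db_iter (m := 0) hW (fun z => by rw [hφ z, pow_zero, one_mul]) k z, zero_add, hWd, hg]
  refine ⟨dd^[k] φ, fun z => ?_, fun z => ?_⟩
  · rw [dd_iterc (m := 0) hW (fun z => by rw [hφ z, pow_zero, one_mul]) k z, zero_add, hWd]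
  · rw [e1]
    unfold Tn
    refine integral_congr_ae ?_
    have h0 : ∀ᵐ ξ : ℂ, ξ ≠ 0 := by
      rw [ae_iff]
      simp
    filter_upwards [h0] with ξ hξ
    rw [Ft_eq, Ft_eq, four_db_iter, four_dd_iter]
    congr 1
    rw [pow_add, mul_comm (((starRingEnd ℂ) ξ / ξ) ^ k), mul_assoc]
    congr 1
    rw [← mul_assoc, ← mul_pow]
    congr 2
    field_simp

end Pool.Agent.R223.RD.SG
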