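import Pool.Agent.Y282.RB.A2

/-!
# Project RD (helper223): powers of the Beurling transform on the angular classes `k ≤ n`

`Tn n` is the Fourier multiplier with symbol `(conj ξ / ξ) ^ n` (literal form,
`Pool/Agent/Y282/RB/Stm.lean`), `HH m h j` is defined in `Pool/Agent/Y282/RB/A2.lean`:
`HH m h 0 = h`, `HH m h (j + 1) t = (m - j) HH m h j t + t (HH m h j)' t`, so that
`(t ^ m h) ^ (j) = t ^ (m - j) HH m h j` for `j ≤ m`.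

Mathematical proof.

1. (PI) For `a, b, L, N ≥ 0`, `b ≤ a + N L`, `p ≥ 2`:
   `b ^ p ≤ (1 + N) ^ (p - 2) (a ^ p - (p / 2) L ^ (p - 2) (a ^ 2 - b ^ 2) + (p / 2 - 1) L ^ p)`.
2. (H) Let `n ≤ m`, `S i = HH (m + i) h^(i) (n - 1 - i)`, `H i = HH (m + i) h^(i) (n - i)`,
   `c i = m - n + 1 + 2 i`.  Then `H i = c i * S i + x (S i)'`, `H (i + 1) = (S i)'` (`i < n`),
   `H n = h^(n)`, `∑ c i = n m`.  With `ρ i = x ^ ((m - n) / 2 + i) H i`,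
   `X i = x ^ ((m - n) / 2 + i) S i`, `Λ = ∑ c i |X i| ^ 2`:
   `ρ (i + 1) = ρ i - c i X i`, so `|ρ n| ≤ |ρ 0| + sqrt (n m) sqrt Λ`, and
   `(x Λ)' = |ρ 0| ^ 2 - |ρ n| ^ 2`.  Hence
   `(x Λ ^ (p / 2))' = (p / 2) Λ ^ (p / 2 - 1) (|ρ 0| ^ 2 - |ρ n| ^ 2) - (p / 2 - 1) Λ ^ (p / 2)`
   and (PI) with `N = sqrt (n m)`, `L = sqrt Λ` gives
   `|ρ n| ^ p ≤ (1 + N) ^ (p - 2) (|ρ 0| ^ p - (x Λ ^ (p / 2))')`; integrate over `(0, ∞)`.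
-/

set_option autoImplicit false

open MeasureTheory Set
open scoped SchwartzMap

namespace Pool.Agent.R223.RD

open Pool.Agent.Y282.RB (Tn)
open Pool.Agent.Y282.RB.A2 (HH db dd)

/-- the pointwise inequality -/
def S_PI : Prop := ∀ p N a b L : ℝ, 2 ≤ p → 0 ≤ N → 0 ≤ a → 0 ≤ b → 0 ≤ L → b ≤ a + N * L →
  b ^ p ≤ (1 + N) ^ (p - 2) *
    (a ^ p - p / 2 * L ^ (p - 2) * (a ^ 2 - b ^ 2) + (p / 2 - 1) * L ^ p)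

/-- shift of the functions `HH` -/
def S_HS : Prop := ∀ (N r : ℕ) (h : ℝ → ℂ), ContDiff ℝ (⊤ : ℕ∞) h → r ≤ N →
  HH (N + 1) (deriv h) r = deriv (HH N h r)

/-- the chain -/
def S_CH : Prop := ∀ (m n : ℕ) (h : ℝ → ℂ), n ≤ m → ContDiff ℝ (⊤ : ℕ∞) h →
  (∃ R : ℝ, ∀ x, R ≤ x → h x = 0) →
  ∃ (S H : ℕ → ℝ → ℂ) (R : ℝ), 0 < R ∧ (∀ i, ContDiff ℝ (⊤ : ℕ∞) (S i)) ∧
    (∀ i, ContDiff ℝ (⊤ : ℕ∞) (H i)) ∧ (∀ i x, R ≤ x → S i x = 0) ∧ (∀ i x, R ≤ x → H i x = 0) ∧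
    H 0 = HH m h n ∧ H n = iteratedDeriv n h ∧
    (∀ i, i < n → ∀ x, H i x = ((m : ℂ) - n + 1 + 2 * i) * S i x + x * deriv (S i) x) ∧
    (∀ i, i < n → ∀ x, H (i + 1) x = deriv (S i) x)

/-- the one-dimensional inequality -/
def OneR (m n : ℕ) (p : ℝ) : Prop := ∀ h : ℝ → ℂ, ContDiff ℝ (⊤ : ℕ∞) h →
  (∃ R : ℝ, ∀ x, R ≤ x → h x = 0) →
  ∫ x in Ioi (0 : ℝ), (x ^ (((m : ℝ) + n) / 2) * ‖iteratedDeriv n h x‖) ^ p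
    ≤ (1 + Real.sqrt ((n : ℝ) * m)) ^ (p - 2) *
      ∫ x in Ioi (0 : ℝ), (x ^ (((m : ℝ) - n) / 2) * ‖HH m h n x‖) ^ p

def S_H : Prop := S_PI → S_CH → ∀ (m n : ℕ) (p : ℝ), n ≤ m → 2 ≤ p → OneR m n p

/-- smooth functions with compact support in `(0, ∞)` -/
def Cc (V : ℝ → ℂ) : Prop := ContDiff ℝ (⊤ : ℕ∞) V ∧
  ∃ a R : ℝ, 0 < a ∧ a < R ∧ (∀ x, x ≤ a → V x = 0) ∧ ∀ x, R ≤ x → V x = 0

/-- polar coordinates with a weight: `|z| ^ s F(|z| ^ 2)` -/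
def S_PC : Prop := ∀ (p s : ℝ), 2 ≤ p → 0 ≤ s → ∀ (F : ℝ → ℂ), Continuous F →
  (∃ R : ℝ, ∀ x, R ≤ x → F x = 0) → ∀ f : ℂ → ℂ,
  (∀ z, ‖f z‖ = ‖z‖ ^ s * ‖F (Complex.normSq z)‖) → AEStronglyMeasurable f (volume : Measure ℂ) →
  eLpNorm f (ENNReal.ofReal p) (volume : Measure ℂ)
    = ENNReal.ofReal ((Real.pi * ∫ x in Ioi (0 : ℝ), (x ^ (s / 2) * ‖F x‖) ^ p) ^ (1 / p))

/-- complex conjugation of the Wirtinger derivatives -/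
def S_CJ : Prop := ∀ f g : 𝓢(ℂ, ℂ), (∀ z, g z = (starRingEnd ℂ) (f z)) →
  ∀ n z, (db^[n] g) z = (starRingEnd ℂ) ((dd^[n] f) z) ∧
    (dd^[n] g) z = (starRingEnd ℂ) ((db^[n] f) z)

/-- the multiplier on the class of compactly supported functions of angular type `-(m - n)`
with vanishing moments: `F z = z ^ (-(m - n)) V ^ (n) (|z| ^ 2)` -/
def S_P : Prop := (∀ (m n : ℕ) (p : ℝ), n ≤ m → 2 ≤ p → OneR m n p) → S_PC → S_CJ →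
  ∀ (m n : ℕ) (p : ℝ) (V : ℝ → ℂ), n ≤ m → 2 ≤ p → Cc V →
  ∃ F : 𝓢(ℂ, ℂ), (∀ z, F z = (z⁻¹) ^ (m - n) * iteratedDeriv n V (Complex.normSq z)) ∧
    eLpNorm (Tn n F) (ENNReal.ofReal p) (volume : Measure ℂ)
      ≤ ENNReal.ofReal ((1 + Real.sqrt ((n : ℝ) * m)) ^ (1 - 2 / p)) *
        eLpNorm (⇑F) (ENNReal.ofReal p) (volume : Measure ℂ)

/-- approximation by functions with vanishing moments -/
def S_AP : Prop := ∀ (p : ℝ), 2 ≤ p → ∀ (n : ℕ) (w : ℝ → ℂ), Cc w → ∀ δ : ℝ, 0 < δ →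
  ∃ V : ℝ → ℂ, Cc V ∧ (∀ x, x < 1 → iteratedDeriv n V x = w x) ∧
    eLpNorm (fun z : ℂ => w (Complex.normSq z) - iteratedDeriv n V (Complex.normSq z))
      (ENNReal.ofReal p) (volume : Measure ℂ) ≤ ENNReal.ofReal δ

/-- truncations of a Schwartz function of angular type `-d` -/
def S_TR : Prop := ∀ (d : ℕ) (f : 𝓢(ℂ, ℂ)),
  (∀ a z : ℂ, ‖a‖ = 1 → a ^ d * f (a * z) = f z) → ∀ p : ℝ, 2 ≤ p → ∀ δ : ℝ, 0 < δ →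
  ∃ (w : ℝ → ℂ) (g : 𝓢(ℂ, ℂ)), Cc w ∧ (∀ z, g z = (z⁻¹) ^ d * w (Complex.normSq z)) ∧
    (∀ z, ‖g z‖ ≤ ‖f z‖) ∧
    eLpNorm (f - g : 𝓢(ℂ, ℂ)) (ENNReal.ofReal p) (volume : Measure ℂ) ≤ ENNReal.ofReal δ

/-- the norm bound on the class of angular type `-(m - n)` -/
def MainNeg (m n : ℕ) (p : ℝ) : Prop := ∀ f : 𝓢(ℂ, ℂ),
  (∀ a z : ℂ, ‖a‖ = 1 → a ^ (m - n) * f (a * z) = f z) →
  eLpNorm (Tn n f) (ENNReal.ofReal p) (volume : Measure ℂ)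
    ≤ ENNReal.ofReal ((1 + Real.sqrt ((n : ℝ) * m)) ^ (1 - 2 / p)) *
      eLpNorm (⇑f) (ENNReal.ofReal p) (volume : Measure ℂ)

/-- truncations of a Schwartz function of angular type `k > 0` -/
def S_TR2 : Prop := ∀ (k : ℕ) (f : 𝓢(ℂ, ℂ)),
  (∀ a z : ℂ, ‖a‖ = 1 → f (a * z) = a ^ k * f z) → ∀ p : ℝ, 2 ≤ p → ∀ δ : ℝ, 0 < δ →
  ∃ (w : ℝ → ℂ) (g : 𝓢(ℂ, ℂ)), Cc w ∧ (∀ z, g z = z ^ k * w (Complex.normSq z)) ∧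
    (∀ z, ‖g z‖ ≤ ‖f z‖) ∧
    eLpNorm (f - g : 𝓢(ℂ, ℂ)) (ENNReal.ofReal p) (volume : Measure ℂ) ≤ ENNReal.ofReal δ

/-- `T ^ k` on the functions of angular type `k`, and the semigroup property on them -/
def S_SG : Prop := ∀ (k j : ℕ) (w : ℝ → ℂ) (g : 𝓢(ℂ, ℂ)), Cc w →
  (∀ z, g z = z ^ k * w (Complex.normSq z)) →
  ∃ g' : 𝓢(ℂ, ℂ), (∀ z, g' z = ((starRingEnd ℂ) z) ^ k * w (Complex.normSq z)) ∧
    ∀ z, Tn (k + j) g z = Tn j g' z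

/-- the norm bound on the class of angular type `k`, `0 ≤ k ≤ n` (with `m = n - k`) -/
def MainPos (m n : ℕ) (p : ℝ) : Prop := ∀ f : 𝓢(ℂ, ℂ),
  (∀ a z : ℂ, ‖a‖ = 1 → f (a * z) = a ^ (n - m) * f z) →
  eLpNorm (Tn n f) (ENNReal.ofReal p) (volume : Measure ℂ)
    ≤ ENNReal.ofReal ((1 + Real.sqrt ((n : ℝ) * m)) ^ (1 - 2 / p)) *
      eLpNorm (⇑f) (ENNReal.ofReal p) (volume : Measure ℂ)

/-- comparison with the constant `(1/q)_n / (1/p)_n` -/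
def S_CN : Prop := ∀ (m n : ℕ) (p : ℝ), 1 ≤ n → m ≤ 23 * n → 2 ≤ p →
  (1 + Real.sqrt ((n : ℝ) * m)) ^ (1 - 2 / p) ≤ Pool.Agent.Y282.RB.Cn p n

end Pool.Agent.R223.RD
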