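import Pool.Agent.R223.RD.Stm

/-!
# Project RD, part 2 (helper223): square functions and the mixed norm

The same Bellman function `Λ ^ (p / 2)`, now `Λ` summed over finitely many angular types, bounds the
square function `(∑ |T^n f_k|^2)^(1/2)`, where `f_k` has angular type `k ≤ n`, and so `T^n` in the
mixed norm `L^p` (radial) of `L^2` (angular) on functions with angular frequencies in a band.
-/

set_option autoImplicit false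

open MeasureTheory Set
open scoped SchwartzMap ENNReal

namespace Pool.Agent.R223.RD

open Pool.Agent.Y282.RB (Tn)
open Pool.Agent.Y282.RB.A2 (HH db dd)

/-- the vector valued one-dimensional inequality (adapt `H1.lean`): with the chains of all `h i`,
`Λ` is the sum over `i` of the individual `Λ_i`; `(x Λ)' = |ρ_0|^2 - |ρ_n|^2` in `ℓ^2`, and
`|ρ_n| ≤ |ρ_0| + (∑ N_i^2 Λ_i)^(1/2) ≤ |ρ_0| + N Λ^(1/2)` in `ℓ^2` -/
def S_OV : Prop := S_PI → S_CH → ∀ (ι : Type) [Fintype ι] (m n : ι → ℕ) (N p : ℝ)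
  (h : ι → ℝ → ℂ), (∀ i, n i ≤ m i) → 0 ≤ N → (∀ i, (n i : ℝ) * m i ≤ N ^ 2) → 2 ≤ p →
  (∀ i, ContDiff ℝ (⊤ : ℕ∞) (h i)) → (∃ R : ℝ, ∀ i x, R ≤ x → h i x = 0) →
  ∫ x in Ioi (0 : ℝ),
      (∑ i, (x ^ (((m i : ℝ) + n i) / 2) * ‖iteratedDeriv (n i) (h i) x‖) ^ 2) ^ (p / 2)
    ≤ (1 + N) ^ (p - 2) * ∫ x in Ioi (0 : ℝ),
      (∑ i, (x ^ (((m i : ℝ) - n i) / 2) * ‖HH (m i) (h i) (n i) x‖) ^ 2) ^ (p / 2)

/-- from the half-line to the plane (adapt `P.lean` and `PC.lean`) -/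
def S_PV : Prop := S_OV → S_PI → S_CH → S_CJ → ∀ (ι : Type) [Fintype ι] (m n : ι → ℕ) (N p : ℝ)
  (V : ι → ℝ → ℂ), (∀ i, n i ≤ m i) → 0 ≤ N → (∀ i, (n i : ℝ) * m i ≤ N ^ 2) → 2 ≤ p →
  (∀ i, Cc (V i)) →
  ∃ F : ι → 𝓢(ℂ, ℂ),
    (∀ i z, F i z = (z⁻¹) ^ (m i - n i) * iteratedDeriv (n i) (V i) (Complex.normSq z)) ∧
    eLpNorm (fun z : ℂ => Real.sqrt (∑ i, ‖Tn (n i) (F i) z‖ ^ 2)) (ENNReal.ofReal p)
        (volume : Measure ℂ)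
      ≤ ENNReal.ofReal ((1 + N) ^ (1 - 2 / p)) *
        eLpNorm (fun z : ℂ => Real.sqrt (∑ i, ‖F i z‖ ^ 2)) (ENNReal.ofReal p)
          (volume : Measure ℂ)

/-- the square function bound for Schwartz functions of types `-(m i - n i)` and powers `n i` -/
def SqNeg : Prop := ∀ (ι : Type) [Fintype ι] (m n : ι → ℕ) (N p : ℝ) (f : ι → 𝓢(ℂ, ℂ)),
  (∀ i, n i ≤ m i) → 0 ≤ N → (∀ i, (n i : ℝ) * m i ≤ N ^ 2) → 2 ≤ p →
  (∀ i, ∀ a z : ℂ, ‖a‖ = 1 → a ^ (m i - n i) * f i (a * z) = f i z) →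
    eLpNorm (fun z : ℂ => Real.sqrt (∑ i, ‖Tn (n i) (f i) z‖ ^ 2)) (ENNReal.ofReal p)
        (volume : Measure ℂ)
      ≤ ENNReal.ofReal ((1 + N) ^ (1 - 2 / p)) *
        eLpNorm (fun z : ℂ => Real.sqrt (∑ i, ‖f i z‖ ^ 2)) (ENNReal.ofReal p)
          (volume : Measure ℂ)

/-- the square function bound for Schwartz functions of types `k i ≤ n` -/
def SqAll : Prop := ∀ (ι : Type) [Fintype ι] (n : ℕ) (k : ι → ℤ) (N p : ℝ) (f : ι → 𝓢(ℂ, ℂ)),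
  (∀ i, k i ≤ n) → 0 ≤ N → (∀ i, (n : ℝ) * ((n : ℝ) - (k i : ℝ)) ≤ N ^ 2) → 2 ≤ p →
  (∀ i, ∀ a z : ℂ, ‖a‖ = 1 → f i (a * z) = a ^ (k i) * f i z) →
    eLpNorm (fun z : ℂ => Real.sqrt (∑ i, ‖Tn n (f i) z‖ ^ 2)) (ENNReal.ofReal p)
        (volume : Measure ℂ)
      ≤ ENNReal.ofReal ((1 + N) ^ (1 - 2 / p)) *
        eLpNorm (fun z : ℂ => Real.sqrt (∑ i, ‖f i z‖ ^ 2)) (ENNReal.ofReal p)
          (volume : Measure ℂ)

/-- the mixed norm: `L^p` in the radius (measure `r dr`) of the `L^2` norm over the angle -/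
noncomputable def mix (p : ℝ) (g : ℂ → ℂ) : ℝ≥0∞ :=
  (∫⁻ r in Ioi (0 : ℝ),
    (∫⁻ θ in Ioc (0 : ℝ) (2 * Real.pi), ‖g (r * Complex.exp (θ * Complex.I))‖ₑ ^ (2 : ℝ)) ^ (p / 2) *
      ENNReal.ofReal r) ^ (1 / p)

/-- orthogonality of the angular types: the mixed norm of a sum of continuous functions of distinct
types is a constant multiple of the `L^p` norm of the square function -/
def S_MX : Prop := ∀ (ι : Type) [Fintype ι] (k : ι → ℤ) (p : ℝ) (f : ι → ℂ → ℂ),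
  Function.Injective k → 2 ≤ p → (∀ i, Continuous (f i)) →
  (∀ i, ∀ a z : ℂ, ‖a‖ = 1 → f i (a * z) = a ^ (k i) * f i z) →
  mix p (fun z => ∑ i, f i z) = ENNReal.ofReal ((2 * Real.pi) ^ (1 / 2 - 1 / p)) *
    eLpNorm (fun z : ℂ => Real.sqrt (∑ i, ‖f i z‖ ^ 2)) (ENNReal.ofReal p) (volume : Measure ℂ)

/-- `T^n` maps type `k` to type `k - 2 n` -/
def S_TY : Prop := ∀ (n : ℕ) (k : ℤ) (f : 𝓢(ℂ, ℂ)),
  (∀ a z : ℂ, ‖a‖ = 1 → f (a * z) = a ^ k * f z) →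
  ∀ a z : ℂ, ‖a‖ = 1 → Tn n f (a * z) = a ^ (k - 2 * n) * Tn n f z

/-- the mixed norm bound -/
def MixT : Prop := ∀ (n : ℕ) (l : ℤ) (p : ℝ) (f : ℤ → 𝓢(ℂ, ℂ)), 1 ≤ n → l ≤ n → 2 ≤ p →
  (∀ k, ∀ a z : ℂ, ‖a‖ = 1 → f k (a * z) = a ^ k * f k z) →
  mix p (Tn n (fun z => ∑ k ∈ Finset.Icc l (n : ℤ), f k z)) ≤
    ENNReal.ofReal ((1 + Real.sqrt ((n : ℝ) * ((n : ℝ) - (l : ℝ)))) ^ (1 - 2 / p)) *
      mix p (fun z => ∑ k ∈ Finset.Icc l (n : ℤ), f k z)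

end Pool.Agent.R223.RD
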