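import Pool.Agent.R223.RD.Stm2

/-!
# Project RD, part 3 (helper223): comparison of the square function with the function
-/

set_option autoImplicit false

open MeasureTheory Set
open scoped SchwartzMap ENNReal

namespace Pool.Agent.R223.RD

/-- for a finite sum of continuous functions `f i` of distinct angular types `k i` and `p ≥ 2`,
the square function is bounded in `L^p` by the sum, and the sum by `card ^ (1/2 - 1/p)` times the
square function.  Proof: with `M` larger than all `|k i - k j|` and `ζ = exp (2 π I / M)`, the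
average over `a = ζ^r`, `r < M`, of `|∑ a^(k i) f i z|^2` is `∑ |f i z|^2` for every `z`; the sum at
`a z` is `∑ a^(k i) f i z`, and rotations preserve the `L^p` norm.  First inequality:
`(average of |.|^2)^(p/2) ≤ average of |.|^p`; second: `|∑ a^(k i) f i z| ≤ sqrt card * S z`, so
`average of |.|^p ≤ (sqrt card * S z)^(p-2) * average of |.|^2`. -/
def S_NK : Prop := ∀ (ι : Type) [Fintype ι] (k : ι → ℤ) (p : ℝ) (f : ι → ℂ → ℂ),
  Function.Injective k → 2 ≤ p → (∀ i, Continuous (f i)) →
  (∀ i, ∀ a z : ℂ, ‖a‖ = 1 → f i (a * z) = a ^ (k i) * f i z) →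
  eLpNorm (fun z : ℂ => Real.sqrt (∑ i, ‖f i z‖ ^ 2)) (ENNReal.ofReal p) (volume : Measure ℂ) ≤
    eLpNorm (fun z : ℂ => ∑ i, f i z) (ENNReal.ofReal p) (volume : Measure ℂ) ∧
  eLpNorm (fun z : ℂ => ∑ i, f i z) (ENNReal.ofReal p) (volume : Measure ℂ) ≤
    ENNReal.ofReal (Real.sqrt (Fintype.card ι) ^ (1 - 2 / p)) *
      eLpNorm (fun z : ℂ => Real.sqrt (∑ i, ‖f i z‖ ^ 2)) (ENNReal.ofReal p) (volume : Measure ℂ)

end Pool.Agent.R223.RD
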