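import Pool.Agent.R223.RD.Stm

/-!
# Project RD (MP_dd244f_an), piece TR: truncations
-/

set_option autoImplicit false

open MeasureTheory Set Filter Topology
open scoped SchwartzMap ENNReal ContDiff

namespace Pool.Agent.R223.RD.TR

/-- cut-off functions (from Y282/RB/K.lean) -/
lemma exists_cut (ε : ℝ) (h0 : 0 < ε) (h1 : ε < 1) : ∃ (χ : ℝ → ℝ) (R : ℝ), ContDiff ℝ ∞ χ ∧
    HasCompactSupport χ ∧ (∀ x, 0 ≤ χ x ∧ χ x ≤ 1) ∧ (∀ x, ε ≤ x → x ≤ 1 / ε → χ x = 1) ∧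
    (∀ x, x ≤ ε / 2 → χ x = 0) ∧ ∀ x, R ≤ x → χ x = 0 := by
  have hε : 1 < 1 / ε := by rw [lt_div_iff₀ h0]; linarith
  let b : ContDiffBump ((1 / ε + ε) / 2 : ℝ) :=
    ⟨(1 / ε - ε) / 2, (1 / ε - ε) / 2 + ε / 2, by linarith, by linarith⟩
  refine ⟨b, (1 / ε + ε) / 2 + ((1 / ε - ε) / 2 + ε / 2), b.contDiff, b.hasCompactSupport,
    fun x => ⟨b.nonneg, b.le_one⟩, fun x hx1 hx2 => ?_, fun x hx => ?_, fun x hx => ?_⟩
  · apply b.one_of_mem_closedBall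
    rw [Metric.mem_closedBall, Real.dist_eq]
    show |x - (1 / ε + ε) / 2| ≤ (1 / ε - ε) / 2
    exact abs_le.2 ⟨by linarith, by linarith⟩
  · apply b.zero_of_le_dist
    rw [Real.dist_eq]
    show (1 / ε - ε) / 2 + ε / 2 ≤ |x - (1 / ε + ε) / 2|
    rw [abs_sub_comm]
    refine le_trans ?_ (le_abs_self _)
    linarith
  · apply b.zero_of_le_dist
    rw [Real.dist_eq]
    show (1 / ε - ε) / 2 + ε / 2 ≤ |x - (1 / ε + ε) / 2|
    refine le_trans ?_ (le_abs_self _)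
    linarith

/-- convergence of the truncations (from Y282/RB/K.lean) -/
lemma tendsto_trunc (f : 𝓢(ℂ, ℂ)) (F : ℕ → 𝓢(ℂ, ℂ)) (p : ℝ) (hp : 2 ≤ p)
    (h1 : ∀ k z, ‖F k z‖ ≤ ‖f z‖)
    (h2 : ∀ (k : ℕ) (z : ℂ), 1 / ((k : ℝ) + 2) ≤ Complex.normSq z → Complex.normSq z ≤ (k : ℝ) + 2 → F k z = 0) :
    Tendsto (fun k => eLpNorm (F k) (ENNReal.ofReal p) (volume : Measure ℂ)) atTop (𝓝 0) := by
  have hp0 : 0 < p := by linarith
  have hP0 : ENNReal.ofReal p ≠ 0 := by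
    rw [ne_eq, ENNReal.ofReal_eq_zero, not_le]
    exact hp0
  have hPt : (ENNReal.ofReal p).toReal = p := ENNReal.toReal_ofReal hp0.le
  have e : ∀ k, eLpNorm (F k) (ENNReal.ofReal p) (volume : Measure ℂ) =
      (∫⁻ z, ‖F k z‖ₑ ^ p) ^ (1 / p) := by
    intro k
    rw [eLpNorm_eq_lintegral_rpow_enorm_toReal hP0 ENNReal.ofReal_ne_top, hPt]
  simp only [e]
  have hfin : ∫⁻ z, ‖f z‖ₑ ^ p ≠ ⊤ := by
    have h3 : MemLp f (ENNReal.ofReal p) (volume : Measure ℂ) := f.memLp _ _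
    have h4 := lintegral_rpow_enorm_lt_top_of_eLpNorm_lt_top hP0 ENNReal.ofReal_ne_top h3.2
    rw [hPt] at h4
    exact h4.ne
  have hlim : Tendsto (fun k => ∫⁻ z, ‖F k z‖ₑ ^ p) atTop (𝓝 (∫⁻ _ : ℂ, 0)) := by
    refine tendsto_lintegral_of_dominated_convergence (fun z => ‖f z‖ₑ ^ p) (fun k => ?_)
      (fun k => Eventually.of_forall fun z => ?_) hfin ?_
    · exact ((F k).continuous.enorm.measurable).pow_const p
    · exact ENNReal.rpow_le_rpow (enorm_le_iff_norm_le.2 (h1 k z)) hp0.le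
    · have h5 : ∀ᵐ z : ℂ, z ≠ 0 := by
        rw [ae_iff]
        simp
      filter_upwards [h5] with z hz
      have hz0 : 0 < Complex.normSq z := Complex.normSq_pos.2 hz
      obtain ⟨N, hN⟩ := exists_nat_gt (max (Complex.normSq z) (1 / Complex.normSq z))
      refine tendsto_const_nhds.congr' ?_
      filter_upwards [eventually_ge_atTop N] with k hk
      have hk' : (N : ℝ) ≤ k := by exact_mod_cast hk
      have h6 : Complex.normSq z < N := lt_of_le_of_lt (le_max_left _ _) hN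
      have h7 : 1 / Complex.normSq z < N := lt_of_le_of_lt (le_max_right _ _) hN
      rw [h2 k z ?_ (by linarith)]
      · simp [hp0]
      · rw [div_le_iff₀ (by positivity)]
        rw [div_lt_iff₀ hz0] at h7
        nlinarith
  rw [lintegral_zero] at hlim
  have h8 := (ENNReal.continuous_rpow_const (y := 1 / p)).tendsto 0
  rw [ENNReal.zero_rpow_of_pos (by positivity)] at h8
  exact h8.comp hlim

/-- one truncation, with a general profile -/
lemma trunc (f : 𝓢(ℂ, ℂ)) (W : ℝ → ℂ) (c : ℂ → ℂ) (hW : ∀ x : ℝ, 0 < x → ContDiffAt ℝ ∞ W x)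
    (hc : ∀ z : ℂ, z ≠ 0 → c z * W (Complex.normSq z) = f z) (ε : ℝ) (h0 : 0 < ε) (h1 : ε < 1) :
    ∃ (w : ℝ → ℂ) (g : 𝓢(ℂ, ℂ)), Cc w ∧ (∀ z, g z = c z * w (Complex.normSq z)) ∧
      (∀ z, ‖g z‖ ≤ ‖f z‖) ∧ (∀ z, ‖(f - g) z‖ ≤ ‖f z‖) ∧
      ∀ z, ε ≤ Complex.normSq z → Complex.normSq z ≤ 1 / ε → (f - g) z = 0 := by
  obtain ⟨χ, R, hχ1, hχ2, hχ3, hχ4, hχ5, hχ6⟩ := exists_cut ε h0 h1
  have hns : ContDiff ℝ ∞ (fun z : ℂ => Complex.normSq z) := by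
    have : (fun z : ℂ => Complex.normSq z) = fun z => z.re * z.re + z.im * z.im := by
      funext z
      exact Complex.normSq_apply z
    rw [this]
    exact (Complex.reCLM.contDiff.mul Complex.reCLM.contDiff).add
      (Complex.imCLM.contDiff.mul Complex.imCLM.contDiff)
  have hχc : ContDiff ℝ ∞ (fun x : ℝ => (χ x : ℂ)) := Complex.ofRealCLM.contDiff.comp hχ1
  have hs : ContDiff ℝ ∞ (fun z : ℂ => (χ (Complex.normSq z) : ℂ) * f z) :=
    (hχc.comp hns).mul (f.smooth ⊤)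
  have hcs : HasCompactSupport (fun z : ℂ => (χ (Complex.normSq z) : ℂ) * f z) := by
    refine HasCompactSupport.intro (isCompact_closedBall (0 : ℂ) (max R 1)) fun z hz => ?_
    rw [Metric.mem_closedBall, dist_zero_right, not_le] at hz
    rw [hχ6 _ ?_]
    · simp
    · rw [Complex.normSq_eq_norm_sq]
      have h2 : R < ‖z‖ := lt_of_le_of_lt (le_max_left _ _) hz
      have h3 : 1 < ‖z‖ := lt_of_le_of_lt (le_max_right _ _) hz
      nlinarith
  have hw : ContDiff ℝ ∞ (fun x : ℝ => (χ x : ℂ) * W x) := by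
    rw [contDiff_iff_contDiffAt]
    intro x
    rcases lt_or_ge x (ε / 2) with hx | hx
    · refine (contDiffAt_const (c := (0 : ℂ))).congr_of_eventuallyEq ?_
      filter_upwards [Iio_mem_nhds hx] with y hy
      rw [hχ5 y (le_of_lt hy)]
      simp
    · exact hχc.contDiffAt.mul (hW x (by linarith))
  refine ⟨fun x => (χ x : ℂ) * W x, hcs.toSchwartzMap hs, ⟨hw, ε / 2, max R 1, by linarith,
    lt_of_lt_of_le (by linarith) (le_max_right _ _), ?_, ?_⟩, ?_, ?_, ?_, ?_⟩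
  · intro x hx
    show (χ x : ℂ) * W x = 0
    rw [hχ5 x hx]
    simp
  · intro x hx
    show (χ x : ℂ) * W x = 0
    rw [hχ6 x (le_trans (le_max_left _ _) hx)]
    simp
  · intro z
    show (χ (Complex.normSq z) : ℂ) * f z = c z * ((χ (Complex.normSq z) : ℂ) * W (Complex.normSq z))
    by_cases hz : z = 0
    · subst hz
      rw [map_zero, hχ5 0 (by linarith)]
      simp
    · rw [← hc z hz]
      ring
  · intro z
    show ‖(χ (Complex.normSq z) : ℂ) * f z‖ ≤ ‖f z‖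
    rw [norm_mul, Complex.norm_real, Real.norm_of_nonneg (hχ3 _).1]
    exact mul_le_of_le_one_left (norm_nonneg _) (hχ3 _).2
  · intro z
    show ‖f z - (χ (Complex.normSq z) : ℂ) * f z‖ ≤ ‖f z‖
    have e : f z - (χ (Complex.normSq z) : ℂ) * f z
        = ((1 - χ (Complex.normSq z) : ℝ) : ℂ) * f z := by
      push_cast
      ring
    rw [e, norm_mul, Complex.norm_real,
      Real.norm_of_nonneg (by linarith [(hχ3 (Complex.normSq z)).2])]
    exact mul_le_of_le_one_left (norm_nonneg _) (by linarith [(hχ3 (Complex.normSq z)).1])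
  · intro z hz1 hz2
    show f z - (χ (Complex.normSq z) : ℂ) * f z = 0
    rw [hχ4 _ hz1 hz2]
    simp

/-- truncations with a small error -/
lemma core (f : 𝓢(ℂ, ℂ)) (W : ℝ → ℂ) (c : ℂ → ℂ) (hW : ∀ x : ℝ, 0 < x → ContDiffAt ℝ ∞ W x)
    (hc : ∀ z : ℂ, z ≠ 0 → c z * W (Complex.normSq z) = f z) (p : ℝ) (hp : 2 ≤ p) (δ : ℝ)
    (hδ : 0 < δ) :
    ∃ (w : ℝ → ℂ) (g : 𝓢(ℂ, ℂ)), Cc w ∧ (∀ z, g z = c z * w (Complex.normSq z)) ∧
      (∀ z, ‖g z‖ ≤ ‖f z‖) ∧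
      eLpNorm (f - g : 𝓢(ℂ, ℂ)) (ENNReal.ofReal p) (volume : Measure ℂ) ≤ ENNReal.ofReal δ := by
  have hk : ∀ k : ℕ, (0 : ℝ) < 1 / ((k : ℝ) + 2) ∧ 1 / ((k : ℝ) + 2) < 1 := by
    intro k
    have : (0 : ℝ) ≤ k := Nat.cast_nonneg k
    refine ⟨by positivity, ?_⟩
    rw [div_lt_one (by linarith)]
    linarith
  choose w g hw hg hle1 hle2 hz using fun k : ℕ =>
    trunc f W c hW hc (1 / ((k : ℝ) + 2)) (hk k).1 (hk k).2
  have hlim := tendsto_trunc f (fun k => f - g k) p hp (fun k z => hle2 k z) fun k z hz1 hz2 => by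
    refine hz k z hz1 ?_
    rw [one_div_one_div]
    exact hz2
  have hev := (tendsto_order.1 hlim).2 (ENNReal.ofReal δ) (ENNReal.ofReal_pos.2 hδ)
  obtain ⟨k, hk⟩ := hev.exists
  exact ⟨w k, g k, hw k, hg k, hle1 k, hk.le⟩

lemma sqrt_smooth (x : ℝ) (hx : 0 < x) : ContDiffAt ℝ ∞ (fun x : ℝ => ((√x : ℝ) : ℂ)) x :=
  Complex.ofRealCLM.contDiff.contDiffAt.comp x (Real.contDiffAt_sqrt hx.ne')

theorem main : S_TR := by
  intro d f hf p hp δ hδ
  refine core f (fun x => ((√x : ℝ) : ℂ) ^ d * f ((√x : ℝ) : ℂ)) (fun z => (z⁻¹) ^ d) ?_ ?_ p hp δ hδ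
  · intro x hx
    exact ((sqrt_smooth x hx).pow d).mul (((f.smooth ⊤).contDiffAt).comp x (sqrt_smooth x hx))
  · intro z hz
    have hn : (‖z‖ : ℂ) ≠ 0 := Complex.ofReal_ne_zero.2 (norm_ne_zero_iff.2 hz)
    have h2 : √(Complex.normSq z) = ‖z‖ := rfl
    have ha : ‖z / (‖z‖ : ℂ)‖ = 1 := by
      rw [norm_div, Complex.norm_real, norm_norm]
      exact div_self (norm_ne_zero_iff.2 hz)
    have h3 := hf (z / (‖z‖ : ℂ)) (‖z‖ : ℂ) ha
    rw [div_mul_cancel₀ _ hn] at h3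
    show (z⁻¹) ^ d * (((√(Complex.normSq z) : ℝ) : ℂ) ^ d * f ((√(Complex.normSq z) : ℝ) : ℂ)) = f z
    have hz' : z ^ d ≠ 0 := pow_ne_zero _ hz
    rw [h2, ← h3, div_pow, inv_pow]
    field_simp

theorem tr2 : S_TR2 := by
  intro k f hf p hp δ hδ
  refine core f (fun x => f ((√x : ℝ) : ℂ) * (((√x : ℝ) : ℂ) ^ k)⁻¹) (fun z => z ^ k) ?_ ?_ p hp δ hδ
  · intro x hx
    refine (((f.smooth ⊤).contDiffAt).comp x (sqrt_smooth x hx)).mul
      (((sqrt_smooth x hx).pow k).inv ?_)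
    exact pow_ne_zero _ (Complex.ofReal_ne_zero.2 (Real.sqrt_pos.2 hx).ne')
  · intro z hz
    have hn : (‖z‖ : ℂ) ≠ 0 := Complex.ofReal_ne_zero.2 (norm_ne_zero_iff.2 hz)
    have h2 : √(Complex.normSq z) = ‖z‖ := rfl
    have ha : ‖z / (‖z‖ : ℂ)‖ = 1 := by
      rw [norm_div, Complex.norm_real, norm_norm]
      exact div_self (norm_ne_zero_iff.2 hz)
    have h3 := hf (z / (‖z‖ : ℂ)) (‖z‖ : ℂ) ha
    rw [div_mul_cancel₀ _ hn] at h3
    show z ^ k * (f ((√(Complex.normSq z) : ℝ) : ℂ) * (((√(Complex.normSq z) : ℝ) : ℂ) ^ k)⁻¹) = f z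
    rw [h2, h3, div_pow]
    field_simp

end Pool.Agent.R223.RD.TR
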