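import Pool.Agent.R223.RD.Stm2

/-!
# Project RD, part 2: `T^n` maps angular type `k` to angular type `k - 2 n` (helper975)
-/

set_option autoImplicit false

open MeasureTheory Set
open scoped SchwartzMap ENNReal

namespace Pool.Agent.R223.RD.TY

open Pool.Agent.Y282.RB (Tn)

/-- integrals over the plane are invariant under rotations -/
theorem int_rot (a : ℂ) (ha : ‖a‖ = 1) (G : ℂ → ℂ) :
    ∫ x : ℂ, G (a * x) = ∫ x : ℂ, G x := by
  have hmem : a ∈ Submonoid.unitSphere ℂ := by
    simp [Submonoid.unitSphere, ha]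
  have h := (rotation ⟨a, hmem⟩).measurePreserving
  have h2 := h.integral_comp (rotation ⟨a, hmem⟩).toHomeomorph.measurableEmbedding G
  simpa [rotation_apply] using h2

theorem re_rot (a : ℂ) (ha : ‖a‖ = 1) (x y : ℂ) :
    (a * x).re * (a * y).re + (a * x).im * (a * y).im = x.re * y.re + x.im * y.im := by
  have h1 : a.re * a.re + a.im * a.im = 1 := by
    have h2 : Complex.normSq a = 1 := by
      rw [Complex.normSq_eq_norm_sq, ha]; norm_num
    rw [Complex.normSq_apply] at h2
    exact h2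
  simp only [Complex.mul_re, Complex.mul_im]
  linear_combination (x.re * y.re + x.im * y.im) * h1

theorem main : S_TY := by
  intro n k f hf a z ha
  have ha0 : a ≠ 0 := by
    intro h
    rw [h, norm_zero] at ha
    exact zero_ne_one ha
  have hconj : starRingEnd ℂ a = a⁻¹ := by
    rw [Complex.inv_def, Complex.normSq_eq_norm_sq, ha]
    simp
  unfold Tn
  rw [← int_rot a ha (fun ξ : ℂ => Complex.exp (2 * (Real.pi : ℂ) * Complex.I *
      ((((a * z).re * ξ.re + (a * z).im * ξ.im : ℝ)) : ℂ)) *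
      ((starRingEnd ℂ ξ / ξ) ^ n *
        ∫ x : ℂ, Complex.exp (-(2 * (Real.pi : ℂ) * Complex.I *
          (((x.re * ξ.re + x.im * ξ.im : ℝ)) : ℂ))) * f x))]
  rw [← integral_const_mul]
  apply integral_congr_ae
  refine Filter.Eventually.of_forall (fun ξ => ?_)
  simp only
  rw [← int_rot a ha (fun x : ℂ => Complex.exp (-(2 * (Real.pi : ℂ) * Complex.I *
          (((x.re * (a * ξ).re + x.im * (a * ξ).im : ℝ)) : ℂ))) * f x)]
  have h1 : (∫ x : ℂ, Complex.exp (-(2 * (Real.pi : ℂ) * Complex.I *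
          ((((a * x).re * (a * ξ).re + (a * x).im * (a * ξ).im : ℝ)) : ℂ))) * f (a * x))
      = a ^ k * ∫ x : ℂ, Complex.exp (-(2 * (Real.pi : ℂ) * Complex.I *
          (((x.re * ξ.re + x.im * ξ.im : ℝ)) : ℂ))) * f x := by
    rw [← integral_const_mul]
    apply integral_congr_ae
    refine Filter.Eventually.of_forall (fun x => ?_)
    simp only
    rw [re_rot a ha, hf a x ha]
    ring
  rw [h1, re_rot a ha]
  have h2 : (starRingEnd ℂ (a * ξ) / (a * ξ)) = a⁻¹ ^ 2 * (starRingEnd ℂ ξ / ξ) := by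
    rw [map_mul, hconj]
    field_simp
  rw [h2, mul_pow]
  have h3 : a ^ (k - 2 * (n : ℤ)) = (a⁻¹ ^ 2) ^ n * a ^ k := by
    rw [zpow_sub₀ ha0, ← pow_mul, div_eq_mul_inv, mul_comm]
    congr 1
    rw [inv_pow]
    norm_cast
  rw [h3]
  ring

end Pool.Agent.R223.RD.TY
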